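import Mathlib

set_option autoImplicit false

open MvPolynomial

namespace Pool.Agent.Geproci

variable {τ : Type*}

/-- components of a product. -/
lemma hc_mul_mem (I J : Ideal (MvPolynomial τ ℂ))
    (hI : ∀ f ∈ I, ∀ n, homogeneousComponent n f ∈ I) (n : ℕ)
    (hJ : ∀ m, m < n → ∀ g ∈ I, g.IsHomogeneous m → g ∈ J)
    (u f : MvPolynomial τ ℂ) (hu : coeff 0 u = 0) (hf : f ∈ I) :
    homogeneousComponent n (u * f) ∈ J := by
  classical
  have h1 : u * f = ∑ k ∈ Finset.range (u.totalDegree + 1), ∑ l ∈ Finset.range (f.totalDegree + 1),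
      homogeneousComponent k u * homogeneousComponent l f := by
    rw [← Finset.sum_mul_sum, sum_homogeneousComponent, sum_homogeneousComponent]
  rw [h1, map_sum]
  refine Ideal.sum_mem _ fun k _ => ?_
  rw [map_sum]
  refine Ideal.sum_mem _ fun l _ => ?_
  have hom : (homogeneousComponent k u * homogeneousComponent l f).IsHomogeneous (k + l) :=
    (homogeneousComponent_isHomogeneous k u).mul (homogeneousComponent_isHomogeneous l f)
  rw [homogeneousComponent_of_mem ((mem_homogeneousSubmodule _ _).mpr hom)]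
  split_ifs with h
  · rcases Nat.eq_zero_or_pos k with hk | hk
    · rw [hk, homogeneousComponent_zero, hu, C_0, zero_mul]
      exact J.zero_mem
    · apply J.mul_mem_left
      exact hJ l (by omega) _ (hI f hf l) (homogeneousComponent_isHomogeneous l f)
  · exact J.zero_mem

lemma mem_of_components (I : Ideal (MvPolynomial τ ℂ)) (f : MvPolynomial τ ℂ)
    (h : ∀ n, homogeneousComponent n f ∈ I) : f ∈ I := by
  rw [← sum_homogeneousComponent f]
  exact Ideal.sum_mem _ fun n _ => h n

lemma three_dep (α β γ : Fin 2 → ℂ) :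
    ∃ x y z : ℂ, ¬ (x = 0 ∧ y = 0 ∧ z = 0) ∧ x * α 0 + y * β 0 + z * γ 0 = 0 ∧
      x * α 1 + y * β 1 + z * γ 1 = 0 := by
  have hdet : Matrix.det !![α 0, β 0, γ 0; α 1, β 1, γ 1; 0, 0, 0] = 0 := by
    rw [Matrix.det_fin_three]
    simp
  obtain ⟨v, hv, hv2⟩ := Matrix.exists_mulVec_eq_zero_iff.mpr hdet
  refine ⟨v 0, v 1, v 2, ?_, ?_, ?_⟩
  · rintro ⟨h0, h1, h2⟩
    apply hv
    funext i
    fin_cases i
    · exact h0
    · exact h1
    · exact h2
  · have := congrFun hv2 0
    simp [Matrix.mulVec, dotProduct, Fin.sum_univ_three] at this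
    linear_combination this
  · have := congrFun hv2 1
    simp [Matrix.mulVec, dotProduct, Fin.sum_univ_three] at this
    linear_combination this

/-- A homogeneous ideal generated by two elements is generated by two homogeneous elements. -/
theorem homogeneous_generators (F G : MvPolynomial τ ℂ)
    (hI : ∀ f ∈ Ideal.span {F, G}, ∀ n, homogeneousComponent n f ∈ Ideal.span {F, G}) :
    ∃ (a b : ℕ) (A B : MvPolynomial τ ℂ), a ≤ b ∧ A.IsHomogeneous a ∧ B.IsHomogeneous b ∧
      A ∈ Ideal.span {F, G} ∧ B ∈ Ideal.span {F, G} ∧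
      ∀ f ∈ Ideal.span {F, G}, ∃ u v, f = u * A + v * B := by
  classical
  set I := Ideal.span {F, G} with hIdef
  by_cases hbot : ∀ f ∈ I, f = 0
  · exact ⟨0, 0, 0, 0, le_refl _, isHomogeneous_zero _ _ _, isHomogeneous_zero _ _ _, I.zero_mem,
      I.zero_mem, fun f hf => ⟨0, 0, by rw [hbot f hf]; ring⟩⟩
  push Not at hbot
  obtain ⟨f0, hf0, hf0ne⟩ := hbot
  -- minimal degree
  have hex1 : ∃ n, ∃ A ∈ I, A ≠ 0 ∧ A.IsHomogeneous n := by
    by_contra hcon
    push Not at hcon
    apply hf0ne
    have : f0 ∈ (⊥ : Ideal (MvPolynomial τ ℂ)) := by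
      apply mem_of_components
      intro n
      by_contra hne
      exact hcon n (homogeneousComponent n f0) (hI f0 hf0 n) (fun h => hne (by rw [h]; simp))
        (homogeneousComponent_isHomogeneous n f0)
    simpa using this
  set a := Nat.find hex1 with ha
  obtain ⟨A, hAI, hA0, hAh⟩ := Nat.find_spec hex1
  have hamin : ∀ m, m < a → ∀ g ∈ I, g.IsHomogeneous m → g = 0 := by
    intro m hm g hg hgh
    by_contra hne
    exact Nat.find_min hex1 hm ⟨g, hg, hne, hgh⟩
  by_cases hprin : ∀ f ∈ I, f ∈ Ideal.span {A}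
  · refine ⟨a, a, A, 0, le_refl _, hAh, isHomogeneous_zero _ _ _, hAI, I.zero_mem, ?_⟩
    intro f hf
    obtain ⟨u, hu⟩ := Ideal.mem_span_singleton'.mp (hprin f hf)
    exact ⟨u, 0, by rw [← hu]; ring⟩
  push Not at hprin
  obtain ⟨f1, hf1, hf1ne⟩ := hprin
  have hex2 : ∃ n, ∃ B ∈ I, B ∉ Ideal.span {A} ∧ B.IsHomogeneous n := by
    by_contra hcon
    push Not at hcon
    apply hf1ne
    apply mem_of_components
    intro n
    by_contra hne
    exact hcon n (homogeneousComponent n f1) (hI f1 hf1 n) hne
      (homogeneousComponent_isHomogeneous n f1)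
  set b := Nat.find hex2 with hb
  obtain ⟨B, hBI, hBA, hBh⟩ := Nat.find_spec hex2
  have hbmin : ∀ m, m < b → ∀ g ∈ I, g.IsHomogeneous m → g ∈ Ideal.span {A} := by
    intro m hm g hg hgh
    by_contra hne
    exact Nat.find_min hex2 hm ⟨g, hg, hne, hgh⟩
  have hab : a ≤ b := by
    by_contra hlt
    push Not at hlt
    apply hBA
    rw [hamin b hlt B hBI hBh]
    exact Ideal.zero_mem _
  refine ⟨a, b, A, B, hab, hAh, hBh, hAI, hBI, ?_⟩
  -- main claim
  have main : ∀ f ∈ I, f ∈ Ideal.span {A, B} := by
    by_contra hcon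
    push Not at hcon
    obtain ⟨f2, hf2, hf2ne⟩ := hcon
    have hex3 : ∃ n, ∃ C' ∈ I, C' ∉ Ideal.span {A, B} ∧ C'.IsHomogeneous n := by
      by_contra hcon
      push Not at hcon
      apply hf2ne
      apply mem_of_components
      intro n
      by_contra hne
      exact hcon n (homogeneousComponent n f2) (hI f2 hf2 n) hne
        (homogeneousComponent_isHomogeneous n f2)
    set c := Nat.find hex3 with hc
    obtain ⟨D, hDI, hDA, hDh⟩ := Nat.find_spec hex3
    have hcmin : ∀ m, m < c → ∀ g ∈ I, g.IsHomogeneous m → g ∈ Ideal.span {A, B} := by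
      intro m hm g hg hgh
      by_contra hne
      exact Nat.find_min hex3 hm ⟨g, hg, hne, hgh⟩
    have hFI : F ∈ I := Ideal.subset_span (by simp)
    have hGI : G ∈ I := Ideal.subset_span (by simp)
    obtain ⟨uA, vA, hA2⟩ := Ideal.mem_span_pair.mp hAI
    obtain ⟨uB, vB, hB2⟩ := Ideal.mem_span_pair.mp hBI
    obtain ⟨uD, vD, hD2⟩ := Ideal.mem_span_pair.mp hDI
    obtain ⟨x, y, z, hxyz, e0, e1⟩ := three_dep ![coeff 0 uA, coeff 0 vA] ![coeff 0 uB, coeff 0 vB]
      ![coeff 0 uD, coeff 0 vD]
    simp only [Matrix.cons_val_zero, Matrix.cons_val_one] at e0 e1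
    set u := C x * uA + C y * uB + C z * uD with hu
    set v := C x * vA + C y * vB + C z * vD with hv
    have hu0 : coeff 0 u = 0 := by
      rw [hu, coeff_add, coeff_add, coeff_C_mul, coeff_C_mul, coeff_C_mul, e0]
    have hv0 : coeff 0 v = 0 := by
      rw [hv, coeff_add, coeff_add, coeff_C_mul, coeff_C_mul, coeff_C_mul, e1]
    have hsum : C x * A + C y * B + C z * D = u * F + v * G := by
      rw [hu, hv, ← hA2, ← hB2, ← hD2]
      ring
    have key : ∀ (n : ℕ) (J : Ideal (MvPolynomial τ ℂ)),
        (∀ m, m < n → ∀ g ∈ I, g.IsHomogeneous m → g ∈ J) →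
        homogeneousComponent n (C x * A + C y * B + C z * D) ∈ J := by
      intro n J hJ
      rw [hsum, map_add]
      exact J.add_mem (hc_mul_mem I J hI n hJ u F hu0 hFI) (hc_mul_mem I J hI n hJ v G hv0 hGI)
    have hself : ∀ (n m : ℕ) (s : ℂ) (P : MvPolynomial τ ℂ), P.IsHomogeneous m →
        homogeneousComponent n (C s * P) = if m = n then C s * P else 0 := by
      intro n m s P hP
      rw [homogeneousComponent_C_mul,
        homogeneousComponent_of_mem ((mem_homogeneousSubmodule _ _).mpr hP)]
      by_cases h : m = n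
      · rw [if_pos h.symm, if_pos h]
      · rw [if_neg (fun h' => h h'.symm), if_neg h, mul_zero]
    have hscale : ∀ (s : ℂ) (P : MvPolynomial τ ℂ) (J : Ideal (MvPolynomial τ ℂ)), s ≠ 0 →
        C s * P ∈ J → P ∈ J := by
      intro s P J hs hP
      have h2 := J.mul_mem_left (C s⁻¹) hP
      rwa [← mul_assoc, ← C_mul, inv_mul_cancel₀ hs, C_1, one_mul] at h2
    by_cases hz : z = 0
    · by_cases hy : y = 0
      · have hx : x ≠ 0 := fun hx => hxyz ⟨hx, hy, hz⟩
        have h1 := key a ⊥ (fun m hm g hg hgh => by rw [hamin m hm g hg hgh]; simp)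
        rw [hz, hy, C_0, zero_mul, zero_mul, add_zero, add_zero, hself a a x A hAh, if_pos rfl] at h1
        have h2 := hscale x A ⊥ hx h1
        exact hA0 (by simpa using h2)
      · have h1 := key b (Ideal.span {A}) hbmin
        rw [hz, C_0, zero_mul, add_zero, map_add, hself b a x A hAh, hself b b y B hBh,
          if_pos rfl] at h1
        apply hBA
        apply hscale y B _ hy
        have h2 : (if a = b then C x * A else 0) ∈ Ideal.span {A} := by
          split_ifs
          · exact Ideal.mul_mem_left _ _ (Ideal.mem_span_singleton_self A)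
          · exact Ideal.zero_mem _
        exact (Ideal.add_mem_iff_right _ h2).mp h1
    · have h1 := key c (Ideal.span {A, B}) hcmin
      rw [map_add, map_add, hself c a x A hAh, hself c b y B hBh, hself c c z D hDh,
        if_pos rfl] at h1
      apply hDA
      apply hscale z D _ hz
      have h2 : (if a = c then C x * A else 0) + (if b = c then C y * B else 0) ∈
          Ideal.span {A, B} := by
        apply Ideal.add_mem
        · split_ifs
          · exact Ideal.mul_mem_left _ _ (Ideal.subset_span (by simp))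
          · exact Ideal.zero_mem _
        · split_ifs
          · exact Ideal.mul_mem_left _ _ (Ideal.subset_span (by simp))
          · exact Ideal.zero_mem _
      exact (Ideal.add_mem_iff_right _ h2).mp h1
  intro f hf
  obtain ⟨u, v, huv⟩ := Ideal.mem_span_pair.mp (main f hf)
  exact ⟨u, v, huv.symm⟩

/-- evaluation of a homogeneous polynomial at a multiple. -/
lemma eval_smul_homog {f : MvPolynomial τ ℂ} {n : ℕ} (hf : f.IsHomogeneous n) (t : ℂ) (v : τ → ℂ) :
    eval (t • v) f = t ^ n * eval v f := by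
  rw [eval_eq, eval_eq, Finset.mul_sum]
  refine Finset.sum_congr rfl fun d hd => ?_
  have h1 : d.degree = n := by
    by_contra h
    exact (mem_support_iff.mp hd) (hf.coeff_eq_zero h)
  have h2 : ∏ i ∈ d.support, (t • v) i ^ d i = t ^ n * ∏ i ∈ d.support, v i ^ d i := by
    rw [← h1, Finsupp.degree_apply, ← Finset.prod_pow_eq_pow_sum, ← Finset.prod_mul_distrib]
    refine Finset.prod_congr rfl fun i _ => ?_
    rw [Pi.smul_apply, smul_eq_mul, mul_pow]
  rw [h2]
  ring

/-- a polynomial vanishing on a line through the origin has vanishing components there. -/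
lemma eval_hc_zero (f : MvPolynomial τ ℂ) (v : τ → ℂ) (h : ∀ t : ℂ, eval (t • v) f = 0) (n : ℕ) :
    eval v (homogeneousComponent n f) = 0 := by
  classical
  set p : Polynomial ℂ := ∑ k ∈ Finset.range (f.totalDegree + 1),
    Polynomial.C (eval v (homogeneousComponent k f)) * Polynomial.X ^ k with hp
  have hp0 : p = 0 := by
    apply Polynomial.funext
    intro t
    rw [Polynomial.eval_zero, ← h t]
    conv_rhs => rw [← sum_homogeneousComponent f]
    rw [hp, Polynomial.eval_finsetSum, map_sum]
    refine Finset.sum_congr rfl fun k _ => ?_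
    rw [eval_smul_homog (homogeneousComponent_isHomogeneous k f), Polynomial.eval_mul,
      Polynomial.eval_C, Polynomial.eval_pow, Polynomial.eval_X, mul_comm]
  by_cases hn : n ≤ f.totalDegree
  · have h1 := congrArg (fun q => Polynomial.coeff q n) hp0
    simp only [hp, Polynomial.finsetSum_coeff, Polynomial.coeff_C_mul_X_pow,
      Polynomial.coeff_zero] at h1
    rw [Finset.sum_ite_eq, if_pos (Finset.mem_range.mpr (by omega))] at h1
    exact h1
  · rw [homogeneousComponent_eq_zero _ _ (by omega), map_zero]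

end Pool.Agent.Geproci
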