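import Pool.Agent.Lib_MP_9828eb_ag.Step3

set_option autoImplicit false

open MvPolynomial

namespace Pool.Agent.Geproci

variable {K : Type*} [Field K] [Algebra ℂ K]
variable {σ : Fin 2 → K} {Z : Finset (Fin 2 → ℂ)} {a b : ℕ} {F G : MvPolynomial (Fin 2) K}

/-- The three possible conclusions. -/
def Concl (Z : Finset (Fin 2 → ℂ)) : Prop :=
  (∃ A B : Finset ℂ, ∀ z, z ∈ Z ↔ z 0 ∈ A ∧ z 1 ∈ B) ∨
  (∃ (i : Fin 2) (x y : ℂ), x ≠ y ∧ (∀ z ∈ Z, z i = x ∨ z i = y) ∧
    (fib Z i x).card = (fib Z i y).card) ∨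
  Z.card = 4

lemma CIData.gtop (H : CIData σ Z a b F G) (i : Fin 2) (h : X i ∣ top F) :
    cf i (top G) 0 b ≠ 0 := by
  intro h0
  have hG : X i ∣ top G := by
    apply X_dvd_of_cf
    intro y
    by_cases hy : y = b
    · rw [hy]; exact h0
    · rw [cf_top, if_neg]
      rw [H.Gdeg]
      omega
  exact (X_prime (R := K) (i := i)).not_isUnit (H.top_rel h hG)

variable [CharZero K] {δ : Fin 2 → Derivation ℂ K K}

lemma CIData.g1 (H : CIData σ Z a b F G) (hc : Coord δ σ) (hab : a ≤ b) (ha : 3 ≤ a) (i : Fin 2)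
    (c : K) (htop : top F = monomial (ex i a 0) c) :
    cf i G 0 b ≠ 0 ∧ cf i G 1 (b - 1) = 0 := by
  obtain ⟨α, hα⟩ := H.relG hc hab ha i a 0 c htop
  have hX : X i ∣ top F := by
    rw [htop, X_dvd_monomial]
    right
    rw [ex_self]
    omega
  have h0 := H.gtop i hX
  have hα0 : α = 0 := by
    have h1 := hα 0 b (Or.inl (by omega))
    have h2 := (mul_eq_zero.mp h1).resolve_right h0
    push_cast at h2
    linear_combination -h2
  constructor
  · rw [cf_top, if_pos (by rw [H.Gdeg]; omega)] at h0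
    exact h0
  · have h1 := hα 1 (b - 1) (Or.inl (by omega))
    rw [hα0] at h1
    have h2 : ((1 : ℕ) : K) - 0 ≠ 0 := by simp
    have h3 := (mul_eq_zero.mp h1).resolve_left h2
    rw [cf_top, if_pos (by rw [H.Gdeg]; omega)] at h3
    exact h3

/-- case `a < b`. -/
theorem case_lt (hc : Coord δ σ) (H : CIData σ Z a b F G) (hab : a < b) (ha : 2 ≤ a)
    (hnd : ∀ c : MvPolynomial (Fin 2) ℂ, c ≠ 0 → c.degreeOf 0 ≤ 1 → c.degreeOf 1 ≤ 1 →
      ∃ z ∈ Z, eval z c ≠ 0) : Concl Z := by
  classical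
  obtain ⟨u0, hu0, e0⟩ := H.invF hc hab ha 0
  obtain ⟨u1, hu1, e1⟩ := H.invF hc hab ha 1
  obtain ⟨p, q, hpq, hp, hq, hne, htc⟩ := fixed_two δ F u0 u1 H.F0 hu0 hu1 e0 e1
  rw [H.Fdeg] at hpq htc
  have htop : top F = monomial (ex 0 p q) (cf 0 F p q) := by
    apply cf_ext 0
    intro x y
    rw [cf_top, cf_monomial, H.Fdeg]
    by_cases hxy : x + y = a
    · rw [if_pos hxy]
      by_cases hx : x = p
      · have hy : y = q := by omega
        rw [hx, hy, if_pos ⟨rfl, rfl⟩]
      · rw [htc x y hxy hx, if_neg (fun h => hx h.1.symm)]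
    · rw [if_neg hxy, if_neg]
      rintro ⟨rfl, rfl⟩
      exact hxy hpq
  -- the case of a (1,1) curve is excluded
  have h11 : ¬ (p ≤ 1 ∧ q ≤ 1) := by
    rintro ⟨hp1, hq1⟩
    obtain ⟨c, hc0, hc1, hc2, hc3⟩ := descend_proj (p := 1) (q := 1) σ F H.F0
      (hp.trans hp1) (hq.trans hq1)
    obtain ⟨z, hz, hz2⟩ := hnd c hc0 hc1 hc2
    exact hz2 (hc3 z (sub_ne hc z) (H.FZ z hz))
  -- one-variable cases
  have hone : ∀ i : Fin 2, F.degreeOf (i + 1) = 0 → top F = monomial (ex i a 0) (cf 0 F p q) →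
      Concl Z := by
    intro i hdeg htopi
    by_cases ha3 : 3 ≤ a
    · obtain ⟨hg0, hg1⟩ := H.g1 hc hab.le ha3 i _ htopi
      left
      exact H.grid hc hab.le (by omega) (by omega) i hdeg hg0 hg1
    · have ha2 : a = 2 := by omega
      have hA := card_image_le i H.F0 hdeg H.FZ
      rw [H.Fdeg] at hA
      obtain ⟨hcard, hfib⟩ := H.fib_card hab.le (by omega) i hA
      rw [ha2] at hcard
      obtain ⟨x, y, hxy, hAe⟩ := Finset.card_eq_two.mp hcard
      right; left
      refine ⟨i, x, y, hxy, ?_, ?_⟩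
      · intro z hz
        have h1 : z i ∈ Z.image (fun z => z i) := Finset.mem_image_of_mem _ hz
        rw [hAe] at h1
        simpa using h1
      · rw [hfib x (by rw [hAe]; simp), hfib y (by rw [hAe]; simp)]
  by_cases hq0 : q = 0
  · apply hone 0
    · rw [hq0] at hq
      simpa using hq
    · rw [htop]
      have : p = a := by omega
      rw [this, hq0]
  by_cases hp0 : p = 0
  · apply hone 1
    · rw [hp0] at hp
      simpa using hp
    · rw [htop]
      have : q = a := by omega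
      rw [this, hp0]
      have h2 := ex_swap 0 a 0
      rw [zero_add] at h2
      rw [h2]
  -- both positive
  exfalso
  have ha3 : 3 ≤ a := by
    by_contra h
    exact h11 ⟨by omega, by omega⟩
  obtain ⟨α, hα⟩ := H.relG hc hab.le ha3 0 p q _ htop
  have hX0 : X 0 ∣ top F := by
    rw [htop, X_dvd_monomial]
    right
    rw [ex_self]
    exact hp0
  have hX1 : X 1 ∣ top F := by
    rw [htop, X_dvd_monomial]
    right
    have := ex_other 0 p q
    rw [zero_add] at this
    rw [this]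
    exact hq0
  have h0 := H.gtop 0 hX0
  have h1 := H.gtop 1 hX1
  rw [show (1 : Fin 2) = 0 + 1 from rfl, cf_swap] at h1
  have e2 := (mul_eq_zero.mp (hα 0 b (Or.inl (by omega)))).resolve_right h0
  have e3 := (mul_eq_zero.mp (hα b 0 (Or.inr (by omega)))).resolve_right h1
  have e4 : (b : K) = 0 := by
    push_cast at e2
    linear_combination e3 - e2
  have e5 : b = 0 := by exact_mod_cast e4
  omega

/-- For `a = b`, relation between the top parts. -/
lemma CIData.relF (H : CIData σ Z a a F G) (hc : Coord δ σ) (ha : 3 ≤ a) (i : Fin 2) :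
    ∃ α β : K, ∀ x y : ℕ, (x : K) * cf i (top F) x y =
      α * cf i (top F) x y + β * cf i (top G) x y := by
  obtain ⟨r, w, hr, hw, hE⟩ := H.symm.eqG hc le_rfl i
  obtain ⟨r', w', hr', hw', hE'⟩ := H.symm.eqG hc le_rfl (i + 1)
  have hEu := euler i H.top_homF
  have h2a : a + 1 - a = 1 := by omega
  rw [h2a] at hr hr'
  set M := X (i + 1) * r + X i * r' with hM
  set Λ := C (a : K) * (X i * X (i + 1)) - X (i + 1) * w - X i * w' with hΛ
  have hrel : Λ * top F = M * top G := by
    rw [hE, hE'] at hEu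
    rw [hΛ, hM]
    linear_combination -hEu
  have hdvd : top F ∣ M := by
    apply H.top_rel.dvd_of_dvd_mul_right
    exact ⟨Λ, by rw [← hrel]; ring⟩
  have hMdeg : M.totalDegree ≤ 2 := by
    rw [hM]
    refine (totalDegree_add _ _).trans (max_le ?_ ?_)
    · refine (totalDegree_mul _ _).trans ?_
      rw [totalDegree_X]
      omega
    · refine (totalDegree_mul _ _).trans ?_
      rw [totalDegree_X]
      omega
  have hM0 : M = 0 := by
    apply eq_zero_of_dvd_of_lt hdvd
    rw [H.top_degF]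
    omega
  have hΛ0 : Λ = 0 := by
    rw [hM0, zero_mul] at hrel
    exact (mul_eq_zero.mp hrel).resolve_right (top_ne_zero H.F0)
  have hr0 : ∀ y, cf i r 0 y = 0 := by
    intro y
    have h1 := congrArg (fun g => cf i g 0 (y + 1)) hM0
    simpa [hM] using h1
  have hw0 : ∀ y, cf i w 0 y = 0 := by
    intro y
    have h1 := congrArg (fun g => cf i g 0 (y + 1)) hΛ0
    simp only [hΛ, cf_sub, cf_C_mul, cf_X_mul_zero, cf_X'_mul_succ, cf_zero, mul_zero] at h1
    linear_combination -h1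
  have hwlin := linear_form i w hw
  have hrlin := linear_form i r hr
  rw [hw0 1, hw0 0] at hwlin
  rw [hr0 1, hr0 0] at hrlin
  refine ⟨cf i w 1 0, cf i r 1 0, ?_⟩
  intro x y
  have h1 := congrArg (fun g => cf i g (x + 1) y) hE
  have h2 : w * top F = C (cf i w 1 0) * (X i * top F) := by
    conv_lhs => rw [hwlin]
    simp only [C_0]
    ring
  have h3 : r * top G = C (cf i r 1 0) * (X i * top G) := by
    conv_lhs => rw [hrlin]
    simp only [C_0]
    ring
  simp only [cf_add, cf_X_sq_mul_pderiv_succ, h2, h3, cf_C_mul, cf_X_mul_succ] at h1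
  linear_combination h1

/-- normalised generators for `a = b`. -/
lemma CIData.normalized (H : CIData σ Z a a F G) (hc : Coord δ σ) (ha : 2 ≤ a) (i : Fin 2)
    (hf1 : cf i F a 0 = 1) (hf : ∀ x y, x + y = a → x ≠ a → cf i F x y = 0)
    (hg1 : cf i G 0 a = 1) (hg : ∀ x y, x + y = a → x ≠ 0 → cf i G x y = 0) :
    Dop δ (i + 1) F = 0 := by
  have hF2 : ∀ x y, a < x + y → cf i F x y = 0 := (totalDegree_le_iff i).mp H.Fdeg.le
  have hG2 : ∀ x y, a < x + y → cf i G x y = 0 := (totalDegree_le_iff i).mp H.Gdeg.le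
  obtain ⟨u, v, huv, hu, hv⟩ := H.rep (Dop δ i F)
    (fun z hz => eval_Dop_pr hc i F z (H.FZ z hz)) (a + 1) (totalDegree_Dop δ i H.Fdeg.le)
  have hu' : u.totalDegree ≤ 1 := deg_mul_le_of H.F0 hu (by rw [H.Fdeg]; omega)
  have hv' : v.totalDegree ≤ 1 := deg_mul_le_of H.G0 hv (by rw [H.Gdeg]; omega)
  have hulin := linear_form i u hu'
  have hvlin := linear_form i v hv'
  set α := cf i u 1 0 with hα
  set β := cf i u 0 1 with hβ
  set u0 := cf i u 0 0 with hu0
  set γ := cf i v 1 0 with hγ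
  set ε := cf i v 0 1 with hε
  set v0 := cf i v 0 0 with hv0
  have hexp : u * F + v * G = C α * (X i * F) + C β * (X (i + 1) * F) + C u0 * F +
      (C γ * (X i * G) + C ε * (X (i + 1) * G) + C v0 * G) := by
    rw [hulin, hvlin]
    ring
  rw [hexp] at huv
  have R11 : ∀ x y, δ i (cf i F (x + 1) (y + 1)) + (x : K) * cf i F x (y + 1) =
      α * cf i F x (y + 1) + β * cf i F (x + 1) y + u0 * cf i F (x + 1) (y + 1) +
      (γ * cf i G x (y + 1) + ε * cf i G (x + 1) y + v0 * cf i G (x + 1) (y + 1)) := by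
    intro x y
    have h1 := congrArg (fun g => cf i g (x + 1) (y + 1)) huv
    simpa only [cf_add, cf_C_mul, cf_X_mul_succ, cf_X'_mul_succ, cf_Dop_succ] using h1
  have R10 : ∀ x, δ i (cf i F (x + 1) 0) + (x : K) * cf i F x 0 =
      α * cf i F x 0 + u0 * cf i F (x + 1) 0 + (γ * cf i G x 0 + v0 * cf i G (x + 1) 0) := by
    intro x
    have h1 := congrArg (fun g => cf i g (x + 1) 0) huv
    simpa only [cf_add, cf_C_mul, cf_X_mul_succ, cf_X'_mul_zero, cf_Dop_succ, mul_zero,
      add_zero] using h1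
  have R01 : ∀ y, δ i (cf i F 0 (y + 1)) =
      β * cf i F 0 y + u0 * cf i F 0 (y + 1) + (ε * cf i G 0 y + v0 * cf i G 0 (y + 1)) := by
    intro y
    have h1 := congrArg (fun g => cf i g 0 (y + 1)) huv
    simpa only [cf_add, cf_C_mul, cf_X_mul_zero, cf_X'_mul_succ, cf_Dop_zero, mul_zero,
      zero_add] using h1
  obtain ⟨m, hm⟩ : ∃ m, a = m + 1 := ⟨a - 1, by omega⟩
  have hαa : α = a := by
    have h1 := R10 a
    rw [hF2 (a + 1) 0 (by omega), hf1, hg a 0 (by omega) (by omega), hG2 (a + 1) 0 (by omega),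
      map_zero] at h1
    linear_combination -h1
  have hε0 : ε = 0 := by
    have h1 := R01 a
    rw [hF2 0 (a + 1) (by omega), hf 0 a (by omega) (by omega), hg1, hG2 0 (a + 1) (by omega),
      map_zero] at h1
    linear_combination -h1
  have hγ0 : γ = 0 := by
    have h1 := R11 0 m
    rw [hF2 (0 + 1) (m + 1) (by omega), hf 0 (m + 1) (by omega) (by omega),
      hf (0 + 1) m (by omega) (by omega), hG2 (0 + 1) (m + 1) (by omega),
      hg (0 + 1) m (by omega) (by omega), ← hm, hg1, map_zero] at h1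
    linear_combination -h1
  have hβ0 : β = 0 := by
    have h1 := R11 m 0
    rw [← hm, zero_add, hF2 a 1 (by omega), hf m 1 (by omega) (by omega),
      hf1, hG2 a 1 (by omega), hg m 1 (by omega) (by omega),
      hg a 0 (by omega) (by omega), map_zero] at h1
    linear_combination -h1
  have hsub : ∀ x y, x + (y + 1) + 1 = a → cf i F x (y + 1) = 0 := by
    intro x y hxy
    have h1 := R11 x y
    rw [hf (x + 1) (y + 1) (by omega) (by omega), hg (x + 1) (y + 1) (by omega) (by omega),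
      hαa, hβ0, hγ0, hε0, map_zero] at h1
    have h2 : ((x : K) - a) * cf i F x (y + 1) = 0 := by linear_combination h1
    refine (mul_eq_zero.mp h2).resolve_left ?_
    rw [sub_eq_zero]
    intro h3
    have : x = a := by exact_mod_cast h3
    omega
  -- second operator
  have hD : (Dop δ (i + 1) F).totalDegree ≤ a := by
    rw [totalDegree_le_iff (i + 1)]
    intro y x hxy
    rcases y with _ | y
    · rw [cf_Dop_zero, cf_swap, hF2 x 0 (by omega), map_zero]
    · rw [cf_Dop_succ, cf_swap, cf_swap, hF2 x (y + 1) (by omega), map_zero]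
      rcases Nat.lt_or_ge a (x + y) with h | h
      · rw [hF2 x y h]; ring
      · rcases Nat.eq_zero_or_pos y with h0 | h0
        · rw [h0]; push_cast; ring
        · rw [hf x y (by omega) (by omega)]; ring
  obtain ⟨u', v', huv', hu2, hv2⟩ := H.rep (Dop δ (i + 1) F)
    (fun z hz => eval_Dop_pr hc (i + 1) F z (H.FZ z hz)) a hD
  have hu3 : u'.totalDegree = 0 := by
    have := deg_mul_le_of H.F0 hu2 (e := 0) (by rw [H.Fdeg]; omega)
    omega
  have hv3 : v'.totalDegree = 0 := by
    have := deg_mul_le_of H.G0 hv2 (e := 0) (by rw [H.Gdeg]; omega)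
    omega
  rw [totalDegree_eq_zero_iff_eq_C] at hu3 hv3
  set c := coeff 0 u' with hcdef
  set e := coeff 0 v' with hedef
  rw [hu3, hv3] at huv'
  have he0 : e = 0 := by
    have h1 := congrArg (fun g => cf (i + 1) g (m + 1) 0) huv'
    simp only [cf_Dop_succ, cf_add, cf_C_mul] at h1
    rw [cf_swap, cf_swap, cf_swap, ← hm, hf 0 a (by omega) (by omega), hg1, map_zero] at h1
    obtain ⟨n, hn⟩ : ∃ n, m = n + 1 := ⟨m - 1, by omega⟩
    rw [hn, hsub 0 n (by omega)] at h1
    linear_combination -h1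
  have hc0 : c = 0 := by
    have h1 := congrArg (fun g => cf (i + 1) g 0 a) huv'
    simp only [cf_Dop_zero, cf_add, cf_C_mul] at h1
    rw [cf_swap, cf_swap, hf1, he0, Derivation.map_one_eq_zero] at h1
    linear_combination -h1
  rw [huv', hc0, he0, C_0]
  ring

/-- case `a = b ≥ 3`. -/
theorem case_eq (hc : Coord δ σ) (H : CIData σ Z a a F G) (ha : 3 ≤ a) : Concl Z := by
  classical
  obtain ⟨α, β, h1⟩ := H.relF hc ha 0
  obtain ⟨α', β', h2⟩ := H.symm.relF hc ha 0
  set f0 := cf 0 (top F) 0 a with hf0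
  set g0 := cf 0 (top G) 0 a with hg0
  set fa := cf 0 (top F) a 0 with hfa
  set ga := cf 0 (top G) a 0 with hga
  have haK : (a : K) ≠ 0 := by
    have : a ≠ 0 := by omega
    exact_mod_cast this
  -- nonvanishing
  have hn0 : ¬ (f0 = 0 ∧ g0 = 0) := by
    rintro ⟨e1, e2⟩
    have hF : X 0 ∣ top F := by
      apply X_dvd_of_cf
      intro y
      by_cases hy : y = a
      · rw [hy]; exact e1
      · rw [cf_top, if_neg]
        rw [H.Fdeg]; omega
    exact (H.gtop 0 hF) e2
  have hna : ¬ (fa = 0 ∧ ga = 0) := by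
    rintro ⟨e1, e2⟩
    have hF : X 1 ∣ top F := by
      apply X_dvd_of_cf
      intro y
      rw [show (1 : Fin 2) = 0 + 1 from rfl, cf_swap]
      by_cases hy : y = a
      · rw [hy]; exact e1
      · rw [cf_top, if_neg]
        rw [H.Fdeg]; omega
    have h3 := H.gtop 1 hF
    rw [show (1 : Fin 2) = 0 + 1 from rfl, cf_swap] at h3
    exact h3 e2
  have r1 := h1 0 a
  have r2 := h2 0 a
  have r3 := h1 a 0
  have r4 := h2 a 0
  rw [← hf0, ← hg0] at r1 r2
  rw [← hfa, ← hga] at r3 r4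
  push_cast at r1 r2
  have hchi : ∀ (x : K) (f g : K), ¬ (f = 0 ∧ g = 0) → x * f = α * f + β * g →
      x * g = α' * g + β' * f → (α - x) * (α' - x) - β * β' = 0 := by
    intro x f g hne e1 e2
    by_contra hcon
    apply hne
    constructor
    · have : ((α - x) * (α' - x) - β * β') * f = 0 := by
        linear_combination (-(α' - x)) * e1 + β * e2
      exact (mul_eq_zero.mp this).resolve_left hcon
    · have : ((α - x) * (α' - x) - β * β') * g = 0 := by
        linear_combination (-(α - x)) * e2 + β' * e1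
      exact (mul_eq_zero.mp this).resolve_left hcon
  have hc1 := hchi 0 f0 g0 hn0 (by linear_combination r1) (by linear_combination r2)
  have hc2 := hchi a fa ga hna r3 r4
  have hsum : α + α' = a := by
    have : (a : K) * (a - (α + α')) = 0 := by linear_combination hc2 - hc1
    have := (mul_eq_zero.mp this).resolve_left haK
    linear_combination -this
  have hmid : ∀ x y, x + y = a → x ≠ 0 → x ≠ a → cf 0 (top F) x y = 0 ∧ cf 0 (top G) x y = 0 := by
    intro x y hxy hx0 hxa
    by_contra hne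
    have h3 := hchi x _ _ hne (h1 x y) (h2 x y)
    have h4 : (x : K) * (x - a) = 0 := by linear_combination h3 - hc1 + (x : K) * hsum
    rcases mul_eq_zero.mp h4 with h5 | h5
    · exact hx0 (by exact_mod_cast h5)
    · exact hxa (by
        have : (x : K) = a := sub_eq_zero.mp h5
        exact_mod_cast this)
  set Δ := g0 * fa - f0 * ga with hΔ
  have hΔ0 : Δ ≠ 0 := by
    intro hz
    have hz' : g0 * fa = f0 * ga := by linear_combination hz
    have p1 : (a : K) * (fa * f0) = 0 := by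
      linear_combination f0 * r3 - fa * r1 - β * hz'
    have p2 : (a : K) * (ga * g0) = 0 := by
      linear_combination g0 * r4 - ga * r2 + β' * hz'
    have p3 : (a : K) * (fa * g0) = 0 := by
      linear_combination g0 * r3 - ga * r1 + α * hz'
    have p4 : (a : K) * (ga * f0) = 0 := by
      linear_combination f0 * r4 - fa * r2 - α' * hz'
    have q1 := (mul_eq_zero.mp p1).resolve_left haK
    have q2 := (mul_eq_zero.mp p2).resolve_left haK
    have q3 := (mul_eq_zero.mp p3).resolve_left haK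
    have q4 := (mul_eq_zero.mp p4).resolve_left haK
    by_cases h : f0 = 0
    · have hg : g0 ≠ 0 := fun h' => hn0 ⟨h, h'⟩
      exact hna ⟨(mul_eq_zero.mp q3).resolve_right hg, (mul_eq_zero.mp q2).resolve_right hg⟩
    · exact hna ⟨(mul_eq_zero.mp q1).resolve_right h, (mul_eq_zero.mp q4).resolve_right h⟩
  set P := C (Δ⁻¹) * (C g0 * F - C f0 * G) with hP
  set Q := C (Δ⁻¹) * (C fa * G - C ga * F) with hQ
  have hFcf : ∀ x y, x + y = a → cf 0 F x y = cf 0 (top F) x y := by
    intro x y hxy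
    rw [cf_top, if_pos (by rw [H.Fdeg]; exact hxy)]
  have hGcf : ∀ x y, x + y = a → cf 0 G x y = cf 0 (top G) x y := by
    intro x y hxy
    rw [cf_top, if_pos (by rw [H.Gdeg]; exact hxy)]
  have hPcf : ∀ x y, x + y = a →
      cf 0 P x y = Δ⁻¹ * (g0 * cf 0 (top F) x y - f0 * cf 0 (top G) x y) := by
    intro x y hxy
    rw [hP, cf_C_mul, cf_sub, cf_C_mul, cf_C_mul, hFcf x y hxy, hGcf x y hxy]
  have hQcf : ∀ x y, x + y = a →
      cf 0 Q x y = Δ⁻¹ * (fa * cf 0 (top G) x y - ga * cf 0 (top F) x y) := by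
    intro x y hxy
    rw [hQ, cf_C_mul, cf_sub, cf_C_mul, cf_C_mul, hFcf x y hxy, hGcf x y hxy]
  have hP1 : cf 0 P a 0 = 1 := by
    rw [hPcf a 0 (by omega), ← hfa, ← hga, ← hΔ, inv_mul_cancel₀ hΔ0]
  have hP0 : ∀ x y, x + y = a → x ≠ a → cf 0 P x y = 0 := by
    intro x y hxy hx
    rw [hPcf x y hxy]
    by_cases hx0 : x = 0
    · have hy : y = a := by omega
      rw [hx0, hy, ← hf0, ← hg0]; ring
    · rw [(hmid x y hxy hx0 hx).1, (hmid x y hxy hx0 hx).2]; ring
  have hQ1 : cf 0 Q 0 a = 1 := by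
    rw [hQcf 0 a (by omega), ← hf0, ← hg0]
    have : fa * g0 - ga * f0 = Δ := by rw [hΔ]; ring
    rw [this, inv_mul_cancel₀ hΔ0]
  have hQ0 : ∀ x y, x + y = a → x ≠ 0 → cf 0 Q x y = 0 := by
    intro x y hxy hx
    rw [hQcf x y hxy]
    by_cases hxa : x = a
    · have hy : y = 0 := by omega
      rw [hxa, hy, ← hfa, ← hga]; ring
    · rw [(hmid x y hxy hx hxa).1, (hmid x y hxy hx hxa).2]; ring
  have hdeg : ∀ R : MvPolynomial (Fin 2) K, R.totalDegree ≤ a → (∃ x y, x + y = a ∧ cf 0 R x y = 1) →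
      R ≠ 0 ∧ R.totalDegree = a := by
    rintro R hR ⟨x, y, hxy, hcf⟩
    constructor
    · rintro rfl
      rw [cf_zero] at hcf
      exact zero_ne_one hcf
    · by_contra hne
      have := cf_eq_zero_of_lt 0 (le_refl R.totalDegree) (a := x) (b := y) (by omega)
      rw [this] at hcf
      exact zero_ne_one hcf
  have hlin : ∀ s t r : K, (C r * (C s * F - C t * G)).totalDegree ≤ a := by
    intro s t r
    refine (totalDegree_mul _ _).trans ?_
    rw [totalDegree_C, zero_add]
    refine (totalDegree_sub _ _).trans (max_le ?_ ?_)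
    · refine (totalDegree_mul _ _).trans ?_
      rw [totalDegree_C, H.Fdeg]; omega
    · refine (totalDegree_mul _ _).trans ?_
      rw [totalDegree_C, H.Gdeg]; omega
  have hlin' : ∀ s t r : K, (C r * (C s * G - C t * F)).totalDegree ≤ a := by
    intro s t r
    refine (totalDegree_mul _ _).trans ?_
    rw [totalDegree_C, zero_add]
    refine (totalDegree_sub _ _).trans (max_le ?_ ?_)
    · refine (totalDegree_mul _ _).trans ?_
      rw [totalDegree_C, H.Gdeg]; omega
    · refine (totalDegree_mul _ _).trans ?_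
      rw [totalDegree_C, H.Fdeg]; omega
  obtain ⟨hPne, hPdeg⟩ := hdeg P (hlin _ _ _) ⟨a, 0, by omega, hP1⟩
  obtain ⟨hQne, hQdeg⟩ := hdeg Q (hlin' _ _ _) ⟨0, a, by omega, hQ1⟩
  have hFPQ : F = C fa * P + C f0 * Q := by
    have e1 : C fa * P + C f0 * Q = C (Δ⁻¹ * Δ) * F := by
      rw [hP, hQ, hΔ]
      simp only [C_mul, C_sub]
      ring
    rw [e1, inv_mul_cancel₀ hΔ0, C_1, one_mul]
  have hGPQ : G = C ga * P + C g0 * Q := by
    have e1 : C ga * P + C g0 * Q = C (Δ⁻¹ * Δ) * G := by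
      rw [hP, hQ, hΔ]
      simp only [C_mul, C_sub]
      ring
    rw [e1, inv_mul_cancel₀ hΔ0, C_1, one_mul]
  have hPQ : CIData σ Z a a P Q := by
    refine ⟨hPne, hQne, hPdeg, hQdeg, ?_, ?_, ?_, H.card⟩
    · intro d hd1 hd2
      apply H.rel
      · rw [hFPQ]
        exact dvd_add (dvd_mul_of_dvd_right hd1 _) (dvd_mul_of_dvd_right hd2 _)
      · rw [hGPQ]
        exact dvd_add (dvd_mul_of_dvd_right hd1 _) (dvd_mul_of_dvd_right hd2 _)
    · intro z hz
      simp [hP, H.FZ z hz, H.GZ z hz]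
    · intro z hz
      simp [hQ, H.FZ z hz, H.GZ z hz]
  have hD1 : Dop δ 1 P = 0 := hPQ.normalized hc (by omega) 0 hP1 hP0 hQ1 hQ0
  have hD0 : Dop δ 0 Q = 0 := by
    apply hPQ.symm.normalized hc (by omega) 1
    · rw [show (1 : Fin 2) = 0 + 1 from rfl, cf_swap]; exact hQ1
    · intro x y hxy hx
      rw [show (1 : Fin 2) = 0 + 1 from rfl, cf_swap]
      exact hQ0 y x (by omega) (by omega)
    · rw [show (1 : Fin 2) = 0 + 1 from rfl, cf_swap]; exact hP1
    · intro x y hxy hx
      rw [show (1 : Fin 2) = 0 + 1 from rfl, cf_swap]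
      exact hP0 y x (by omega) (by omega)
  have hdP := fixed_zero δ 1 P hPne hD1
  have hdQ := fixed_zero δ 0 Q hQne hD0
  have hA := card_image_le (σ := σ) 0 hPne hdP hPQ.FZ
  have hB := card_image_le (σ := σ) 1 hQne hdQ hPQ.GZ
  rw [hPdeg] at hA
  rw [hQdeg] at hB
  left
  refine ⟨Z.image (fun z => z 0), Z.image (fun z => z 1), ?_⟩
  intro z
  constructor
  · intro hz
    exact ⟨Finset.mem_image_of_mem _ hz, Finset.mem_image_of_mem _ hz⟩
  · rintro ⟨hz0, hz1⟩
    -- counting
    let φ : (Fin 2 → ℂ) → ℂ × ℂ := fun z => (z 0, z 1)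
    have hφ : Function.Injective φ := by
      intro x y hxy
      simp only [φ, Prod.mk.injEq] at hxy
      funext j
      fin_cases j
      · exact hxy.1
      · exact hxy.2
    have hsub : Z.image φ ⊆ (Z.image (fun z => z 0)) ×ˢ (Z.image (fun z => z 1)) := by
      intro w hw
      obtain ⟨y, hy, rfl⟩ := Finset.mem_image.mp hw
      rw [Finset.mem_product]
      exact ⟨Finset.mem_image_of_mem _ hy, Finset.mem_image_of_mem _ hy⟩
    have heq : Z.image φ = (Z.image (fun z => z 0)) ×ˢ (Z.image (fun z => z 1)) := by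
      apply Finset.eq_of_subset_of_card_le hsub
      rw [Finset.card_product, Finset.card_image_of_injective Z hφ, H.card]
      exact Nat.mul_le_mul hA hB
    have hmem : φ z ∈ Z.image φ := by
      rw [heq, Finset.mem_product]
      exact ⟨hz0, hz1⟩
    obtain ⟨y, hy, hyz⟩ := Finset.mem_image.mp hmem
    rw [← hφ hyz]; exact hy

/-- The main theorem at the generic point. -/
theorem core (hc : Coord δ σ) (Z : Finset (Fin 2 → ℂ)) (a b : ℕ) (ha : 1 ≤ a)
    (hab : a ≤ b) (hN : a * b ≤ Z.card)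
    (hF : ∃ F : MvPolynomial (Fin 2) K, F ≠ 0 ∧ F.totalDegree ≤ a ∧
      ∀ z ∈ Z, eval (pr σ z) F = 0)
    (hG : ∀ F : MvPolynomial (Fin 2) K, F ≠ 0 → F.totalDegree = a →
      (∀ z ∈ Z, eval (pr σ z) F = 0) → ∃ G : MvPolynomial (Fin 2) K, G.totalDegree ≤ b ∧
        (∀ z ∈ Z, eval (pr σ z) G = 0) ∧ ¬ F ∣ G)
    (hbi : BiBound Z b)
    (hnd : ∀ c : MvPolynomial (Fin 2) ℂ, c ≠ 0 → c.degreeOf 0 ≤ 1 → c.degreeOf 1 ≤ 1 →
      ∃ z ∈ Z, eval z c ≠ 0) : Concl Z := by
  obtain ⟨F, G, hF0, hG0, hFd, hGd, hrel, hFZ, hGZ, hcard⟩ := step1 hc Z a b ha hab hN hF hG hbi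
  have H : CIData σ Z a b F G := ⟨hF0, hG0, hFd, hGd, hrel, hFZ, hGZ, hcard⟩
  -- a = 1 is impossible
  have ha2 : 2 ≤ a := by
    by_contra hlt
    have ha1 : a = 1 := by omega
    have hd := H.Fdeg
    rw [ha1] at hd
    obtain ⟨c, hc0, hc1, hc2, hc3⟩ := descend_proj (p := 1) (q := 1) σ F H.F0
      ((degreeOf_le_totalDegree F 0).trans hd.le) ((degreeOf_le_totalDegree F 1).trans hd.le)
    obtain ⟨z, hz, hz2⟩ := hnd c hc0 hc1 hc2
    exact hz2 (hc3 z (sub_ne hc z) (H.FZ z hz))
  rcases Nat.lt_or_ge a b with hlt | hge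
  · exact case_lt hc H hlt ha2 hnd
  · have hab' : b = a := le_antisymm hge hab
    subst hab'
    by_cases ha3 : 3 ≤ b
    · exact case_eq hc H ha3
    · right; right
      have : b = 2 := by omega
      rw [H.card, this]

end Pool.Agent.Geproci
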