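import Pool.Agent.Lib_MP_9828eb_ag.Star
import Pool.Agent.Lib_MP_9828eb_ag.Homog
import Pool.Agent.Lib_MP_9828eb_ag.Step4

set_option autoImplicit false

open MvPolynomial

namespace Pool.Agent.Geproci

/-- centre of projection -/
noncomputable def PP (π : Fin 3 → ℂ) : Fin 4 → ℂ := ![1, π 0, π 1, π 0 * π 1 + π 2]

/-- point of the standard quadric -/
noncomputable def zz (z : Fin 2 → ℂ) : Fin 4 → ℂ := ![1, z 0, z 1, z 0 * z 1]

/-- third projective coordinate of the projection of `z` -/
noncomputable def ww (π : Fin 3 → ℂ) (z : Fin 2 → ℂ) : ℂ := (z 0 - π 0) * (z 1 - π 1) - π 2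

/-- projected point -/
noncomputable def qq (π : Fin 3 → ℂ) (z : Fin 2 → ℂ) : Fin 2 → ℂ :=
  ![(z 1 - π 1) / ww π z, (z 0 - π 0) / ww π z]

noncomputable def L1 (π : Fin 3 → ℂ) : MvPolynomial (Fin 4) ℂ := X 1 - C (π 0) * X 0
noncomputable def L2 (π : Fin 3 → ℂ) : MvPolynomial (Fin 4) ℂ := X 2 - C (π 1) * X 0
noncomputable def L3 (π : Fin 3 → ℂ) : MvPolynomial (Fin 4) ℂ :=
  X 3 - C (π 0) * X 2 - C (π 1) * X 1 + C (π 0 * π 1 - π 2) * X 0

lemma eval_L1 (π : Fin 3 → ℂ) (z : Fin 2 → ℂ) (α β : ℂ) :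
    eval (α • PP π + β • zz z) (L1 π) = β * (z 0 - π 0) := by
  simp [L1, PP, zz]
  ring

lemma eval_L2 (π : Fin 3 → ℂ) (z : Fin 2 → ℂ) (α β : ℂ) :
    eval (α • PP π + β • zz z) (L2 π) = β * (z 1 - π 1) := by
  simp [L2, PP, zz]
  ring

lemma eval_L3 (π : Fin 3 → ℂ) (z : Fin 2 → ℂ) (α β : ℂ) :
    eval (α • PP π + β • zz z) (L3 π) = β * ww π z := by
  simp [L3, PP, zz, ww]
  ring

lemma hom_L1 (π : Fin 3 → ℂ) : (L1 π).IsHomogeneous 1 := by
  refine (isHomogeneous_X ℂ 1).sub ?_
  have := (isHomogeneous_X ℂ (0 : Fin 4)).C_mul (π 0)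
  exact this

lemma hom_L2 (π : Fin 3 → ℂ) : (L2 π).IsHomogeneous 1 := by
  refine (isHomogeneous_X ℂ 2).sub ?_
  exact (isHomogeneous_X ℂ (0 : Fin 4)).C_mul (π 1)

lemma hom_L3 (π : Fin 3 → ℂ) : (L3 π).IsHomogeneous 1 := by
  refine (((isHomogeneous_X ℂ 3).sub ?_).sub ?_).add ?_
  · exact (isHomogeneous_X ℂ (2 : Fin 4)).C_mul (π 0)
  · exact (isHomogeneous_X ℂ (1 : Fin 4)).C_mul (π 1)
  · exact (isHomogeneous_X ℂ (0 : Fin 4)).C_mul _

/-- homogenisation -/
noncomputable def hmg (π : Fin 3 → ℂ) (d : ℕ) (g : MvPolynomial (Fin 2) ℂ) :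
    MvPolynomial (Fin 4) ℂ :=
  ∑ m ∈ g.support, C (coeff m g) * (L2 π ^ m 0 * L1 π ^ m 1 * L3 π ^ (d - (m 0 + m 1)))

lemma supp_le {g : MvPolynomial (Fin 2) ℂ} {d : ℕ} (hg : g.totalDegree ≤ d) (m : Fin 2 →₀ ℕ)
    (hm : m ∈ g.support) : m 0 + m 1 ≤ d := by
  have h1 : g ∈ V ℂ d := mem_V.mpr hg
  exact h1 hm

lemma hom_hmg (π : Fin 3 → ℂ) {d : ℕ} {g : MvPolynomial (Fin 2) ℂ} (hg : g.totalDegree ≤ d) :
    (hmg π d g).IsHomogeneous d := by
  apply IsHomogeneous.sum
  intro m hm
  have h1 := supp_le hg m hm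
  have h2 := (((hom_L2 π).pow (m 0)).mul ((hom_L1 π).pow (m 1))).mul
    ((hom_L3 π).pow (d - (m 0 + m 1)))
  have h3 := h2.C_mul (coeff m g)
  convert h3 using 1
  omega

lemma eval_hmg (π : Fin 3 → ℂ) {d : ℕ} {g : MvPolynomial (Fin 2) ℂ} (hg : g.totalDegree ≤ d)
    (z : Fin 2 → ℂ) (hw : ww π z ≠ 0) (α β : ℂ) :
    eval (α • PP π + β • zz z) (hmg π d g) = (β * ww π z) ^ d * eval (qq π z) g := by
  rw [hmg, map_sum, eval_eq', Finset.mul_sum]
  refine Finset.sum_congr rfl fun m hm => ?_
  have h1 := supp_le hg m hm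
  rw [map_mul, map_mul, map_mul, map_pow, map_pow, map_pow, eval_C, eval_L1, eval_L2, eval_L3,
    Fin.prod_univ_two]
  obtain ⟨e, he⟩ : ∃ e, d = m 0 + m 1 + e := ⟨d - (m 0 + m 1), by omega⟩
  have h2 : d - (m 0 + m 1) = e := by omega
  rw [h2, he, pow_add, pow_add]
  simp only [qq, Matrix.cons_val_zero, Matrix.cons_val_one]
  rw [div_pow, div_pow]
  simp only [mul_pow]
  field_simp

lemma eval_aeval_comp {m n : ℕ} (g : Fin m → MvPolynomial (Fin n) ℂ) (z : Fin n → ℂ)
    (f : MvPolynomial (Fin m) ℂ) :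
    eval z (aeval g f) = eval (fun i => eval z (g i)) f := by
  induction f using MvPolynomial.induction_on with
  | C a => simp [algebraMap_eq]
  | add p q hp hq => rw [map_add, map_add, map_add, hp, hq]
  | mul_X p j hp => rw [map_mul, map_mul, map_mul, hp, aeval_X, eval_X]

/-- dehomogenisation -/
noncomputable def dho (π : Fin 3 → ℂ) : MvPolynomial (Fin 4) ℂ →ₐ[ℂ] MvPolynomial (Fin 2) ℂ :=
  aeval ![0, X 1, X 0, 1 + C (π 0) * X 0 + C (π 1) * X 1]

lemma dho_hmg (π : Fin 3 → ℂ) (d : ℕ) (g : MvPolynomial (Fin 2) ℂ) :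
    dho π (hmg π d g) = g := by
  have e1 : dho π (L1 π) = X 1 := by
    simp [dho, L1]
  have e2 : dho π (L2 π) = X 0 := by
    simp [dho, L2]
  have e3 : dho π (L3 π) = 1 := by
    simp [dho, L3]
    ring
  rw [hmg, map_sum]
  conv_rhs => rw [g.as_sum]
  refine Finset.sum_congr rfl fun m _ => ?_
  rw [map_mul, map_mul, map_mul, map_pow, map_pow, map_pow, e1, e2, e3, one_pow, mul_one]
  have e4 : dho π (C (coeff m g)) = C (coeff m g) := by
    simp [dho, algebraMap_eq]
  rw [e4, monomial_eq, Finsupp.prod_fintype _ _ (by simp), Fin.prod_univ_two]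

lemma eval_dho (π : Fin 3 → ℂ) (f : MvPolynomial (Fin 4) ℂ) (z : Fin 2 → ℂ) (hw : ww π z ≠ 0) :
    eval (qq π z) (dho π f) =
      eval ((-(ww π z)⁻¹) • PP π + (ww π z)⁻¹ • zz z) f := by
  have h1 : eval (qq π z) (dho π f) =
      eval (fun i => eval (qq π z) ((![0, X 1, X 0, 1 + C (π 0) * X 0 + C (π 1) * X 1] :
        Fin 4 → MvPolynomial (Fin 2) ℂ) i)) f := by
    rw [dho, eval_aeval_comp]
  rw [h1]
  congr 2
  funext i
  fin_cases i
  · simp [PP, zz]
  · simp [PP, zz, qq]
    ring
  · simp [PP, zz, qq]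
    ring
  · simp [PP, zz, qq]
    field_simp
    simp [ww]
    ring

lemma totalDegree_aeval_le {m n : ℕ} (g : Fin m → MvPolynomial (Fin n) ℂ)
    (hg : ∀ i, (g i).totalDegree ≤ 1) (f : MvPolynomial (Fin m) ℂ) :
    (aeval g f).totalDegree ≤ f.totalDegree := by
  conv_lhs => rw [f.as_sum, map_sum]
  apply totalDegree_finsetSum_le
  intro d hd
  rw [aeval_monomial]
  refine (totalDegree_mul _ _).trans ?_
  rw [algebraMap_eq, totalDegree_C, zero_add]
  refine (totalDegree_finsetProd _ _).trans ?_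
  refine le_trans ?_ (le_totalDegree hd)
  apply Finset.sum_le_sum
  intro i _
  refine (totalDegree_pow _ _).trans ?_
  have := Nat.mul_le_mul_left (d i) (hg i)
  simpa using this

lemma totalDegree_dho (π : Fin 3 → ℂ) (f : MvPolynomial (Fin 4) ℂ) :
    (dho π f).totalDegree ≤ f.totalDegree := by
  apply totalDegree_aeval_le
  intro i
  fin_cases i
  · simp
  · simp
  · simp
  · change (1 + C (π 0) * X 0 + C (π 1) * X 1 : MvPolynomial (Fin 2) ℂ).totalDegree ≤ 1
    refine (totalDegree_add _ _).trans (max_le ((totalDegree_add _ _).trans (max_le ?_ ?_)) ?_)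
    · simp
    · refine (totalDegree_mul _ _).trans ?_
      rw [totalDegree_C, totalDegree_X]
    · refine (totalDegree_mul _ _).trans ?_
      rw [totalDegree_C, totalDegree_X]

lemma hc_mul_homog {τ : Type*} {A : MvPolynomial τ ℂ} {a : ℕ} (hA : A.IsHomogeneous a)
    (u : MvPolynomial τ ℂ) (d : ℕ) :
    ∃ u' : MvPolynomial τ ℂ, homogeneousComponent d (u * A) = u' * A ∧
      (u' = 0 ∨ u'.totalDegree + a ≤ d) := by
  classical
  have h1 : homogeneousComponent d (u * A) =
      ∑ k ∈ Finset.range (u.totalDegree + 1), if d = k + a then homogeneousComponent k u * A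
        else 0 := by
    conv_lhs => rw [← sum_homogeneousComponent u, Finset.sum_mul, map_sum]
    refine Finset.sum_congr rfl fun k _ => ?_
    have hom : (homogeneousComponent k u * A).IsHomogeneous (k + a) :=
      (homogeneousComponent_isHomogeneous k u).mul hA
    rw [homogeneousComponent_of_mem ((mem_homogeneousSubmodule _ _).mpr hom)]
  by_cases had : a ≤ d
  · refine ⟨homogeneousComponent (d - a) u, ?_, ?_⟩
    · rw [h1]
      by_cases hmem : d - a ∈ Finset.range (u.totalDegree + 1)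
      · rw [Finset.sum_eq_single_of_mem (d - a) hmem, if_pos (by omega)]
        intro k _ hk
        rw [if_neg (by omega)]
      · rw [Finset.mem_range] at hmem
        rw [homogeneousComponent_eq_zero _ _ (by omega), zero_mul]
        apply Finset.sum_eq_zero
        intro k hk
        rw [Finset.mem_range] at hk
        rw [if_neg (by omega)]
    · by_cases h0 : homogeneousComponent (d - a) u = 0
      · exact Or.inl h0
      · right
        have := (homogeneousComponent_isHomogeneous (d - a) u).totalDegree_le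
        omega
  · refine ⟨0, ?_, Or.inl rfl⟩
    rw [h1, zero_mul]
    apply Finset.sum_eq_zero
    intro k _
    rw [if_neg (by omega)]

/-- The cone over `Z` with vertex `PP π` has an ideal generated by two elements. -/
def CIP (Z : Finset (Fin 2 → ℂ)) (π : Fin 3 → ℂ) : Prop :=
  ∃ F G : MvPolynomial (Fin 4) ℂ, ∀ f : MvPolynomial (Fin 4) ℂ, f ∈ Ideal.span {F, G} ↔
    ∀ z ∈ Z, ∀ α β : ℂ, eval (α • PP π + β • zz z) f = 0

/-- restriction to the quadric -/
noncomputable def rq : MvPolynomial (Fin 4) ℂ →ₐ[ℂ] MvPolynomial (Fin 2) ℂ :=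
  aeval ![1, X 0, X 1, X 0 * X 1]

lemma eval_rq (f : MvPolynomial (Fin 4) ℂ) (z : Fin 2 → ℂ) :
    eval z (rq f) = eval (zz z) f := by
  have h1 : eval z (rq f) =
      eval (fun i => eval z ((![1, X 0, X 1, X 0 * X 1] : Fin 4 → MvPolynomial (Fin 2) ℂ) i)) f := by
    rw [rq, eval_aeval_comp]
  rw [h1]
  congr 2
  funext i
  fin_cases i <;> simp [zz]

lemma degreeOf_rq (f : MvPolynomial (Fin 4) ℂ) (i : Fin 2) :
    (rq f).degreeOf i ≤ f.totalDegree := by
  have hg : ∀ j : Fin 4, ((![1, X 0, X 1, X 0 * X 1] : Fin 4 → MvPolynomial (Fin 2) ℂ) j).degreeOf i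
      ≤ 1 := by
    intro j
    have hX : ∀ k : Fin 2, (X k : MvPolynomial (Fin 2) ℂ).degreeOf i ≤ 1 := by
      intro k
      classical
      rw [degreeOf_X]
      split_ifs <;> simp
    fin_cases j
    · simp
    · exact hX 0
    · exact hX 1
    · change (X 0 * X 1 : MvPolynomial (Fin 2) ℂ).degreeOf i ≤ 1
      refine (degreeOf_mul_le _ _ _).trans ?_
      fin_cases i
      · change (X 0 : MvPolynomial (Fin 2) ℂ).degreeOf 0 + (X 1 : MvPolynomial (Fin 2) ℂ).degreeOf 0 ≤ 1
        rw [degreeOf_X_self, degreeOf_X_of_ne (by decide)]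
      · change (X 0 : MvPolynomial (Fin 2) ℂ).degreeOf 1 + (X 1 : MvPolynomial (Fin 2) ℂ).degreeOf 1 ≤ 1
        rw [degreeOf_X_self, degreeOf_X_of_ne (by decide)]
  have h1 : rq f = ∑ d ∈ f.support, C (coeff d f) *
      ∏ j ∈ d.support, ((![1, X 0, X 1, X 0 * X 1] : Fin 4 → MvPolynomial (Fin 2) ℂ) j) ^ d j := by
    conv_lhs => rw [f.as_sum, map_sum]
    refine Finset.sum_congr rfl fun d _ => ?_
    rw [rq, aeval_monomial, algebraMap_eq]
    rfl
  rw [h1]
  refine (degreeOf_sum_le _ _ _).trans ?_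
  rw [Finset.sup_le_iff]
  intro d hd
  refine (degreeOf_C_mul_le _ _ _).trans ?_
  refine (degreeOf_prod_le _ _ _).trans ?_
  refine le_trans ?_ (le_totalDegree hd)
  apply Finset.sum_le_sum
  intro j _
  refine (degreeOf_pow_le _ _ _).trans ?_
  have := Nat.mul_le_mul_left (d j) (hg j)
  simpa using this

/-- An irreducible curve on the quadric is not contained in the line joining the centre
to a point. -/
lemma not_both (π : Fin 3 → ℂ) (z : Fin 2 → ℂ) (hρ : π 2 ≠ 0) (hw : ww π z ≠ 0)
    (c : MvPolynomial (Fin 2) ℂ) (hc : Irreducible c)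
    (h1 : c ∣ rq (C (ww π z) * L1 π - C (z 0 - π 0) * L3 π))
    (h2 : c ∣ rq (C (ww π z) * L2 π - C (z 1 - π 1) * L3 π)) : False := by
  set w := ww π z with hwd
  set u := z 0 - π 0 with hu
  set v := z 1 - π 1 with hv
  have hwuv : w = u * v - π 2 := rfl
  set U : MvPolynomial (Fin 2) ℂ := X 0 - C (π 0) with hU
  set W' : MvPolynomial (Fin 2) ℂ := X 1 - C (π 1) with hV
  set T : MvPolynomial (Fin 2) ℂ := U * W' - C (π 2) with hT
  have rC : ∀ s : ℂ, rq (C s) = C s := by
    intro s
    simp [rq, algebraMap_eq]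
  have r1 : rq (L1 π) = U := by
    simp [rq, L1, hU]
  have r2 : rq (L2 π) = W' := by
    simp [rq, L2, hV]
  have r3 : rq (L3 π) = T := by
    simp [rq, L3, hU, hV, hT]
    ring
  have e1 : rq (C w * L1 π - C u * L3 π) = C w * U - C u * T := by
    rw [map_sub, map_mul, map_mul, rC, rC, r1, r3]
  have e2 : rq (C w * L2 π - C v * L3 π) = C w * W' - C v * T := by
    rw [map_sub, map_mul, map_mul, rC, rC, r2, r3]
  rw [e1] at h1
  rw [e2] at h2
  have hprime : Prime c := hc.prime
  have h3 : c ∣ (T - C w) * (C (u * v) * T + C (π 2 * w)) := by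
    have h4 : (T - C w) * (C (u * v) * T + C (π 2 * w)) =
        -((C w * U - C u * T) * (C w * W') + (C u * T) * (C w * W' - C v * T)) := by
      rw [hwuv]
      simp only [C_mul, C_sub]
      rw [hT]
      ring
    rw [h4, dvd_neg]
    exact dvd_add (dvd_mul_of_dvd_left h1 _) (dvd_mul_of_dvd_right h2 _)
  -- it suffices to show that `T` is congruent to a constant
  have key : ∀ τ : ℂ, c ∣ T - C τ → False := by
    intro τ hτ
    have k1 : c ∣ C w * U - C (u * τ) := by
      have : C w * U - C (u * τ) = (C w * U - C u * T) + C u * (T - C τ) := by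
        rw [C_mul]; ring
      rw [this]
      exact dvd_add h1 (dvd_mul_of_dvd_right hτ _)
    have k2 : c ∣ C w * W' - C (v * τ) := by
      have : C w * W' - C (v * τ) = (C w * W' - C v * T) + C v * (T - C τ) := by
        rw [C_mul]; ring
      rw [this]
      exact dvd_add h2 (dvd_mul_of_dvd_right hτ _)
    have lin : ∀ (i : Fin 2) (s t : ℂ), c ∣ C w * (X i - C s) - C t → c.degreeOf (i + 1) = 0 := by
      intro i s t hd
      have hne : (C w * (X i - C s) - C t : MvPolynomial (Fin 2) ℂ) ≠ 0 := by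
        intro h0
        have h5 := congrArg (fun g => cf i g 1 0) h0
        have h6 : (C w * (X i - C s) - C t : MvPolynomial (Fin 2) ℂ) =
            C w * (X i * 1) - C (w * s + t) * 1 := by
          rw [C_add, C_mul]; ring
        have h7 : cf i (1 : MvPolynomial (Fin 2) ℂ) 1 0 = 0 := by
          rw [← C_1, cf, coeff_C, if_neg]
          intro h8
          have := congrArg (fun n : Fin 2 →₀ ℕ => n i) h8
          simp at this
        have h8 : cf i (1 : MvPolynomial (Fin 2) ℂ) 0 0 = 1 := by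
          rw [← C_1, cf, coeff_C, if_pos]
          simp [ex]
        rw [h6] at h5
        simp only [cf_sub, cf_C_mul, cf_X_mul_succ, h7, h8, cf_zero] at h5
        apply hw
        linear_combination h5
      obtain ⟨r, hr⟩ := hd
      have hr0 : r ≠ 0 := by rintro rfl; rw [mul_zero] at hr; exact hne hr
      have h9 : (C w * (X i - C s) - C t : MvPolynomial (Fin 2) ℂ).degreeOf (i + 1) = 0 := by
        have h10 : (C w * (X i - C s) - C t : MvPolynomial (Fin 2) ℂ) =
            C w * X i + C (-(w * s + t)) := by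
          rw [C_neg, C_add, C_mul]; ring
        rw [h10]
        have h11 := degreeOf_add_le (i + 1) (C w * X i) (C (-(w * s + t)) : MvPolynomial (Fin 2) ℂ)
        have h12 := degreeOf_C_mul_le (X i : MvPolynomial (Fin 2) ℂ) (i + 1) w
        rw [degreeOf_X_of_ne (fin2_ne i)] at h12
        rw [degreeOf_C] at h11
        omega
      rw [hr, degreeOf_mul_eq hc.ne_zero hr0] at h9
      omega
    have d1 := lin 0 (π 0) (u * τ) k1
    have d0 := lin 1 (π 1) (v * τ) k2
    have : c ∈ V ℂ 0 := by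
      rw [V, mem_restrictSupport_iff]
      intro m hm
      have e0 := (degreeOf_le_iff.mp d0.le) m hm
      have e1 := (degreeOf_le_iff.mp d1.le) m hm
      simp only [TT, Set.mem_ofPred_eq]
      rw [show (1 : Fin 2) + 1 = 0 from rfl] at e0
      rw [show (0 : Fin 2) + 1 = 1 from rfl] at e1
      omega
    rw [mem_V] at this
    exact hc.not_isUnit (isUnit_of_deg_zero hc.ne_zero (by omega))
  rcases hprime.dvd_or_dvd h3 with h4 | h4
  · exact key w h4
  · by_cases huv : u * v = 0
    · rw [huv, C_0, zero_mul, zero_add] at h4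
      have hunit : IsUnit (C (π 2 * w) : MvPolynomial (Fin 2) ℂ) := by
        apply IsUnit.map
        rw [isUnit_iff_ne_zero]
        exact mul_ne_zero hρ hw
      exact hc.not_isUnit (isUnit_of_dvd_unit h4 hunit)
    · apply key (-(π 2 * w) / (u * v))
      have h5 : T - C (-(π 2 * w) / (u * v)) = C (u * v)⁻¹ * (C (u * v) * T + C (π 2 * w)) := by
        rw [mul_add, ← mul_assoc, ← C_mul, ← C_mul, inv_mul_cancel₀ huv, C_1, one_mul,
          sub_eq_add_neg, ← C_neg]
        congr 2
        field_simp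
      rw [h5]
      exact dvd_mul_of_dvd_right h4 _

/-- The data extracted from one good centre of projection. -/
def Good (Z : Finset (Fin 2 → ℂ)) (π : Fin 3 → ℂ) (a b : ℕ) : Prop :=
  1 ≤ a ∧ a ≤ b ∧ a * b ≤ Z.card ∧
  Module.finrank ℂ (LinearMap.range (evq (V ℂ a) (fun z : Z => qq π z.1))) + 1 ≤
    Module.finrank ℂ (V ℂ a) ∧
  Module.finrank ℂ (LinearMap.range (evq (V ℂ b) (fun z : Z => qq π z.1))) +
    Module.finrank ℂ (V ℂ (b - a)) + 1 ≤ Module.finrank ℂ (V ℂ b) ∧
  BiBound Z b

theorem good_of_cip (Z : Finset (Fin 2 → ℂ)) (hZ : Z.Nonempty) (π : Fin 3 → ℂ) (hρ : π 2 ≠ 0)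
    (hw : ∀ z ∈ Z, ww π z ≠ 0) (h : CIP Z π) : ∃ a b, Good Z π a b := by
  classical
  obtain ⟨F, G, hFG⟩ := h
  have hI : ∀ f ∈ Ideal.span {F, G}, ∀ n, homogeneousComponent n f ∈ Ideal.span {F, G} := by
    intro f hf n
    rw [hFG] at hf ⊢
    intro z hz α β
    apply eval_hc_zero
    intro t
    have := hf z hz (t * α) (t * β)
    rw [smul_add, smul_smul, smul_smul]
    exact this
  obtain ⟨a, b, A, B, hab, hA, hB, hAI, hBI, hgen⟩ := homogeneous_generators F G hI
  have hAv := (hFG A).mp hAI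
  have hBv := (hFG B).mp hBI
  refine ⟨a, b, ?_⟩
  have : Nonempty Z := hZ.to_subtype
  have hst := star (L := ℂ) (I := Z) (fun z : Z => qq π z.1) a b hab (dho π A) (dho π B)
    ((totalDegree_dho π A).trans hA.totalDegree_le) ((totalDegree_dho π B).trans hB.totalDegree_le)
    (by
      intro z
      rw [eval_dho π A z.1 (hw z.1 z.2)]
      exact hAv z.1 z.2 _ _)
    (by
      intro z
      rw [eval_dho π B z.1 (hw z.1 z.2)]
      exact hBv z.1 z.2 _ _)
    (by
      intro d g hg hgz
      have hmem : hmg π d g ∈ Ideal.span {F, G} := by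
        rw [hFG]
        intro z hz α β
        rw [eval_hmg π hg z (hw z hz), hgz ⟨z, hz⟩, mul_zero]
      obtain ⟨u, v, huv⟩ := hgen _ hmem
      obtain ⟨u', hu', hud⟩ := hc_mul_homog hA u d
      obtain ⟨v', hv', hvd⟩ := hc_mul_homog hB v d
      have h1 : hmg π d g = u' * A + v' * B := by
        have h2 := congrArg (homogeneousComponent d) huv
        rw [homogeneousComponent_eq_self (hom_hmg π hg), map_add, hu', hv'] at h2
        exact h2
      refine ⟨dho π u', dho π v', ?_, ?_, ?_⟩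
      · rw [← map_mul, ← map_mul, ← map_add, ← h1, dho_hmg]
      · rcases hud with h2 | h2
        · left; rw [h2, map_zero]
        · right
          have := totalDegree_dho π u'
          omega
      · rcases hvd with h2 | h2
        · left; rw [h2, map_zero]
        · right
          have := totalDegree_dho π v'
          omega)
  obtain ⟨ha1, hcard, hr1, hr2⟩ := hst
  rw [Fintype.card_coe] at hcard
  refine ⟨ha1, hab, hcard, hr1, hr2, ?_⟩
  -- the bidegree bound
  have hAq : ∀ z ∈ Z, eval z (rq A) = 0 := by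
    intro z hz
    rw [eval_rq]
    have := hAv z hz 0 1
    simpa using this
  have hBq : ∀ z ∈ Z, eval z (rq B) = 0 := by
    intro z hz
    rw [eval_rq]
    have := hBv z hz 0 1
    simpa using this
  have hirr : ∀ c : MvPolynomial (Fin 2) ℂ, Irreducible c → ∀ Y : Finset (Fin 2 → ℂ), Y ⊆ Z →
      (∀ z ∈ Y, eval z c = 0) → Y.card ≤ (c.degreeOf 0 + c.degreeOf 1) * b := by
    intro c hc Y hYZ hY
    by_contra hcon
    push Not at hcon
    have hdv : ∀ (D : MvPolynomial (Fin 4) ℂ) (e : ℕ), D.IsHomogeneous e → e ≤ b →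
        (∀ z ∈ Z, eval z (rq D) = 0) → c ∣ rq D := by
      intro D e hD heb hDz
      by_contra hnd
      have hD0 : rq D ≠ 0 := by
        intro h0
        exact hnd (h0 ▸ dvd_zero c)
      have hbz := bezout_bi c (rq D) hc.ne_zero hD0 (hc.isRelPrime_iff_not_dvd.mpr hnd) Y hY
        (fun z hz => hDz z (hYZ hz))
      have d0 := (degreeOf_rq D 0).trans (hD.totalDegree_le.trans heb)
      have d1 := (degreeOf_rq D 1).trans (hD.totalDegree_le.trans heb)
      have m0 := Nat.mul_le_mul_left (c.degreeOf 0) d1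
      have m1 := Nat.mul_le_mul_left (c.degreeOf 1) d0
      rw [add_mul] at hcon
      omega
    have hcA := hdv A a hA hab hAq
    have hcB := hdv B b hB le_rfl hBq
    have hcI : ∀ f ∈ Ideal.span {F, G}, c ∣ rq f := by
      intro f hf
      obtain ⟨u, v, huv⟩ := hgen f hf
      rw [huv, map_add, map_mul, map_mul]
      exact dvd_add (dvd_mul_of_dvd_right hcA _) (dvd_mul_of_dvd_right hcB _)
    have hchoice : ∀ z : Fin 2 → ℂ, z ∈ Z → ∃ l : MvPolynomial (Fin 4) ℂ,
        (∀ α β : ℂ, eval (α • PP π + β • zz z) l = 0) ∧ ¬ c ∣ rq l := by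
      intro z hz
      by_contra hcon2
      push Not at hcon2
      apply not_both π z hρ (hw z hz) c hc
      · apply hcon2
        intro α β
        rw [map_sub, map_mul, map_mul, eval_C, eval_C, eval_L1, eval_L3]
        ring
      · apply hcon2
        intro α β
        rw [map_sub, map_mul, map_mul, eval_C, eval_C, eval_L2, eval_L3]
        ring
    choose! l hl1 hl2 using hchoice
    have hmem : ∏ z ∈ Z, l z ∈ Ideal.span {F, G} := by
      rw [hFG]
      intro z hz α β
      rw [map_prod]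
      exact Finset.prod_eq_zero hz (hl1 z hz α β)
    have hdiv := hcI _ hmem
    rw [map_prod] at hdiv
    obtain ⟨z, hz, hz2⟩ := (hc.prime.dvd_finsetProd_iff _).mp hdiv
    exact hl2 z hz hz2
  -- general curves
  have hgenl : ∀ c : MvPolynomial (Fin 2) ℂ, c ≠ 0 → ∀ Y : Finset (Fin 2 → ℂ), Y ⊆ Z →
      (∀ z ∈ Y, eval z c = 0) → Y.card ≤ (c.degreeOf 0 + c.degreeOf 1) * b := by
    intro c
    induction c using WfDvdMonoid.induction_on_irreducible with
    | zero => intro hf; exact absurd rfl hf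
    | unit u hu =>
      intro _ Y _ hY
      have : Y = ∅ := by
        rw [Finset.eq_empty_iff_forall_notMem]
        intro z hz
        have h1 : IsUnit (eval z u) := hu.map _
        rw [hY z hz] at h1
        exact not_isUnit_zero h1
      rw [this]; simp
    | mul p i hp hi ih =>
      intro hne Y hYZ hY
      rw [degreeOf_mul_eq hi.ne_zero hp, degreeOf_mul_eq hi.ne_zero hp]
      have h1 := ih hp (Y.filter (fun z => eval z p = 0))
        ((Finset.filter_subset _ _).trans hYZ) (fun z hz => (Finset.mem_filter.mp hz).2)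
      have h2 := hirr i hi (Y.filter (fun z => eval z i = 0))
        ((Finset.filter_subset _ _).trans hYZ) (fun z hz => (Finset.mem_filter.mp hz).2)
      have h3 : Y.card ≤ (Y.filter (fun z => eval z i = 0)).card +
          (Y.filter (fun z => eval z p = 0)).card := by
        refine (Finset.card_le_card ?_).trans (Finset.card_union_le _ _)
        intro z hz
        have h4 := hY z hz
        rw [map_mul, mul_eq_zero] at h4
        rw [Finset.mem_union, Finset.mem_filter, Finset.mem_filter]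
        rcases h4 with h4 | h4
        · exact Or.inl ⟨hz, h4⟩
        · exact Or.inr ⟨hz, h4⟩
      nlinarith
  intro p q c Y hc0 hc1 hc2 hYZ hY
  refine (hgenl c hc0 Y hYZ hY).trans ?_
  exact Nat.mul_le_mul_right _ (by omega)

end Pool.Agent.Geproci
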