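import Pool.Agent.Lib_MP_9828eb_ag.Dim

set_option autoImplicit false

open MvPolynomial

namespace Pool.Agent.Geproci

variable {k : Type*} [Field k]

/-- evaluation of polynomials of a subspace at finitely many points. -/
noncomputable def evS (T : Submodule k (MvPolynomial (Fin 2) k)) (S : Finset (Fin 2 → k)) :
    T →ₗ[k] (S → k) where
  toFun f := fun z => eval z.1 f.1
  map_add' f g := by ext z; simp
  map_smul' c f := by ext z; simp [smul_eval]

/-- a linear polynomial vanishing at `y` but not at `x`. -/
lemma exists_sep (x y : Fin 2 → k) (h : x ≠ y) :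
    ∃ l : MvPolynomial (Fin 2) k, l.totalDegree ≤ 1 ∧ eval y l = 0 ∧ eval x l ≠ 0 := by
  obtain ⟨i, hi⟩ := Function.ne_iff.mp h
  refine ⟨X i - C (y i), ?_, ?_, ?_⟩
  · refine (totalDegree_sub _ _).trans ?_
    simp
  · simp
  · simp [sub_eq_zero, hi]

lemma exists_delta (S : Finset (Fin 2 → k)) (x : Fin 2 → k) (hx : x ∉ S) :
    ∃ l : MvPolynomial (Fin 2) k, l.totalDegree ≤ S.card ∧ (∀ y ∈ S, eval y l = 0) ∧
      eval x l ≠ 0 := by
  classical
  induction S using Finset.induction_on with
  | empty => exact ⟨1, by simp, by simp, by simp⟩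
  | insert a s ha ih =>
    have hxs : x ∉ s := fun h => hx (Finset.mem_insert_of_mem h)
    have hxa : x ≠ a := fun h => hx (h ▸ Finset.mem_insert_self a s)
    obtain ⟨l, hl1, hl2, hl3⟩ := ih hxs
    obtain ⟨m, hm1, hm2, hm3⟩ := exists_sep x a hxa
    refine ⟨l * m, ?_, ?_, ?_⟩
    · refine (totalDegree_mul _ _).trans ?_
      rw [Finset.card_insert_of_notMem ha]
      omega
    · intro y hy
      rcases Finset.mem_insert.mp hy with rfl | hy
      · simp [hm2]
      · simp [hl2 y hy]
    · simp [hl3, hm3]

lemma evS_surjective (T : Submodule k (MvPolynomial (Fin 2) k)) (S : Finset (Fin 2 → k))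
    (hT : V k S.card ≤ T) : Function.Surjective (evS T S) := by
  classical
  rw [← LinearMap.range_eq_top, eq_top_iff]
  intro g _
  have key : ∀ x : S, (Pi.single x (1 : k) : S → k) ∈ LinearMap.range (evS T S) := by
    intro x
    obtain ⟨l, hl1, hl2, hl3⟩ := exists_delta (S.erase x.1) x.1 (by simp)
    have hlV : l ∈ V k S.card := by
      rw [mem_V]
      exact hl1.trans (Finset.card_le_card (Finset.erase_subset _ _))
    refine ⟨(eval x.1 l)⁻¹ • ⟨l, hT hlV⟩, ?_⟩
    ext y
    by_cases hxy : y = x
    · subst hxy
      simp [evS, smul_eval, hl3]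
    · have : eval y.1 l = 0 := by
        apply hl2
        rw [Finset.mem_erase]
        exact ⟨fun h => hxy (Subtype.ext h), y.2⟩
      simp [evS, smul_eval, this, hxy]
  have : g = ∑ x : S, g x • (Pi.single x (1 : k) : S → k) := by
    ext y
    simp [Finset.sum_apply, Pi.single_apply]
  rw [this]
  exact Submodule.sum_mem _ (fun x _ => Submodule.smul_mem _ _ (key x))

/-- `(u,v) ↦ u f + v g`. -/
noncomputable def kosz (A B : Submodule k (MvPolynomial (Fin 2) k)) (f g : MvPolynomial (Fin 2) k) :
    (A × B) →ₗ[k] MvPolynomial (Fin 2) k where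
  toFun uv := uv.1.1 * f + uv.2.1 * g
  map_add' x y := by simp; ring
  map_smul' c x := by simp [smul_mul_assoc]

lemma finrank_range_kosz (A B C : Submodule k (MvPolynomial (Fin 2) k))
    [Module.Finite k A] [Module.Finite k B] [Module.Finite k C]
    (f g : MvPolynomial (Fin 2) k) (hg : g ≠ 0)
    (hrel : IsRelPrime f g)
    (hC : ∀ w, w * g ∈ A → w * f ∈ B → w ∈ C) :
    Module.finrank k A + Module.finrank k B ≤
      Module.finrank k (LinearMap.range (kosz A B f g)) + Module.finrank k C := by
  have h1 := LinearMap.finrank_range_add_finrank_ker (kosz A B f g)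
  rw [Module.finrank_prod] at h1
  have h2 : Module.finrank k (LinearMap.ker (kosz A B f g)) ≤ Module.finrank k C := by
    have hex : ∀ x : LinearMap.ker (kosz A B f g), ∃ w : MvPolynomial (Fin 2) k,
        x.1.1.1 = w * g ∧ x.1.2.1 = -(w * f) := by
      rintro ⟨⟨u, v⟩, hx⟩
      have hx' : u.1 * f + v.1 * g = 0 := by simpa [kosz] using hx
      have hdvd : g ∣ u.1 * f := ⟨-v.1, by linear_combination hx'⟩
      have hdvd2 : g ∣ u.1 := hrel.symm.dvd_of_dvd_mul_right hdvd
      obtain ⟨w, hw⟩ := hdvd2
      refine ⟨w, by rw [hw]; ring, ?_⟩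
      have : g * (v.1 + w * f) = 0 := by
        rw [hw] at hx'
        linear_combination hx'
      rcases mul_eq_zero.mp this with h | h
      · exact absurd h hg
      · linear_combination h
    choose w hw1 hw2 using hex
    have hwC : ∀ x, w x ∈ C := by
      intro x
      apply hC
      · rw [← hw1]; exact x.1.1.2
      · have : w x * f = -x.1.2.1 := by rw [hw2]; ring
        rw [this]; exact Submodule.neg_mem _ x.1.2.2
    let ψ : LinearMap.ker (kosz A B f g) →ₗ[k] C :=
      { toFun := fun x => ⟨w x, hwC x⟩
        map_add' := by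
          intro x y
          apply Subtype.ext
          have h1 := hw1 (x + y)
          have h2 := hw1 x
          have h3 := hw1 y
          have h4 : (x + y).1.1.1 = x.1.1.1 + y.1.1.1 := rfl
          rw [h4, h2, h3] at h1
          apply mul_right_cancel₀ hg
          simp only [Submodule.coe_add]
          linear_combination -h1
        map_smul' := by
          intro c x
          apply Subtype.ext
          have h1 := hw1 (c • x)
          have h2 := hw1 x
          have h4 : (c • x).1.1.1 = c • x.1.1.1 := rfl
          rw [h4, h2] at h1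
          apply mul_right_cancel₀ hg
          simp only [RingHom.id_apply, Submodule.coe_smul]
          rw [smul_mul_assoc]
          exact h1.symm }
    apply LinearMap.finrank_le_finrank_of_injective (f := ψ)
    intro x y hxy
    have : w x = w y := congrArg Subtype.val hxy
    apply Subtype.ext
    apply Prod.ext
    · apply Subtype.ext; rw [hw1, hw1, this]
    · apply Subtype.ext; rw [hw2, hw2, this]
  omega

/-- Abstract Bezout inequality. -/
lemma bezout_abstract (A B C T : Submodule k (MvPolynomial (Fin 2) k))
    [Module.Finite k A] [Module.Finite k B] [Module.Finite k C] [Module.Finite k T]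
    (f g : MvPolynomial (Fin 2) k) (hg : g ≠ 0)
    (hrel : IsRelPrime f g)
    (hC : ∀ w, w * g ∈ A → w * f ∈ B → w ∈ C)
    (hA : ∀ u ∈ A, u * f ∈ T) (hB : ∀ v ∈ B, v * g ∈ T)
    (S : Finset (Fin 2 → k)) (hT : V k S.card ≤ T)
    (hf : ∀ z ∈ S, eval z f = 0) (hg' : ∀ z ∈ S, eval z g = 0) :
    S.card + Module.finrank k A + Module.finrank k B ≤ Module.finrank k T + Module.finrank k C := by
  have h1 := finrank_range_kosz A B C f g hg hrel hC
  have h2 := LinearMap.finrank_range_add_finrank_ker (evS T S)
  rw [LinearMap.range_eq_top.mpr (evS_surjective T S hT), finrank_top, Module.finrank_fintype_fun_eq_card,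
    Fintype.card_coe] at h2
  have h3 : Module.finrank k (LinearMap.range (kosz A B f g)) ≤
      Module.finrank k (LinearMap.ker (evS T S)) := by
    have hle : LinearMap.range (kosz A B f g) ≤ (LinearMap.ker (evS T S)).map T.subtype := by
      rintro _ ⟨⟨u, v⟩, rfl⟩
      have hmem : u.1 * f + v.1 * g ∈ T := T.add_mem (hA _ u.2) (hB _ v.2)
      refine ⟨⟨_, hmem⟩, ?_, rfl⟩
      simp only [SetLike.mem_coe, LinearMap.mem_ker]
      ext z
      simp [evS, hf z.1 z.2, hg' z.1 z.2]
    refine (Submodule.finrank_mono hle).trans ?_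
    exact Submodule.finrank_map_le _ _
  omega

/-- Bezout bound in the affine plane, total degree version. -/
theorem bezout (f g : MvPolynomial (Fin 2) k) (hf0 : f ≠ 0) (hg0 : g ≠ 0) (hrel : IsRelPrime f g)
    (S : Finset (Fin 2 → k)) (hf : ∀ z ∈ S, eval z f = 0) (hg : ∀ z ∈ S, eval z g = 0) :
    S.card ≤ f.totalDegree * g.totalDegree := by
  set a := f.totalDegree with ha
  set b := g.totalDegree with hb
  set N := S.card with hN
  have h := bezout_abstract (V k (N + b)) (V k (N + a)) (V k N) (V k (N + a + b)) f g hg0 hrel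
    (by
      intro w hw _
      by_cases hw0 : w = 0
      · rw [hw0]; exact Submodule.zero_mem _
      · rw [mem_V, totalDegree_mul_of_isDomain hw0 hg0] at hw
        rw [mem_V]; omega)
    (by
      intro u hu
      rw [mem_V] at hu ⊢
      refine (totalDegree_mul _ _).trans ?_
      omega)
    (by
      intro u hu
      rw [mem_V] at hu ⊢
      refine (totalDegree_mul _ _).trans ?_
      omega)
    S
    (by
      intro p hp
      rw [mem_V] at hp ⊢
      omega)
    hf hg
  have e1 := finrank_V (k := k) (N + b)
  have e2 := finrank_V (k := k) (N + a)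
  have e3 := finrank_V (k := k) N
  have e4 := finrank_V (k := k) (N + a + b)
  nlinarith

/-- Bezout bound for bidegrees. -/
theorem bezout_bi (f g : MvPolynomial (Fin 2) k) (hf0 : f ≠ 0) (hg0 : g ≠ 0) (hrel : IsRelPrime f g)
    (S : Finset (Fin 2 → k)) (hf : ∀ z ∈ S, eval z f = 0) (hg : ∀ z ∈ S, eval z g = 0) :
    S.card ≤ f.degreeOf 0 * g.degreeOf 1 + f.degreeOf 1 * g.degreeOf 0 := by
  set p := f.degreeOf 0 with hp
  set q := f.degreeOf 1 with hq
  set m := g.degreeOf 0 with hm
  set n := g.degreeOf 1 with hn
  set N := S.card with hN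
  have h := bezout_abstract (W k (N + m) (N + n)) (W k (N + p) (N + q)) (W k N N)
    (W k (N + p + m) (N + q + n)) f g hg0 hrel
    (by
      intro w hw _
      by_cases hw0 : w = 0
      · rw [hw0]; exact Submodule.zero_mem _
      · rw [mem_W, degreeOf_mul_eq hw0 hg0, degreeOf_mul_eq hw0 hg0] at hw
        rw [mem_W]; omega)
    (by
      intro u hu
      rw [mem_W] at hu ⊢
      have h0 := degreeOf_mul_le 0 u f
      have h1 := degreeOf_mul_le 1 u f
      omega)
    (by
      intro u hu
      rw [mem_W] at hu ⊢
      have h0 := degreeOf_mul_le 0 u g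
      have h1 := degreeOf_mul_le 1 u g
      omega)
    S
    (by
      intro p hp
      rw [mem_V] at hp
      rw [mem_W]
      have h0 := degreeOf_le_totalDegree p 0
      have h1 := degreeOf_le_totalDegree p 1
      omega)
    hf hg
  rw [finrank_W, finrank_W, finrank_W, finrank_W] at h
  nlinarith

end Pool.Agent.Geproci
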