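import Pool.Agent.Lib_MP_9828eb_ag.Bezout

set_option autoImplicit false

open MvPolynomial

namespace Pool.Agent.Geproci

variable {k : Type*} [Field k]

/-- homogeneous components are multiplicative in the top degree. -/
lemma hc_mul {σ : Type*} {f g : MvPolynomial σ k} {m n : ℕ} (hf : f.totalDegree ≤ m)
    (hg : g.totalDegree ≤ n) :
    homogeneousComponent (m + n) (f * g) = homogeneousComponent m f * homogeneousComponent n g := by
  classical
  ext d
  rw [coeff_homogeneousComponent, coeff_mul, coeff_mul]
  split_ifs with hd
  · apply Finset.sum_congr rfl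
    rintro ⟨x, y⟩ hxy
    have hxy' : x + y = d := by simpa using hxy
    rw [coeff_homogeneousComponent, coeff_homogeneousComponent]
    have hdeg : x.degree + y.degree = m + n := by rw [← hd, ← hxy', map_add]
    by_cases h1 : x.degree = m
    · have h2 : y.degree = n := by omega
      simp [h1, h2]
    · rcases lt_or_gt_of_ne h1 with h1' | h1'
      · have hy : coeff y g = 0 := by
          apply coeff_eq_zero_of_totalDegree_lt
          change g.totalDegree < y.degree
          omega
        simp [hy]
      · have hx : coeff x f = 0 := by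
          apply coeff_eq_zero_of_totalDegree_lt
          change f.totalDegree < x.degree
          omega
        simp [hx]
  · symm
    apply Finset.sum_eq_zero
    rintro ⟨x, y⟩ hxy
    have hxy' : x + y = d := by simpa using hxy
    rw [coeff_homogeneousComponent, coeff_homogeneousComponent]
    have hdeg : x.degree + y.degree ≠ m + n := by
      rw [← map_add, hxy']
      exact hd
    by_cases h1 : x.degree = m
    · have h2 : y.degree ≠ n := by omega
      simp [h2]
    · simp [h1]

/-- a polynomial of degree `≤ p` with vanishing degree `p` part is zero or of degree `< p`. -/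
lemma deg_lt_of_hc_zero {σ : Type*} {f : MvPolynomial σ k} {p : ℕ} (hf : f.totalDegree ≤ p)
    (h0 : homogeneousComponent p f = 0) : f = 0 ∨ f.totalDegree + 1 ≤ p := by
  by_cases hf0 : f = 0
  · exact Or.inl hf0
  right
  by_contra hcon
  have hp : f.totalDegree = p := by omega
  have hne : f.support.Nonempty := by
    rw [Finset.nonempty_iff_ne_empty]
    intro h
    exact hf0 (by simpa using h)
  obtain ⟨d, hd, hd2⟩ := Finset.exists_mem_eq_sup f.support hne (fun s => s.sum fun _ e => e)
  have hd3 : d.degree = p := by
    rw [← hp, totalDegree, hd2]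
    rfl
  have := congrArg (coeff d) h0
  rw [coeff_homogeneousComponent, if_pos hd3, coeff_zero] at this
  exact (mem_support_iff.mp hd) this

/-- top homogeneous part. -/
noncomputable def top {σ : Type*} (f : MvPolynomial σ k) : MvPolynomial σ k :=
  homogeneousComponent f.totalDegree f

lemma top_ne_zero {σ : Type*} {f : MvPolynomial σ k} (hf : f ≠ 0) : top f ≠ 0 := by
  intro h
  rcases deg_lt_of_hc_zero (le_refl _) h with h1 | h1
  · exact hf h1
  · omega

lemma top_homog {σ : Type*} (f : MvPolynomial σ k) : (top f).IsHomogeneous f.totalDegree :=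
  homogeneousComponent_isHomogeneous _ _

/-- A large degree form of the complete intersection property. -/
lemma ci_large (f g : MvPolynomial (Fin 2) k) (hf0 : f ≠ 0) (hg0 : g ≠ 0) (hrel : IsRelPrime f g)
    (S : Finset (Fin 2 → k)) (hf : ∀ z ∈ S, eval z f = 0) (hg : ∀ z ∈ S, eval z g = 0)
    (hcard : f.totalDegree * g.totalDegree ≤ S.card) (h : MvPolynomial (Fin 2) k)
    (hh : ∀ z ∈ S, eval z h = 0) (D : ℕ) (hD : S.card + f.totalDegree + g.totalDegree ≤ D)
    (hdeg : h.totalDegree ≤ D) :
    ∃ u v, h = u * f + v * g ∧ u.totalDegree + f.totalDegree ≤ D ∧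
      v.totalDegree + g.totalDegree ≤ D := by
  set a := f.totalDegree with ha
  set b := g.totalDegree with hb
  set N := S.card with hN
  obtain ⟨e, rfl⟩ := Nat.exists_eq_add_of_le hD
  have h1 := finrank_range_kosz (V k (N + b + e)) (V k (N + a + e)) (V k (N + e)) f g hg0 hrel
    (by
      intro w hw _
      by_cases hw0 : w = 0
      · rw [hw0]; exact Submodule.zero_mem _
      · rw [mem_V, totalDegree_mul_of_isDomain hw0 hg0] at hw
        rw [mem_V]; omega)
  set T := V k (N + a + b + e) with hT
  have hTV : V k N ≤ T := by
    intro p hp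
    rw [mem_V] at hp ⊢
    omega
  have h2 := LinearMap.finrank_range_add_finrank_ker (evS T S)
  rw [LinearMap.range_eq_top.mpr (evS_surjective T S hTV), finrank_top,
    Module.finrank_fintype_fun_eq_card, Fintype.card_coe] at h2
  have hle : LinearMap.range (kosz (V k (N + b + e)) (V k (N + a + e)) f g) ≤
      (LinearMap.ker (evS T S)).map T.subtype := by
    rintro _ ⟨⟨u, v⟩, rfl⟩
    have hu := mem_V.mp u.2
    have hv := mem_V.mp v.2
    have hmem : u.1 * f + v.1 * g ∈ T := by
      apply T.add_mem
      · rw [mem_V]
        refine (totalDegree_mul _ _).trans ?_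
        omega
      · rw [mem_V]
        refine (totalDegree_mul _ _).trans ?_
        omega
    refine ⟨⟨_, hmem⟩, ?_, rfl⟩
    simp only [SetLike.mem_coe, LinearMap.mem_ker]
    ext z
    simp [evS, hf z.1 z.2, hg z.1 z.2]
  have e1 := finrank_V (k := k) (N + b + e)
  have e2 := finrank_V (k := k) (N + a + e)
  have e3 := finrank_V (k := k) (N + e)
  have e4 : 2 * Module.finrank k T = _ := finrank_V (k := k) (N + a + b + e)
  have h4 : Module.finrank k ((LinearMap.ker (evS T S)).map T.subtype) ≤
      Module.finrank k (LinearMap.range (kosz (V k (N + b + e)) (V k (N + a + e)) f g)) := by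
    refine (Submodule.finrank_map_le _ _).trans ?_
    nlinarith
  have heq := Submodule.eq_of_le_of_finrank_le hle h4
  have hmemh : h ∈ (LinearMap.ker (evS T S)).map T.subtype := by
    refine ⟨⟨h, ?_⟩, ?_, rfl⟩
    · rw [mem_V]; exact hdeg
    · simp only [SetLike.mem_coe, LinearMap.mem_ker]
      ext z
      simp [evS, hh z.1 z.2]
  rw [← heq] at hmemh
  obtain ⟨⟨u, v⟩, huv⟩ := hmemh
  have hu := mem_V.mp u.2
  have hv := mem_V.mp v.2
  refine ⟨u.1, v.1, huv.symm, by omega, by omega⟩

lemma unit_of_dvd_pow (κ : MvPolynomial (Fin 2) k) (e : ℕ) (h0 : κ ∣ X 0 ^ e) (h1 : κ ∣ X 1 ^ e) :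
    κ.totalDegree = 0 := by
  have aux : ∀ i j : Fin 2, i ≠ j → κ ∣ X i ^ e → κ.degreeOf j = 0 := by
    intro i j hij hdvd
    obtain ⟨w, hw⟩ := hdvd
    have hX : (X i ^ e : MvPolynomial (Fin 2) k) ≠ 0 := pow_ne_zero _ (X_ne_zero i)
    have hκ : κ ≠ 0 := by rintro rfl; simp at hw
    have hw0 : w ≠ 0 := by
      rintro rfl
      simp only [mul_zero] at hw
      exact hX hw
    have := congrArg (degreeOf j) hw
    rw [degreeOf_mul_eq hκ hw0, degreeOf_X_pow_of_ne _ hij.symm] at this
    omega
  have h2 := aux 0 1 (by decide) h0
  have h3 := aux 1 0 (by decide) h1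
  have : κ ∈ V k 0 := by
    rw [V, mem_restrictSupport_iff]
    intro m hm
    have e0 := (degreeOf_le_iff.mp h3.le) m hm
    have e1 := (degreeOf_le_iff.mp h2.le) m hm
    simp only [TT, Set.mem_ofPred_eq]
    omega
  rw [mem_V] at this
  omega

/-- The top parts of a complete intersection of affine points are coprime. -/
lemma ci_top (f g : MvPolynomial (Fin 2) k) (hf0 : f ≠ 0) (hg0 : g ≠ 0) (hrel : IsRelPrime f g)
    (S : Finset (Fin 2 → k)) (hf : ∀ z ∈ S, eval z f = 0) (hg : ∀ z ∈ S, eval z g = 0)
    (hcard : f.totalDegree * g.totalDegree ≤ S.card) : IsRelPrime (top f) (top g) := by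
  intro κ hκf hκg
  have hft := top_ne_zero hf0
  have hgt := top_ne_zero hg0
  obtain ⟨φ, hφ⟩ := hκf
  obtain ⟨ψ, hψ⟩ := hκg
  have hκ0 : κ ≠ 0 := by rintro rfl; simp at hφ; exact hft hφ
  have hφ0 : φ ≠ 0 := by rintro rfl; simp at hφ; exact hft hφ
  have hψ0 : ψ ≠ 0 := by rintro rfl; simp at hψ; exact hgt hψ
  set a := f.totalDegree with ha
  set b := g.totalDegree with hb
  set c := κ.totalDegree with hc
  have hac : a = c + φ.totalDegree := by
    have := (top_homog f).totalDegree hft
    rw [hφ, totalDegree_mul_of_isDomain hκ0 hφ0] at this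
    exact this.symm
  have hbc : b = c + ψ.totalDegree := by
    have := (top_homog g).totalDegree hgt
    rw [hψ, totalDegree_mul_of_isDomain hκ0 hψ0] at this
    exact this.symm
  set κ' := top κ with hκ'
  have hκ'0 : κ' ≠ 0 := top_ne_zero hκ0
  have hψ'0 : top ψ ≠ 0 := top_ne_zero hψ0
  have hφt : top f = κ' * top φ := by
    have h1 : homogeneousComponent a (top f) = top f := homogeneousComponent_eq_self (top_homog f)
    rw [← h1, hφ, hac, hc, hc.symm, hc, hc.symm]
    rw [hc]
    exact hc_mul (le_refl _) (le_refl _)
  have hψt : top g = κ' * top ψ := by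
    have h1 : homogeneousComponent b (top g) = top g := homogeneousComponent_eq_self (top_homog g)
    rw [← h1, hψ, hbc, hc]
    exact hc_mul (le_refl _) (le_refl _)
  have hc0 : c = 0 := by
    by_contra hcne
    have key : ∀ i : Fin 2, κ' ∣ X i ^ (S.card + c + 1) := by
      intro i
      set e := S.card + c + 1 with he
      set m : MvPolynomial (Fin 2) k := X i ^ e with hm
      have hm0 : m ≠ 0 := pow_ne_zero _ (X_ne_zero i)
      have hmdeg : m.totalDegree = e := by rw [hm, totalDegree_X_pow]
      have hmhom : m.IsHomogeneous e := isHomogeneous_X_pow i e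
      set ψ' := top ψ with hψ'
      set φ' := top φ with hφ'
      have hψdeg : ψ'.totalDegree ≤ ψ.totalDegree := (top_homog ψ).totalDegree_le
      have hφdeg : φ'.totalDegree ≤ φ.totalDegree := (top_homog φ).totalDegree_le
      set h := (ψ' * m) * f - (φ' * m) * g with hh
      set D := (ψ.totalDegree + e) + a with hD
      have hD' : D = (φ.totalDegree + e) + b := by omega
      have hd1 : (ψ' * m).totalDegree ≤ ψ.totalDegree + e := by
        refine (totalDegree_mul _ _).trans ?_
        omega
      have hd2 : (φ' * m).totalDegree ≤ φ.totalDegree + e := by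
        refine (totalDegree_mul _ _).trans ?_
        omega
      have hhc : homogeneousComponent D h = 0 := by
        rw [hh, map_sub, hD, hc_mul hd1 (le_refl _), ← hD, hD', hc_mul hd2 (le_refl _)]
        rw [hc_mul hψdeg hmdeg.le, hc_mul hφdeg hmdeg.le]
        rw [homogeneousComponent_eq_self hmhom, homogeneousComponent_eq_self (top_homog ψ),
          homogeneousComponent_eq_self (top_homog φ)]
        change ψ' * m * top f - φ' * m * top g = 0
        rw [hφt, hψt]
        ring
      have hhdeg : h.totalDegree ≤ D := by
        rw [hh]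
        refine (totalDegree_sub _ _).trans ?_
        apply max_le
        · refine (totalDegree_mul _ _).trans ?_
          omega
        · refine (totalDegree_mul _ _).trans ?_
          omega
      have hhdeg2 : h.totalDegree ≤ D - 1 := by
        rcases deg_lt_of_hc_zero hhdeg hhc with h1 | h1
        · rw [h1]; simp
        · omega
      obtain ⟨u, v, huv, hu, hv⟩ := ci_large f g hf0 hg0 hrel S hf hg hcard h
        (by intro z hz; simp [hh, hf z hz, hg z hz]) (D - 1) (by omega) hhdeg2
      have hdvd : g ∣ (ψ' * m - u) * f := by
        refine ⟨φ' * m + v, ?_⟩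
        have : (ψ' * m) * f - (φ' * m) * g = u * f + v * g := by rw [← huv]
        linear_combination this
      obtain ⟨w, hw⟩ := hrel.symm.dvd_of_dvd_mul_right hdvd
      have hud : u.totalDegree + 1 ≤ ψ.totalDegree + e := by omega
      have hcu : homogeneousComponent (ψ.totalDegree + e) u = 0 :=
        homogeneousComponent_eq_zero _ _ (by omega)
      have hw0 : w ≠ 0 := by
        rintro rfl
        have h3 := congrArg (homogeneousComponent (ψ.totalDegree + e)) hw
        rw [map_sub, hcu, hc_mul hψdeg hmdeg.le, homogeneousComponent_eq_self hmhom,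
          homogeneousComponent_eq_self (top_homog ψ)] at h3
        simp only [sub_zero, mul_zero, map_zero] at h3
        exact mul_ne_zero hψ'0 hm0 h3
      have hwdeg : w.totalDegree + b ≤ ψ.totalDegree + e := by
        have h4 : (ψ' * m - u).totalDegree ≤ ψ.totalDegree + e := by
          refine (totalDegree_sub _ _).trans ?_
          apply max_le hd1
          omega
        rw [hw, totalDegree_mul_of_isDomain hg0 hw0] at h4
        omega
      have h5 := congrArg (homogeneousComponent (ψ.totalDegree + e)) hw
      have h6 : ψ.totalDegree + e = b + (e - c) := by omega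
      rw [map_sub, hcu, hc_mul hψdeg hmdeg.le, homogeneousComponent_eq_self hmhom,
          homogeneousComponent_eq_self (top_homog ψ), h6, hc_mul (le_refl _) (by omega)] at h5
      change ψ' * m - 0 = top g * _ at h5
      rw [hψt, sub_zero] at h5
      refine ⟨homogeneousComponent (e - c) w, ?_⟩
      apply mul_left_cancel₀ hψ'0
      rw [h5]
      ring
    have h1 := unit_of_dvd_pow κ' (S.card + c + 1) (key 0) (key 1)
    have h2 := (top_homog κ).totalDegree hκ'0
    rw [h1] at h2
    exact hcne h2.symm
  rw [hc, totalDegree_eq_zero_iff_eq_C] at hc0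
  rw [hc0]
  apply IsUnit.map
  rw [isUnit_iff_ne_zero]
  intro h
  apply hκ0
  rw [hc0, h, C_0]

/-- The complete intersection property with degree control. -/
theorem ci_rep (f g : MvPolynomial (Fin 2) k) (hf0 : f ≠ 0) (hg0 : g ≠ 0) (hrel : IsRelPrime f g)
    (S : Finset (Fin 2 → k)) (hf : ∀ z ∈ S, eval z f = 0) (hg : ∀ z ∈ S, eval z g = 0)
    (hcard : f.totalDegree * g.totalDegree ≤ S.card) (h : MvPolynomial (Fin 2) k)
    (hh : ∀ z ∈ S, eval z h = 0) (d : ℕ) (hd : h.totalDegree ≤ d) :
    ∃ u v, h = u * f + v * g ∧ (u * f).totalDegree ≤ d ∧ (v * g).totalDegree ≤ d := by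
  have hrt := ci_top f g hf0 hg0 hrel S hf hg hcard
  have hgt := top_ne_zero hg0
  set a := f.totalDegree with ha
  set b := g.totalDegree with hb
  have main : ∀ n D : ℕ, d ≤ D → D = d + n →
      (∃ u v, h = u * f + v * g ∧ (u * f).totalDegree ≤ D ∧ (v * g).totalDegree ≤ D) →
      ∃ u v, h = u * f + v * g ∧ (u * f).totalDegree ≤ d ∧ (v * g).totalDegree ≤ d := by
    intro n
    induction n with
    | zero =>
      intro D _ hD2 h
      rw [hD2] at h
      simpa using h
    | succ n ih =>
      rintro D hD1 hD2 ⟨u, v, huv, hu, hv⟩
      apply ih (d + n) (by omega) rfl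
      have hDD : D = (d + n) + 1 := by omega
      by_cases hu0 : u = 0
      · refine ⟨u, v, huv, by simp [hu0], ?_⟩
        have : v * g = h := by rw [huv, hu0]; ring
        rw [this]; omega
      by_cases hv0 : v = 0
      · refine ⟨u, v, huv, ?_, by simp [hv0]⟩
        have : u * f = h := by rw [huv, hv0]; ring
        rw [this]; omega
      rw [totalDegree_mul_of_isDomain hu0 hf0] at hu
      rw [totalDegree_mul_of_isDomain hv0 hg0] at hv
      obtain ⟨p, hp⟩ : ∃ p, D = p + a := ⟨D - a, by omega⟩
      obtain ⟨q, hq⟩ : ∃ q, D = q + b := ⟨D - b, by omega⟩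
      have hup : u.totalDegree ≤ p := by omega
      have hvq : v.totalDegree ≤ q := by omega
      have e1 : homogeneousComponent p u * top f + homogeneousComponent q v * top g = 0 := by
        have h1 : homogeneousComponent D h = 0 := homogeneousComponent_eq_zero _ _ (by omega)
        rw [huv, map_add] at h1
        have h2 : homogeneousComponent D (u * f) = homogeneousComponent p u * top f := by
          rw [hp]; exact hc_mul hup (le_refl _)
        have h3 : homogeneousComponent D (v * g) = homogeneousComponent q v * top g := by
          rw [hq]; exact hc_mul hvq (le_refl _)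
        rw [h2, h3] at h1
        exact h1
      have hdvd : top g ∣ homogeneousComponent p u * top f :=
        ⟨-homogeneousComponent q v, by linear_combination e1⟩
      obtain ⟨w, hw⟩ := hrt.symm.dvd_of_dvd_mul_right hdvd
      have hw2 : homogeneousComponent q v = -(w * top f) := by
        apply mul_right_cancel₀ hgt
        rw [hw] at e1
        linear_combination e1
      have hup' : (homogeneousComponent p u).IsHomogeneous p :=
        homogeneousComponent_isHomogeneous _ _
      by_cases hw0 : w = 0
      · rw [hw0] at hw hw2
        rw [mul_zero] at hw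
        rw [zero_mul, neg_zero] at hw2
        refine ⟨u, v, huv, ?_, ?_⟩
        · rw [totalDegree_mul_of_isDomain hu0 hf0]
          rcases deg_lt_of_hc_zero hup hw with h1 | h1
          · exact absurd h1 hu0
          · omega
        · rw [totalDegree_mul_of_isDomain hv0 hg0]
          rcases deg_lt_of_hc_zero hvq hw2 with h1 | h1
          · exact absurd h1 hv0
          · omega
      have hwdeg : w.totalDegree + b ≤ p := by
        have h1 := hup'.totalDegree_le
        rw [hw, totalDegree_mul_of_isDomain hgt hw0, (top_homog g).totalDegree hgt] at h1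
        omega
      obtain ⟨r, hr⟩ : ∃ r, p = r + b := ⟨p - b, by omega⟩
      have hwr : w.totalDegree ≤ r := by omega
      have hwhom : homogeneousComponent r w = w := by
        have h1 : homogeneousComponent p (homogeneousComponent p u) = homogeneousComponent p u :=
          homogeneousComponent_eq_self hup'
        rw [hw, mul_comm, hr, hc_mul hwr (top_homog g).totalDegree_le,
          homogeneousComponent_eq_self (top_homog g)] at h1
        exact mul_right_cancel₀ hgt h1
      have hqr : q = r + a := by omega
      refine ⟨u - w * g, v + w * f, by rw [huv]; ring, ?_, ?_⟩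
      · have h1 : homogeneousComponent p (u - w * g) = 0 := by
          rw [map_sub, hw, hr, hc_mul hwr (le_refl _), hwhom]
          change top g * w - w * top g = 0
          ring
        have h2 : (u - w * g).totalDegree ≤ p := by
          refine (totalDegree_sub _ _).trans ?_
          apply max_le hup
          refine (totalDegree_mul _ _).trans ?_
          omega
        rcases deg_lt_of_hc_zero h2 h1 with h3 | h3
        · rw [h3]; simp
        · refine (totalDegree_mul _ _).trans ?_
          omega
      · have h1 : homogeneousComponent q (v + w * f) = 0 := by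
          rw [map_add, hw2, hqr, hc_mul hwr (le_refl _), hwhom]
          change -(w * top f) + w * top f = 0
          ring
        have h2 : (v + w * f).totalDegree ≤ q := by
          refine (totalDegree_add _ _).trans ?_
          apply max_le hvq
          refine (totalDegree_mul _ _).trans ?_
          omega
        rcases deg_lt_of_hc_zero h2 h1 with h3 | h3
        · rw [h3]; simp
        · refine (totalDegree_mul _ _).trans ?_
          omega
  obtain ⟨u, v, huv, hu, hv⟩ := ci_large f g hf0 hg0 hrel S hf hg hcard h hh
    (d + (S.card + f.totalDegree + g.totalDegree)) (by omega) (by omega)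
  exact main (S.card + f.totalDegree + g.totalDegree)
    (d + (S.card + f.totalDegree + g.totalDegree)) (by omega) rfl
    ⟨u, v, huv, (totalDegree_mul _ _).trans hu, (totalDegree_mul _ _).trans hv⟩

end Pool.Agent.Geproci
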