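import Mathlib

set_option autoImplicit false

open MvPolynomial

namespace Pool.Agent.Geproci

lemma pderiv_comm' (i j : Fin 4) (p : MvPolynomial (Fin 4) ℂ) :
    pderiv i (pderiv j p) = pderiv j (pderiv i p) := by
  have h : ⁅(pderiv i : Derivation ℂ (MvPolynomial (Fin 4) ℂ) (MvPolynomial (Fin 4) ℂ)),
      (pderiv j : Derivation ℂ (MvPolynomial (Fin 4) ℂ) (MvPolynomial (Fin 4) ℂ))⁆ = 0 := by
    apply MvPolynomial.derivation_ext
    intro k
    rw [Derivation.commutator_apply, pderiv_X, pderiv_X]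
    simp only [Pi.single_apply, Derivation.coe_zero, Pi.zero_apply]
    split_ifs <;> simp
  have h2 := congrArg (fun D : Derivation ℂ (MvPolynomial (Fin 4) ℂ) (MvPolynomial (Fin 4) ℂ) =>
    D p) h
  simp only [Derivation.commutator_apply, Derivation.coe_zero, Pi.zero_apply] at h2
  exact sub_eq_zero.mp h2

/-- a quadratic polynomial with no singular zero gives a nondegenerate quadratic form. -/
lemma exists_qf (q : MvPolynomial (Fin 4) ℂ) (hq : q.IsHomogeneous 2)
    (hnd : ∀ v : Fin 4 → ℂ, (∀ i, eval v (pderiv i q) = 0) → v = 0) :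
    ∃ Q : QuadraticForm ℂ (Fin 4 → ℂ), (∀ v, Q v = eval v q) ∧
      (QuadraticMap.associated Q).SeparatingLeft := by
  have h1 : ∀ i, (pderiv i q).IsHomogeneous 1 := fun i => hq.pderiv
  have h2 : ∀ i, ∃ c : Fin 4 → ℂ, ∑ j, c j • (X j : MvPolynomial (Fin 4) ℂ) = pderiv i q := by
    intro i
    have h3 : pderiv i q ∈ homogeneousSubmodule (Fin 4) ℂ 1 := h1 i
    rw [homogeneousSubmodule_one_eq_span_X] at h3
    exact (Submodule.mem_span_range_iff_exists_fun ℂ).mp h3
  choose c hc using h2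
  have hsym : ∀ i j, c i j = c j i := by
    intro i j
    have h3 : ∀ a b, pderiv a (pderiv b q) = C (c b a) := by
      intro a b
      rw [← hc b, map_sum, Finset.sum_eq_single a]
      · rw [Derivation.map_smul, pderiv_X_self, MvPolynomial.smul_eq_C_mul, mul_one]
      · intro k _ hk
        rw [Derivation.map_smul, pderiv_X_of_ne hk, smul_zero]
      · intro h; exact absurd (Finset.mem_univ _) h
    have h4 := pderiv_comm' i j q
    rw [h3, h3] at h4
    exact (C_injective _ _ h4).symm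
  have hev : ∀ i (v : Fin 4 → ℂ), eval v (pderiv i q) = ∑ j, c i j * v j := by
    intro i v
    rw [← hc i, map_sum]
    apply Finset.sum_congr rfl
    intro j _
    rw [smul_eval, eval_X]
  have heu : ∀ v : Fin 4 → ℂ, 2 * eval v q = ∑ i, v i * ∑ j, c i j * v j := by
    intro v
    have h3 := congrArg (eval v) hq.sum_X_mul_pderiv
    rw [map_sum] at h3
    simp only [map_mul, eval_X, hev] at h3
    rw [h3]
    simp
  let B : LinearMap.BilinMap ℂ (Fin 4 → ℂ) ℂ := (1/2 : ℂ) • Matrix.toLinearMap₂' ℂ (Matrix.of c)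
  have hB : ∀ v w, B v w = (1/2) * ∑ i, v i * ∑ j, c i j * w j := by
    intro v w
    simp only [B, LinearMap.smul_apply, Matrix.toLinearMap₂'_apply', dotProduct, Matrix.mulVec,
      smul_eq_mul, Matrix.of_apply]
  have hBs : ∀ v w, B v w = B w v := by
    intro v w
    rw [hB, hB]
    simp only [Finset.mul_sum]
    rw [Finset.sum_comm]
    apply Finset.sum_congr rfl
    intro i _
    apply Finset.sum_congr rfl
    intro j _
    rw [hsym i j]
    ring
  refine ⟨B.toQuadraticMap, ?_, ?_⟩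
  · intro v
    rw [LinearMap.BilinMap.toQuadraticMap_apply, hB, ← heu]
    ring
  · rw [QuadraticMap.associated_left_inverse _ hBs]
    intro x hx
    apply hnd
    intro i
    rw [hev]
    have h3 := hx (Pi.single i 1)
    rw [hBs, hB, Finset.sum_eq_single i] at h3
    · simp only [Pi.single_eq_same, one_mul] at h3
      have h4 : (1/2 : ℂ) ≠ 0 := by norm_num
      exact (mul_eq_zero.mp h3).resolve_left h4
    · intro k _ hk
      rw [Pi.single_eq_of_ne hk, zero_mul]
    · intro h; exact absurd (Finset.mem_univ _) h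

/-- the standard quadric. -/
noncomputable def qstd : MvPolynomial (Fin 4) ℂ := X 0 * X 3 - X 1 * X 2

lemma eval_qstd (v : Fin 4 → ℂ) : eval v qstd = v 0 * v 3 - v 1 * v 2 := by
  simp [qstd]

lemma qstd_homog : qstd.IsHomogeneous 2 := by
  have h1 : ∀ i j : Fin 4, (X i * X j : MvPolynomial (Fin 4) ℂ).IsHomogeneous 2 :=
    fun i j => (isHomogeneous_X _ i).mul (isHomogeneous_X _ j)
  exact (h1 0 3).sub (h1 1 2)

lemma qstd_nd (v : Fin 4 → ℂ) (h : ∀ i, eval v (pderiv i qstd) = 0) : v = 0 := by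
  have h0 := h 0
  have h1 := h 1
  have h2 := h 2
  have h3 := h 3
  simp [qstd, pderiv_mul, pderiv_X, Pi.single_apply] at h0 h1 h2 h3
  funext i
  fin_cases i <;> simp_all

theorem exists_coord (q : MvPolynomial (Fin 4) ℂ) (hq : q.IsHomogeneous 2)
    (hnd : ∀ v : Fin 4 → ℂ, (∀ i, eval v (pderiv i q) = 0) → v = 0) :
    ∃ E : (Fin 4 → ℂ) ≃ₗ[ℂ] (Fin 4 → ℂ), ∀ x, eval (E x) q = x 0 * x 3 - x 1 * x 2 := by
  obtain ⟨Q, hQ1, hQ2⟩ := exists_qf q hq hnd
  obtain ⟨Q', hQ1', hQ2'⟩ := exists_qf qstd qstd_homog qstd_nd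
  obtain ⟨e⟩ := QuadraticForm.equivalent_of_isAlgClosed Q' Q hQ2' hQ2
  refine ⟨e.toLinearEquiv, fun x => ?_⟩
  rw [← eval_qstd, ← hQ1', ← hQ1]
  exact e.map_app x

/-- an isometry of the standard quadric moving the plane at infinity. -/
noncomputable def mv (ε δ : ℂ) : (Fin 4 → ℂ) ≃ₗ[ℂ] (Fin 4 → ℂ) where
  toFun x := ![x 0 + ε * x 1 + δ * x 2 + ε * δ * x 3, x 1 + δ * x 3, x 2 + ε * x 3, x 3]
  invFun x := ![x 0 - ε * x 1 - δ * x 2 + ε * δ * x 3, x 1 - δ * x 3, x 2 - ε * x 3, x 3]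
  map_add' x y := by
    funext i
    fin_cases i <;> simp <;> ring
  map_smul' c x := by
    funext i
    fin_cases i <;> simp <;> ring
  left_inv x := by
    funext i
    fin_cases i <;> simp <;> ring
  right_inv x := by
    funext i
    fin_cases i <;> simp <;> ring

lemma mv_apply (ε δ : ℂ) (x : Fin 4 → ℂ) :
    mv ε δ x = ![x 0 + ε * x 1 + δ * x 2 + ε * δ * x 3, x 1 + δ * x 3, x 2 + ε * x 3, x 3] := rfl

lemma mv_quad (ε δ : ℂ) (x : Fin 4 → ℂ) :
    mv ε δ x 0 * mv ε δ x 3 - mv ε δ x 1 * mv ε δ x 2 = x 0 * x 3 - x 1 * x 2 := by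
  rw [mv_apply]
  simp
  ring

theorem exists_coord_affine (q : MvPolynomial (Fin 4) ℂ) (hq : q.IsHomogeneous 2)
    (hnd : ∀ v : Fin 4 → ℂ, (∀ i, eval v (pderiv i q) = 0) → v = 0)
    (R : Finset (Fin 4 → ℂ)) (hR : ∀ v ∈ R, v ≠ 0) :
    ∃ E : (Fin 4 → ℂ) ≃ₗ[ℂ] (Fin 4 → ℂ), (∀ x, eval (E x) q = x 0 * x 3 - x 1 * x 2) ∧
      ∀ v ∈ R, E.symm v 0 ≠ 0 := by
  obtain ⟨E, hE⟩ := exists_coord q hq hnd
  -- the polynomial in `(ε, δ)`
  let g : (Fin 4 → ℂ) → MvPolynomial (Fin 2) ℂ := fun x =>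
    C (x 0) + X 0 * C (x 1) + X 1 * C (x 2) + X 0 * X 1 * C (x 3)
  have hg : ∀ x : Fin 4 → ℂ, x ≠ 0 → g x ≠ 0 := by
    intro x hx hcon
    apply hx
    have e1 := congrArg (eval ![0, 0]) hcon
    have e2 := congrArg (eval ![1, 0]) hcon
    have e3 := congrArg (eval ![0, 1]) hcon
    have e4 := congrArg (eval ![1, 1]) hcon
    simp [g] at e1 e2 e3 e4
    rw [e1] at e2 e3 e4
    simp at e2 e3
    rw [e2, e3] at e4
    simp at e4
    funext i
    fin_cases i <;> simp [e1, e2, e3, e4]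
  have hprod : (∏ v ∈ R, g (E.symm v)) ≠ 0 := by
    rw [Finset.prod_ne_zero_iff]
    intro v hv
    apply hg
    intro h
    exact hR v hv (by simpa using h)
  obtain ⟨p, hp⟩ : ∃ p : Fin 2 → ℂ, eval p (∏ v ∈ R, g (E.symm v)) ≠ 0 := by
    by_contra hcon
    push Not at hcon
    exact hprod (MvPolynomial.funext fun x => by rw [hcon x, map_zero])
  rw [map_prod, Finset.prod_ne_zero_iff] at hp
  refine ⟨(mv (p 0) (p 1)).symm.trans E, ?_, ?_⟩
  · intro x
    rw [LinearEquiv.trans_apply, hE, ← mv_quad (p 0) (p 1), LinearEquiv.apply_symm_apply]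
  · intro v hv
    have h1 := hp v hv
    have h2 : ((mv (p 0) (p 1)).symm.trans E).symm v = mv (p 0) (p 1) (E.symm v) := rfl
    rw [h2, mv_apply]
    simp only [g, map_add, map_mul, eval_C, eval_X] at h1
    simpa using h1

end Pool.Agent.Geproci
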