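import Pool.Agent.Lib_MP_9828eb_ag.Step1

set_option autoImplicit false

open MvPolynomial

namespace Pool.Agent.Geproci

/-- the function field `ℂ(s,t)`. -/
abbrev KK : Type := FractionRing (MvPolynomial (Fin 2) ℂ)

/-- first order deformation homomorphism on polynomials. -/
noncomputable def dhom (i : Fin 2) : MvPolynomial (Fin 2) ℂ →ₐ[ℂ] TrivSqZeroExt KK KK :=
  aeval (fun j => TrivSqZeroExt.inl (algebraMap (MvPolynomial (Fin 2) ℂ) KK (X j)) +
    TrivSqZeroExt.inr (if i = j then 1 else 0))

lemma fst_dhom (i : Fin 2) (a : MvPolynomial (Fin 2) ℂ) :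
    (dhom i a).fst = algebraMap (MvPolynomial (Fin 2) ℂ) KK a := by
  have h : (TrivSqZeroExt.fstHom ℂ KK KK).comp (dhom i) =
      IsScalarTower.toAlgHom ℂ (MvPolynomial (Fin 2) ℂ) KK := by
    apply MvPolynomial.algHom_ext
    intro j
    by_cases h : i = j <;> simp [dhom, h]
  have := congrArg (fun f => f a) h
  simpa using this

/-- first order deformation homomorphism on the field. -/
noncomputable def dlift (i : Fin 2) : KK →+* TrivSqZeroExt KK KK :=
  IsLocalization.lift (M := nonZeroDivisors (MvPolynomial (Fin 2) ℂ)) (g := (dhom i).toRingHom)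
    (by
      intro y
      rw [TrivSqZeroExt.isUnit_iff_isUnit_fst]
      change IsUnit ((dhom i) y.1).fst
      rw [fst_dhom, isUnit_iff_ne_zero]
      intro h0
      have h1 : (y : MvPolynomial (Fin 2) ℂ) = 0 :=
        (IsFractionRing.injective (MvPolynomial (Fin 2) ℂ) KK) (by rw [h0, map_zero])
      exact nonZeroDivisors.ne_zero y.2 h1)

lemma dlift_algebraMap (i : Fin 2) (a : MvPolynomial (Fin 2) ℂ) :
    dlift i (algebraMap _ KK a) = dhom i a := by
  rw [dlift, IsLocalization.lift_eq]
  rfl

lemma fst_dlift (i : Fin 2) (x : KK) : (dlift i x).fst = x := by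
  have h : (TrivSqZeroExt.fstHom ℂ KK KK).toRingHom.comp (dlift i) = RingHom.id KK := by
    apply IsLocalization.ringHom_ext (nonZeroDivisors (MvPolynomial (Fin 2) ℂ))
    apply RingHom.ext
    intro a
    change (dlift i (algebraMap _ KK a)).fst = algebraMap _ KK a
    rw [dlift_algebraMap, fst_dhom]
  have := congrArg (fun f => f x) h
  simpa using this

lemma algebraMap_eq_comp (c : ℂ) :
    algebraMap ℂ KK c = algebraMap (MvPolynomial (Fin 2) ℂ) KK (C c) := by
  rw [IsScalarTower.algebraMap_apply ℂ (MvPolynomial (Fin 2) ℂ) KK, algebraMap_eq]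

lemma dlift_complex (i : Fin 2) (c : ℂ) :
    (dlift i (algebraMap ℂ KK c)).snd = 0 := by
  rw [algebraMap_eq_comp, dlift_algebraMap, dhom, aeval_C]
  rfl

/-- partial derivatives on `ℂ(s,t)`. -/
noncomputable def dd (i : Fin 2) : Derivation ℂ KK KK where
  toFun x := (dlift i x).snd
  map_add' x y := by simp
  map_smul' c x := by
    rw [Algebra.smul_def, map_mul, TrivSqZeroExt.snd_mul, dlift_complex, fst_dlift, fst_dlift]
    simp [Algebra.smul_def]
  map_one_eq_zero' := by simp
  leibniz' x y := by
    simp only [LinearMap.coe_mk, AddHom.coe_mk]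
    rw [map_mul, TrivSqZeroExt.snd_mul, fst_dlift, fst_dlift]
    simp [mul_comm]

/-- coordinates of the generic point. -/
noncomputable def st (j : Fin 2) : KK := algebraMap (MvPolynomial (Fin 2) ℂ) KK (X j)

lemma coord_st : Coord dd st := by
  intro i j
  change (dlift i (st j)).snd = _
  rw [st, dlift_algebraMap, dhom, aeval_X]
  by_cases h : i = j <;> simp [h]

instance : CharZero KK := by
  apply charZero_of_injective_algebraMap (R := ℂ)
  exact (algebraMap ℂ KK).injective

end Pool.Agent.Geproci
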