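import Pool.Agent.Lib_MP_9828eb_ag.Affine
import Pool.Agent.Lib_MP_9828eb_ag.FieldK

set_option autoImplicit false

open MvPolynomial

namespace Pool.Agent.Geproci

lemma exists_eval_ne_zero {τ : Type*} {g : MvPolynomial τ ℂ} (hg : g ≠ 0) :
    ∃ x : τ → ℂ, eval x g ≠ 0 := by
  by_contra hcon
  push Not at hcon
  apply hg
  apply MvPolynomial.funext
  intro x
  rw [hcon x, map_zero]

/-- the third projective coordinate, as a polynomial in the centre. -/
noncomputable def wwP (z : Fin 2 → ℂ) : MvPolynomial (Fin 3) ℂ :=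
  (C (z 0) - X 0) * (C (z 1) - X 1) - X 2

lemma eval_wwP (z : Fin 2 → ℂ) (π : Fin 3 → ℂ) : eval π (wwP z) = ww π z := by
  simp [wwP, ww]

lemma wwP_ne_zero (z : Fin 2 → ℂ) : wwP z ≠ 0 := by
  intro h
  have h1 := congrArg (eval ![z 0, z 1, 1]) h
  rw [eval_wwP, map_zero] at h1
  simp [ww] at h1

/-- the evaluation matrix in degree `d`. -/
noncomputable def MM (Z : Finset (Fin 2 → ℂ)) (d : ℕ) :
    Matrix Z (TT d) (MvPolynomial (Fin 3) ℂ) :=
  fun z e => (C (z.1 1) - X 1) ^ (e.1 : Fin 2 →₀ ℕ) 0 * (C (z.1 0) - X 0) ^ (e.1 : Fin 2 →₀ ℕ) 1 *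
    wwP z.1 ^ (d - ((e.1 : Fin 2 →₀ ℕ) 0 + (e.1 : Fin 2 →₀ ℕ) 1))

lemma rank_MM_eval (Z : Finset (Fin 2 → ℂ)) (d : ℕ) (π : Fin 3 → ℂ)
    (hw : ∀ z ∈ Z, ww π z ≠ 0) :
    ((MM Z d).map (eval π)).rank =
      Module.finrank ℂ (LinearMap.range (evq (V ℂ d) (fun z : Z => qq π z.1))) := by
  apply rank_eq d (fun z : Z => qq π z.1) (fun z => ww π z.1 ^ d)
    (fun z => pow_ne_zero _ (hw z.1 z.2))
  intro z e
  have he : e.1 0 + e.1 1 ≤ d := e.2
  have h0 := hw z.1 z.2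
  rw [Matrix.map_apply, MM, map_mul, map_mul, map_pow, map_pow, map_pow, eval_wwP, map_sub,
    map_sub, eval_C, eval_C, eval_X, eval_X, Fin.prod_univ_two]
  obtain ⟨m, hm⟩ : ∃ m, d = e.1 0 + e.1 1 + m := ⟨d - (e.1 0 + e.1 1), by omega⟩
  have h2 : d - (e.1 0 + e.1 1) = m := by omega
  rw [h2]
  have h3 : ww π z.1 ^ d = ww π z.1 ^ e.1 0 * ww π z.1 ^ e.1 1 * ww π z.1 ^ m := by
    rw [← pow_add, ← pow_add, ← hm]
  rw [h3]
  simp only [qq, Matrix.cons_val_zero, Matrix.cons_val_one]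
  rw [div_pow, div_pow]
  field_simp

/-- specialisation to the generic point of the quadric. -/
noncomputable def gen : MvPolynomial (Fin 3) ℂ →+* KK :=
  (aeval ![st 0, st 1, 0] : MvPolynomial (Fin 3) ℂ →ₐ[ℂ] KK).toRingHom

lemma rank_MM_gen (Z : Finset (Fin 2 → ℂ)) (d : ℕ) :
    ((MM Z d).map gen).rank =
      Module.finrank KK (LinearMap.range (evq (V KK d) (fun z : Z => pr st z.1))) := by
  have hne : ∀ (z : Fin 2 → ℂ) (i : Fin 2), algebraMap ℂ KK (z i) - st i ≠ 0 :=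
    fun z i => sub_ne coord_st z i
  apply rank_eq d (fun z : Z => pr st z.1)
    (fun z => ((algebraMap ℂ KK (z.1 0) - st 0) * (algebraMap ℂ KK (z.1 1) - st 1)) ^ d)
    (fun z => pow_ne_zero _ (mul_ne_zero (hne z.1 0) (hne z.1 1)))
  intro z e
  have he : e.1 0 + e.1 1 ≤ d := e.2
  have h0 := hne z.1 0
  have h1 := hne z.1 1
  have g0 : ∀ c : ℂ, gen (C c) = algebraMap ℂ KK c := by
    intro c
    simp [gen]
  have g1 : gen (X 0) = st 0 := by simp [gen]
  have g2 : gen (X 1) = st 1 := by simp [gen]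
  have g3 : gen (X 2) = 0 := by simp [gen]
  rw [Matrix.map_apply, MM, wwP, map_mul, map_mul, map_pow, map_pow, map_pow, map_sub, map_sub,
    map_sub, map_mul, map_sub, map_sub, g0, g0, g1, g2, g3, Fin.prod_univ_two]
  obtain ⟨m, hm⟩ : ∃ m, d = e.1 0 + e.1 1 + m := ⟨d - (e.1 0 + e.1 1), by omega⟩
  have h2 : d - (e.1 0 + e.1 1) = m := by omega
  rw [h2, sub_zero]
  set x := algebraMap ℂ KK (z.1 0) - st 0 with hx
  set y := algebraMap ℂ KK (z.1 1) - st 1 with hy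
  have h3 : (x * y) ^ d = (x * y) ^ e.1 0 * (x * y) ^ e.1 1 * (x * y) ^ m := by
    rw [← pow_add, ← pow_add, ← hm]
  rw [h3]
  change y ^ e.1 0 * x ^ e.1 1 * (x * y) ^ m =
    (x * y) ^ e.1 0 * (x * y) ^ e.1 1 * (x * y) ^ m * (x⁻¹ ^ e.1 0 * y⁻¹ ^ e.1 1)
  rw [inv_pow, inv_pow, mul_pow x y (e.1 0), mul_pow x y (e.1 1)]
  have p1 := pow_ne_zero (e.1 0) h0
  have p2 := pow_ne_zero (e.1 1) h1
  field_simp

theorem concl_of_dense (Z : Finset (Fin 2 → ℂ)) (hZ : Z.Nonempty) (H : MvPolynomial (Fin 3) ℂ)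
    (hH : H ≠ 0) (hcip : ∀ π, eval π H ≠ 0 → CIP Z π)
    (hnd : ∀ c : MvPolynomial (Fin 2) ℂ, c ≠ 0 → c.degreeOf 0 ≤ 1 → c.degreeOf 1 ≤ 1 →
      ∃ z ∈ Z, eval z c ≠ 0) : Concl Z := by
  classical
  set N := Z.card with hN
  set R : MvPolynomial (Fin 3) ℂ := H * X 2 * ∏ z ∈ Z, wwP z with hR
  have hR0 : R ≠ 0 := by
    rw [hR]
    refine mul_ne_zero (mul_ne_zero hH (X_ne_zero _)) ?_
    rw [Finset.prod_ne_zero_iff]
    exact fun z _ => wwP_ne_zero z
  have hdense : ∃ a b, ∀ g : MvPolynomial (Fin 3) ℂ, g ≠ 0 → ∃ π, Good Z π a b ∧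
      (∀ z ∈ Z, ww π z ≠ 0) ∧ eval π g ≠ 0 := by
    by_contra hcon
    push Not at hcon
    choose g hg0 hg1 using hcon
    obtain ⟨π, hπ⟩ := exists_eval_ne_zero (g := R * ∏ a ∈ Finset.range (N + 1),
      ∏ b ∈ Finset.range (N + 1), g a b) (by
        refine mul_ne_zero hR0 ?_
        rw [Finset.prod_ne_zero_iff]
        intro a _
        rw [Finset.prod_ne_zero_iff]
        exact fun b _ => hg0 a b)
    rw [map_mul, hR, map_mul, map_mul, map_prod, eval_X] at hπ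
    have h1 := left_ne_zero_of_mul hπ
    have h2 := right_ne_zero_of_mul hπ
    have h3 := left_ne_zero_of_mul h1
    have h4 := right_ne_zero_of_mul h1
    have hHπ := left_ne_zero_of_mul h3
    have hρ := right_ne_zero_of_mul h3
    have hw : ∀ z ∈ Z, ww π z ≠ 0 := by
      intro z hz
      rw [Finset.prod_ne_zero_iff] at h4
      have := h4 z hz
      rwa [eval_wwP] at this
    obtain ⟨a, b, hab⟩ := good_of_cip Z hZ π hρ hw (hcip π hHπ)
    have hab' := hab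
    obtain ⟨ha1, hab1, hcard, -, -, -⟩ := hab'
    have hbN : b ≤ N := by
      have : 1 * b ≤ a * b := Nat.mul_le_mul_right _ ha1
      omega
    rw [map_prod, Finset.prod_ne_zero_iff] at h2
    have h5 := h2 a (Finset.mem_range.mpr (by omega))
    rw [map_prod, Finset.prod_ne_zero_iff] at h5
    have h6 := h5 b (Finset.mem_range.mpr (by omega))
    exact h6 (hg1 a b π hab hw)
  obtain ⟨a, b, hab⟩ := hdense
  obtain ⟨π0, hgood0, -, -⟩ := hab 1 one_ne_zero
  obtain ⟨ha1, hab1, hcard, hra, hrb, hbi⟩ := hgood0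
  set U : Set (Fin 3 → ℂ) := {π | Good Z π a b ∧ ∀ z ∈ Z, ww π z ≠ 0} with hU
  have hUd : ∀ g : MvPolynomial (Fin 3) ℂ, g ≠ 0 → ∃ π ∈ U, eval π g ≠ 0 := by
    intro g hg
    obtain ⟨π, h1, h2, h3⟩ := hab g hg
    exact ⟨π, ⟨h1, h2⟩, h3⟩
  have ta : ((MM Z a).map gen).rank ≤ Module.finrank ℂ (V ℂ a) - 1 := by
    apply rank_transfer (MM Z a) gen U hUd
    rintro π ⟨⟨-, -, -, h1, -, -⟩, hw⟩
    rw [rank_MM_eval Z a π hw]
    omega
  have tb : ((MM Z b).map gen).rank ≤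
      Module.finrank ℂ (V ℂ b) - Module.finrank ℂ (V ℂ (b - a)) - 1 := by
    apply rank_transfer (MM Z b) gen U hUd
    rintro π ⟨⟨-, -, -, -, h1, -⟩, hw⟩
    rw [rank_MM_eval Z b π hw]
    omega
  rw [rank_MM_gen] at ta tb
  have fV : ∀ d, Module.finrank KK (V KK d) = Module.finrank ℂ (V ℂ d) := by
    intro d
    have h1 := finrank_V (k := KK) d
    have h2 := finrank_V (k := ℂ) d
    omega
  have ka := LinearMap.finrank_range_add_finrank_ker (evq (V KK a) (fun z : Z => pr st z.1))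
  have kb := LinearMap.finrank_range_add_finrank_ker (evq (V KK b) (fun z : Z => pr st z.1))
  rw [fV] at ka kb
  apply core (K := KK) (δ := dd) (σ := st) coord_st Z a b ha1 hab1 hcard _ _ hbi hnd
  · have h1 : 1 ≤ Module.finrank KK (LinearMap.ker (evq (V KK a) (fun z : Z => pr st z.1))) := by
      omega
    rw [Submodule.one_le_finrank_iff, Submodule.ne_bot_iff] at h1
    obtain ⟨F, hF, hF0⟩ := h1
    refine ⟨F.1, fun h => hF0 (Subtype.ext h), mem_V.mp F.2, ?_⟩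
    intro z hz
    exact mem_ker_evq.mp hF ⟨z, hz⟩
  · intro F hF0 hFd hFz
    by_contra hcon
    push Not at hcon
    let μ : V KK (b - a) →ₗ[KK] MvPolynomial (Fin 2) KK :=
      { toFun := fun v => F * v.1
        map_add' := fun x y => by simp [mul_add]
        map_smul' := fun c x => by simp }
    have h1 := finrank_ker_le_of_le (V KK b) (fun z : Z => pr st z.1) (LinearMap.range μ) (by
      intro g hg hgz
      obtain ⟨s, hs⟩ := hcon g (mem_V.mp hg) (fun z hz => hgz ⟨z, hz⟩)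
      have hsV : s ∈ V KK (b - a) := by
        by_cases hs0 : s = 0
        · rw [hs0]; exact Submodule.zero_mem _
        · have h2 := mem_V.mp hg
          rw [hs, totalDegree_mul_of_isDomain hF0 hs0, hFd] at h2
          rw [mem_V]; omega
      exact ⟨⟨s, hsV⟩, hs.symm⟩)
    have h2 : Module.finrank KK (LinearMap.range μ) ≤ Module.finrank KK (V KK (b - a)) :=
      LinearMap.finrank_range_le μ
    rw [fV] at h2
    omega

end Pool.Agent.Geproci
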