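import Pool.Agent.Lib_MP_9828eb_ag.CI

set_option autoImplicit false

open MvPolynomial

namespace Pool.Agent.Geproci

variable {K : Type*} [Field K]

lemma fin2_ne (i : Fin 2) : i + 1 ≠ i := by fin_cases i <;> decide
lemma fin2_ne' (i : Fin 2) : i ≠ i + 1 := by fin_cases i <;> decide
lemma fin2_add (i : Fin 2) : i + 1 + 1 = i := by fin_cases i <;> decide
lemma fin2_cases (i j : Fin 2) : j = i ∨ j = i + 1 := by fin_cases i <;> fin_cases j <;> decide

lemma prod_fin2 {M : Type*} [CommMonoid M] (i : Fin 2) (f : Fin 2 → M) :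
    ∏ j, f j = f i * f (i + 1) := by
  rw [Fin.prod_univ_two]
  rcases fin2_cases 0 i with h | h
  · subst h; rfl
  · subst h
    rw [mul_comm]
    rfl

lemma sum_fin2 {M : Type*} [AddCommMonoid M] (i : Fin 2) (f : Fin 2 → M) :
    ∑ j, f j = f i + f (i + 1) := by
  rw [Fin.sum_univ_two]
  rcases fin2_cases 0 i with h | h
  · subst h; rfl
  · subst h
    rw [add_comm]
    rfl

/-- exponent vector with `a` at `i` and `b` at the other index. -/
noncomputable def ex (i : Fin 2) (a b : ℕ) : Fin 2 →₀ ℕ :=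
  Finsupp.single i a + Finsupp.single (i + 1) b

@[simp] lemma ex_self (i : Fin 2) (a b : ℕ) : ex i a b i = a := by
  simp [ex]

@[simp] lemma ex_other (i : Fin 2) (a b : ℕ) : ex i a b (i + 1) = b := by
  simp [ex]

lemma ex_eq (i : Fin 2) (n : Fin 2 →₀ ℕ) : n = ex i (n i) (n (i + 1)) := by
  ext j
  rcases fin2_cases i j with h | h
  · subst h; simp
  · subst h; simp

lemma ex_swap (i : Fin 2) (a b : ℕ) : ex (i + 1) a b = ex i b a := by
  rw [ex, ex, fin2_add, add_comm]

lemma ex_degree (i : Fin 2) (a b : ℕ) : (ex i a b).degree = a + b := by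
  simp [ex]

/-- coefficient of `X_i^a X_{i+1}^b`. -/
noncomputable def cf (i : Fin 2) (f : MvPolynomial (Fin 2) K) (a b : ℕ) : K := coeff (ex i a b) f

lemma cf_swap (i : Fin 2) (f : MvPolynomial (Fin 2) K) (a b : ℕ) :
    cf (i + 1) f a b = cf i f b a := by
  rw [cf, cf, ex_swap]

lemma cf_ext (i : Fin 2) {f g : MvPolynomial (Fin 2) K} (h : ∀ a b, cf i f a b = cf i g a b) :
    f = g := by
  ext n
  rw [ex_eq i n]
  exact h _ _

@[simp] lemma cf_zero (i : Fin 2) (a b : ℕ) : cf i (0 : MvPolynomial (Fin 2) K) a b = 0 := by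
  simp [cf]

@[simp] lemma cf_add (i : Fin 2) (f g : MvPolynomial (Fin 2) K) (a b : ℕ) :
    cf i (f + g) a b = cf i f a b + cf i g a b := by
  simp [cf]

@[simp] lemma cf_sub (i : Fin 2) (f g : MvPolynomial (Fin 2) K) (a b : ℕ) :
    cf i (f - g) a b = cf i f a b - cf i g a b := by
  simp [cf]

@[simp] lemma cf_neg (i : Fin 2) (f : MvPolynomial (Fin 2) K) (a b : ℕ) :
    cf i (-f) a b = -cf i f a b := by
  simp [cf]

@[simp] lemma cf_C_mul (i : Fin 2) (c : K) (f : MvPolynomial (Fin 2) K) (a b : ℕ) :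
    cf i (C c * f) a b = c * cf i f a b := by
  simp [cf, coeff_C_mul]

@[simp] lemma cf_X_mul_succ (i : Fin 2) (f : MvPolynomial (Fin 2) K) (a b : ℕ) :
    cf i (X i * f) (a + 1) b = cf i f a b := by
  have : ex i (a + 1) b = Finsupp.single i 1 + ex i a b := by
    rw [ex, ex, Finsupp.single_add]
    abel
  rw [cf, this, coeff_X_mul, cf]

@[simp] lemma cf_X_mul_zero (i : Fin 2) (f : MvPolynomial (Fin 2) K) (b : ℕ) :
    cf i (X i * f) 0 b = 0 := by
  rw [cf, coeff_X_mul', if_neg]
  simp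

@[simp] lemma cf_X'_mul_succ (i : Fin 2) (f : MvPolynomial (Fin 2) K) (a b : ℕ) :
    cf i (X (i + 1) * f) a (b + 1) = cf i f a b := by
  have h := cf_X_mul_succ (i + 1) f b a
  rw [cf_swap, cf_swap] at h
  exact h

@[simp] lemma cf_X'_mul_zero (i : Fin 2) (f : MvPolynomial (Fin 2) K) (a : ℕ) :
    cf i (X (i + 1) * f) a 0 = 0 := by
  have h := cf_X_mul_zero (i + 1) f a
  rw [cf_swap] at h
  exact h

lemma cf_pderiv (i : Fin 2) (f : MvPolynomial (Fin 2) K) (a b : ℕ) :
    cf i (pderiv i f) a b = ((a : K) + 1) * cf i f (a + 1) b := by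
  have : ex i a b + Finsupp.single i 1 = ex i (a + 1) b := by
    rw [ex, ex, Finsupp.single_add]
    abel
  rw [cf, coeff_pderiv, this, ex_self, mul_comm, cf]

lemma cf_X_mul_pderiv (i : Fin 2) (f : MvPolynomial (Fin 2) K) (a b : ℕ) :
    cf i (X i * pderiv i f) a b = (a : K) * cf i f a b := by
  rcases a with _ | a
  · simp
  · rw [cf_X_mul_succ, cf_pderiv]
    push_cast
    ring

lemma cf_X_sq_mul_pderiv_succ (i : Fin 2) (f : MvPolynomial (Fin 2) K) (a b : ℕ) :
    cf i (X i ^ 2 * pderiv i f) (a + 1) b = (a : K) * cf i f a b := by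
  rw [pow_two, mul_assoc, cf_X_mul_succ, cf_X_mul_pderiv]

lemma cf_X_sq_mul_pderiv_zero (i : Fin 2) (f : MvPolynomial (Fin 2) K) (b : ℕ) :
    cf i (X i ^ 2 * pderiv i f) 0 b = 0 := by
  rw [pow_two, mul_assoc, cf_X_mul_zero]

lemma totalDegree_le_iff (i : Fin 2) {f : MvPolynomial (Fin 2) K} {d : ℕ} :
    f.totalDegree ≤ d ↔ ∀ a b, d < a + b → cf i f a b = 0 := by
  rw [← mem_V, V, mem_restrictSupport_iff]
  constructor
  · intro h a b hab
    by_contra hne
    have : ex i a b ∈ f.support := mem_support_iff.mpr hne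
    have h2 := h this
    simp only [TT, Set.mem_ofPred_eq] at h2
    have h3 : ∀ n : Fin 2 →₀ ℕ, n 0 + n 1 = n i + n (i + 1) := by
      intro n
      have := sum_fin2 i (fun j => n j)
      rw [Fin.sum_univ_two] at this
      exact this
    rw [h3, ex_self, ex_other] at h2
    omega
  · intro h n hn
    have h3 : n 0 + n 1 = n i + n (i + 1) := by
      have := sum_fin2 i (fun j => n j)
      rw [Fin.sum_univ_two] at this
      exact this
    simp only [TT, Set.mem_ofPred_eq]
    rw [h3]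
    by_contra hcon
    have h4 := h (n i) (n (i + 1)) (by omega)
    rw [cf, ← ex_eq] at h4
    exact (mem_support_iff.mp hn) h4

lemma cf_eq_zero_of_lt (i : Fin 2) {f : MvPolynomial (Fin 2) K} {d a b : ℕ}
    (hf : f.totalDegree ≤ d) (h : d < a + b) : cf i f a b = 0 :=
  (totalDegree_le_iff i).mp hf a b h

lemma cf_hc (i : Fin 2) (f : MvPolynomial (Fin 2) K) (d a b : ℕ) :
    cf i (homogeneousComponent d f) a b = if a + b = d then cf i f a b else 0 := by
  rw [cf, coeff_homogeneousComponent, ex_degree, cf]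

lemma degreeOf_le_iff_cf (i : Fin 2) {f : MvPolynomial (Fin 2) K} {d : ℕ} :
    f.degreeOf i ≤ d ↔ ∀ a b, d < a → cf i f a b = 0 := by
  rw [degreeOf_le_iff]
  constructor
  · intro h a b hab
    by_contra hne
    have : ex i a b ∈ f.support := mem_support_iff.mpr hne
    have h2 := h _ this
    rw [ex_self] at h2
    omega
  · intro h n hn
    by_contra hcon
    have h4 := h (n i) (n (i + 1)) (by omega)
    rw [cf, ← ex_eq] at h4
    exact (mem_support_iff.mp hn) h4

section deriv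

variable [Algebra ℂ K] (δ : Fin 2 → Derivation ℂ K K)

/-- coefficientwise derivative. -/
noncomputable def mapC (d : Derivation ℂ K K) (f : MvPolynomial (Fin 2) K) :
    MvPolynomial (Fin 2) K :=
  ∑ m ∈ f.support, monomial m (d (coeff m f))

lemma coeff_mapC (d : Derivation ℂ K K) (f : MvPolynomial (Fin 2) K) (m : Fin 2 →₀ ℕ) :
    coeff m (mapC d f) = d (coeff m f) := by
  classical
  rw [mapC, coeff_sum]
  simp only [coeff_monomial]
  rw [Finset.sum_ite_eq']
  split_ifs with h
  · rfl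
  · rw [notMem_support_iff.mp h, map_zero]

/-- The differential operator `∂_i + X_i^2 ∂/∂X_i`. -/
noncomputable def Dop (i : Fin 2) (f : MvPolynomial (Fin 2) K) : MvPolynomial (Fin 2) K :=
  mapC (δ i) f + X i ^ 2 * pderiv i f

lemma cf_Dop_succ (i : Fin 2) (f : MvPolynomial (Fin 2) K) (a b : ℕ) :
    cf i (Dop δ i f) (a + 1) b = δ i (cf i f (a + 1) b) + (a : K) * cf i f a b := by
  rw [Dop, cf_add, cf_X_sq_mul_pderiv_succ]
  congr 1
  rw [cf, coeff_mapC, cf]

lemma cf_Dop_zero (i : Fin 2) (f : MvPolynomial (Fin 2) K) (b : ℕ) :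
    cf i (Dop δ i f) 0 b = δ i (cf i f 0 b) := by
  rw [Dop, cf_add, cf_X_sq_mul_pderiv_zero, cf, coeff_mapC, cf, add_zero]

lemma totalDegree_Dop (i : Fin 2) {f : MvPolynomial (Fin 2) K} {d : ℕ} (hf : f.totalDegree ≤ d) :
    (Dop δ i f).totalDegree ≤ d + 1 := by
  rw [totalDegree_le_iff i]
  intro a b hab
  rcases a with _ | a
  · rw [cf_Dop_zero, cf_eq_zero_of_lt i hf (by omega), map_zero]
  · rw [cf_Dop_succ, cf_eq_zero_of_lt i hf (by omega), cf_eq_zero_of_lt i hf (by omega), map_zero,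
      mul_zero, add_zero]

lemma hc_Dop (i : Fin 2) {f : MvPolynomial (Fin 2) K} {d : ℕ} (hf : f.totalDegree ≤ d) :
    homogeneousComponent (d + 1) (Dop δ i f) = X i ^ 2 * pderiv i (homogeneousComponent d f) := by
  apply cf_ext i
  intro a b
  rw [cf_hc]
  rcases a with _ | a
  · rw [cf_X_sq_mul_pderiv_zero]
    split_ifs with h
    · rw [cf_Dop_zero, cf_eq_zero_of_lt i hf (by omega), map_zero]
    · rfl
  · rw [cf_X_sq_mul_pderiv_succ, cf_hc]
    by_cases h : a + 1 + b = d + 1
    · rw [if_pos h, if_pos (by omega), cf_Dop_succ, cf_eq_zero_of_lt i hf (by omega), map_zero,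
        zero_add]
    · rw [if_neg h, if_neg (by omega), mul_zero]

lemma mapC_add (d : Derivation ℂ K K) (f g : MvPolynomial (Fin 2) K) :
    mapC d (f + g) = mapC d f + mapC d g := by
  ext m
  simp [coeff_mapC]

lemma mapC_monomial (d : Derivation ℂ K K) (m : Fin 2 →₀ ℕ) (c : K) :
    mapC d (monomial m c) = monomial m (d c) := by
  classical
  ext n
  rw [coeff_mapC, coeff_monomial, coeff_monomial]
  split_ifs with h
  · rfl
  · simp

lemma Dop_add (i : Fin 2) (f g : MvPolynomial (Fin 2) K) :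
    Dop δ i (f + g) = Dop δ i f + Dop δ i g := by
  rw [Dop, Dop, Dop, mapC_add, map_add]
  ring

lemma eval_Dop (i : Fin 2) (f : MvPolynomial (Fin 2) K) (ζ : Fin 2 → K)
    (h1 : δ i (ζ i) = ζ i ^ 2) (h2 : δ i (ζ (i + 1)) = 0) :
    eval ζ (Dop δ i f) = δ i (eval ζ f) := by
  induction f using MvPolynomial.induction_on' with
  | add p q hp hq => rw [Dop_add, map_add, map_add, map_add, hp, hq]
  | monomial m c =>
    have hev : ∀ (n : Fin 2 →₀ ℕ) (c : K), eval ζ (monomial n c) =
        c * (ζ i ^ n i * ζ (i + 1) ^ n (i + 1)) := by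
      intro n c
      rw [eval_monomial, Finsupp.prod_fintype _ _ (by simp), prod_fin2 i]
    rw [Dop, mapC_monomial, pderiv_monomial, map_add, map_mul, map_pow, eval_X, hev, hev, hev]
    have e1 : (m - Finsupp.single i 1 : Fin 2 →₀ ℕ) i = m i - 1 := by simp
    have e2 : (m - Finsupp.single i 1 : Fin 2 →₀ ℕ) (i + 1) = m (i + 1) := by
      simp
    rw [e1, e2, Derivation.leibniz, Derivation.leibniz, Derivation.leibniz_pow,
      Derivation.leibniz_pow, h1, h2]
    simp only [smul_eq_mul, nsmul_eq_mul, mul_zero, zero_add]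
    rcases hm : m i with _ | n
    · simp [mul_comm]
    · simp only [Nat.cast_add, Nat.cast_one, Nat.add_sub_cancel]
      ring

end deriv

end Pool.Agent.Geproci
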