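import Pool.Agent.Lib_MP_9828eb_ag.Fixed

set_option autoImplicit false

open MvPolynomial

namespace Pool.Agent.Geproci

section expand
variable {K : Type*} [Field K]

/-- expansion of a polynomial of bounded bidegree. -/
lemma expand_box {p q : ℕ} {f : MvPolynomial (Fin 2) K} (h0 : f.degreeOf 0 ≤ p)
    (h1 : f.degreeOf 1 ≤ q) :
    f = ∑ a ∈ Finset.range (p + 1), ∑ b ∈ Finset.range (q + 1),
      monomial (ex 0 a b) (cf 0 f a b) := by
  classical
  apply cf_ext 0
  intro a b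
  rw [cf, cf, coeff_sum]
  simp only [coeff_sum, coeff_monomial]
  have hinj : ∀ x y : ℕ, (ex 0 x y = ex 0 a b) ↔ (x = a ∧ y = b) := by
    intro x y
    constructor
    · intro h
      have e1 := congrArg (fun n : Fin 2 →₀ ℕ => n 0) h
      have e2 := congrArg (fun n : Fin 2 →₀ ℕ => n (0 + 1)) h
      simp only [ex_self, ex_other] at e1 e2
      exact ⟨e1, e2⟩
    · rintro ⟨rfl, rfl⟩; rfl
  simp only [hinj]
  by_cases ha : a < p + 1
  · rw [Finset.sum_eq_single_of_mem a (Finset.mem_range.mpr ha)]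
    · by_cases hb : b < q + 1
      · rw [Finset.sum_eq_single_of_mem b (Finset.mem_range.mpr hb)]
        · simp [cf]
        · intro x _ hx
          rw [if_neg]
          rintro ⟨_, h⟩
          exact hx h
      · rw [Finset.sum_eq_zero]
        · have := (degreeOf_le_iff_cf (K := K) 1).mp h1 b a (by omega)
          rw [show (1 : Fin 2) = 0 + 1 from rfl, cf_swap] at this
          exact this
        · intro x hx
          rw [if_neg]
          rintro ⟨_, h⟩
          rw [Finset.mem_range] at hx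
          omega
    · intro x _ hx
      apply Finset.sum_eq_zero
      intro y _
      rw [if_neg]
      rintro ⟨h, _⟩
      exact hx h
  · rw [Finset.sum_eq_zero]
    · exact (degreeOf_le_iff_cf (K := K) 0).mp h0 a b (by omega)
    · intro x hx
      apply Finset.sum_eq_zero
      intro y _
      rw [if_neg]
      rintro ⟨h, _⟩
      rw [Finset.mem_range] at hx
      omega

lemma eval_monomial_ex (ζ : Fin 2 → K) (i : Fin 2) (a b : ℕ) (c : K) :
    eval ζ (monomial (ex i a b) c) = c * (ζ i ^ a * ζ (i + 1) ^ b) := by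
  rw [eval_monomial, Finsupp.prod_fintype _ _ (by simp), prod_fin2 i, ex_self, ex_other]

lemma eval_expand {p q : ℕ} {f : MvPolynomial (Fin 2) K} (h0 : f.degreeOf 0 ≤ p)
    (h1 : f.degreeOf 1 ≤ q) (ζ : Fin 2 → K) :
    eval ζ f = ∑ a ∈ Finset.range (p + 1), ∑ b ∈ Finset.range (q + 1),
      cf 0 f a b * (ζ 0 ^ a * ζ 1 ^ b) := by
  conv_lhs => rw [expand_box h0 h1]
  rw [map_sum]
  refine Finset.sum_congr rfl fun a _ => ?_
  rw [map_sum]
  refine Finset.sum_congr rfl fun b _ => ?_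
  rw [eval_monomial_ex]
  rfl

/-- reversal of the coefficients. -/
noncomputable def rev (p q : ℕ) (f : MvPolynomial (Fin 2) K) : MvPolynomial (Fin 2) K :=
  ∑ a ∈ Finset.range (p + 1), ∑ b ∈ Finset.range (q + 1),
      C (cf 0 f a b) * (X 0 ^ (p - a) * X 1 ^ (q - b))

lemma rev_ne_zero {p q : ℕ} {f : MvPolynomial (Fin 2) K} (hf : f ≠ 0) (h0 : f.degreeOf 0 ≤ p)
    (h1 : f.degreeOf 1 ≤ q) : rev p q f ≠ 0 := by
  classical
  obtain ⟨m, hm⟩ : ∃ m, coeff m f ≠ 0 := by
    by_contra hcon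
    push Not at hcon
    exact hf (by ext m; simpa using hcon m)
  have hm0 : m 0 ≤ p := (degreeOf_le_iff.mp h0) m (mem_support_iff.mpr hm)
  have hm1 : m 1 ≤ q := (degreeOf_le_iff.mp h1) m (mem_support_iff.mpr hm)
  intro hcon
  have h2 := congrArg (coeff (ex 0 (p - m 0) (q - m 1))) hcon
  have hmon : ∀ x y : ℕ, (X 0 ^ x * X 1 ^ y : MvPolynomial (Fin 2) K) = monomial (ex 0 x y) 1 := by
    intro x y
    rw [X_pow_eq_monomial, X_pow_eq_monomial, monomial_mul, ex]
    simp
  rw [rev, coeff_sum, coeff_zero] at h2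
  simp only [coeff_sum, coeff_C_mul, hmon, coeff_monomial] at h2
  rw [Finset.sum_eq_single_of_mem (m 0) (Finset.mem_range.mpr (by omega)),
    Finset.sum_eq_single_of_mem (m 1) (Finset.mem_range.mpr (by omega))] at h2
  · rw [if_pos rfl, mul_one, cf] at h2
    have h3 := ex_eq 0 m
    rw [zero_add] at h3
    rw [← h3] at h2
    exact hm h2
  · intro b hb hbne
    rw [Finset.mem_range] at hb
    rw [if_neg, mul_zero]
    intro h
    have e2 := congrArg (fun n : Fin 2 →₀ ℕ => n (0 + 1)) h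
    simp only [ex_other] at e2
    omega
  · intro a ha hane
    rw [Finset.mem_range] at ha
    apply Finset.sum_eq_zero
    intro b _
    rw [if_neg, mul_zero]
    intro h
    have e2 := congrArg (fun n : Fin 2 →₀ ℕ => n 0) h
    simp only [ex_self] at e2
    omega

/-- the translated reversal. -/
noncomputable def trev (p q : ℕ) (σ : Fin 2 → K) (f : MvPolynomial (Fin 2) K) :
    MvPolynomial (Fin 2) K :=
  aeval (fun i => X i - C (σ i)) (rev p q f)

lemma trev_ne_zero {p q : ℕ} {f : MvPolynomial (Fin 2) K} (hf : f ≠ 0) (h0 : f.degreeOf 0 ≤ p)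
    (h1 : f.degreeOf 1 ≤ q) (σ : Fin 2 → K) : trev p q σ f ≠ 0 := by
  intro h
  apply rev_ne_zero hf h0 h1
  have h2 := congrArg (aeval (fun i => (X i : MvPolynomial (Fin 2) K) + C (σ i))) h
  rw [trev, ← AlgHom.comp_apply, comp_aeval, map_zero] at h2
  have h3 : (fun i => (aeval fun i => (X i : MvPolynomial (Fin 2) K) + C (σ i)) (X i - C (σ i)))
      = (X : Fin 2 → MvPolynomial (Fin 2) K) := by
    funext i
    simp [algebraMap_eq]
  rw [h3, aeval_X_left] at h2
  exact h2

lemma trev_eq (p q : ℕ) (σ : Fin 2 → K) (f : MvPolynomial (Fin 2) K) :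
    trev p q σ f = ∑ a ∈ Finset.range (p + 1), ∑ b ∈ Finset.range (q + 1),
      C (cf 0 f a b) * ((X 0 - C (σ 0)) ^ (p - a) * (X 1 - C (σ 1)) ^ (q - b)) := by
  rw [trev, rev, map_sum]
  refine Finset.sum_congr rfl fun a _ => ?_
  rw [map_sum]
  refine Finset.sum_congr rfl fun b _ => ?_
  simp [algebraMap_eq]

lemma trev_degree (p q : ℕ) (σ : Fin 2 → K) (f : MvPolynomial (Fin 2) K) :
    (trev p q σ f).degreeOf 0 ≤ p ∧ (trev p q σ f).degreeOf 1 ≤ q := by
  rw [← mem_W, trev_eq]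
  refine Submodule.sum_mem _ fun a _ => Submodule.sum_mem _ fun b _ => ?_
  rw [mem_W]
  have hX : ∀ i : Fin 2, (X i - C (σ i) : MvPolynomial (Fin 2) K).degreeOf i ≤ 1 := by
    intro i
    rw [sub_eq_add_neg, ← C_neg]
    refine (degreeOf_add_le _ _ _).trans ?_
    rw [degreeOf_C, degreeOf_X_self]
    simp
  have hX' : ∀ i : Fin 2, (X (i + 1) - C (σ (i + 1)) : MvPolynomial (Fin 2) K).degreeOf i = 0 := by
    intro i
    have h : (X (i + 1) - C (σ (i + 1)) : MvPolynomial (Fin 2) K).degreeOf i ≤ 0 := by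
      rw [sub_eq_add_neg, ← C_neg]
      refine (degreeOf_add_le _ _ _).trans ?_
      rw [degreeOf_C, degreeOf_X_of_ne (fin2_ne' i)]
      simp
    omega
  have hpow : ∀ (i : Fin 2) (e : ℕ), ((X i - C (σ i) : MvPolynomial (Fin 2) K) ^ e).degreeOf i ≤ e := by
    intro i e
    refine (degreeOf_pow_le _ _ _).trans ?_
    have := Nat.mul_le_mul_left e (hX i)
    simpa using this
  have hpow' : ∀ (i : Fin 2) (e : ℕ),
      ((X (i + 1) - C (σ (i + 1)) : MvPolynomial (Fin 2) K) ^ e).degreeOf i ≤ 0 := by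
    intro i e
    refine (degreeOf_pow_le _ _ _).trans ?_
    rw [hX' i]
    simp
  have h01 := hpow' 0 (q - b)
  have h10 := hpow' 1 (p - a)
  rw [show (0 : Fin 2) + 1 = 1 from rfl] at h01
  rw [show (1 : Fin 2) + 1 = 0 from rfl] at h10
  constructor
  · refine (degreeOf_C_mul_le _ _ _).trans ?_
    refine (degreeOf_mul_le _ _ _).trans ?_
    have h2 := hpow 0 (p - a)
    omega
  · refine (degreeOf_C_mul_le _ _ _).trans ?_
    refine (degreeOf_mul_le _ _ _).trans ?_
    have h2 := hpow 1 (q - b)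
    omega

lemma eval_trev {p q : ℕ} (σ : Fin 2 → K) {f : MvPolynomial (Fin 2) K} (h0 : f.degreeOf 0 ≤ p)
    (h1 : f.degreeOf 1 ≤ q) (x : Fin 2 → K) (hx : ∀ i, x i - σ i ≠ 0) :
    eval x (trev p q σ f) =
      (x 0 - σ 0) ^ p * (x 1 - σ 1) ^ q * eval (fun i => (x i - σ i)⁻¹) f := by
  rw [trev_eq, map_sum, eval_expand h0 h1, Finset.mul_sum]
  refine Finset.sum_congr rfl fun a ha => ?_
  rw [map_sum, Finset.mul_sum]
  refine Finset.sum_congr rfl fun b hb => ?_
  rw [Finset.mem_range] at ha hb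
  simp only [map_mul, map_pow, map_sub, eval_C, eval_X]
  have e0 : (x 0 - σ 0) ^ p = (x 0 - σ 0) ^ (p - a) * (x 0 - σ 0) ^ a := by
    rw [← pow_add]; congr 1; omega
  have e1 : (x 1 - σ 1) ^ q = (x 1 - σ 1) ^ (q - b) * (x 1 - σ 1) ^ b := by
    rw [← pow_add]; congr 1; omega
  rw [e0, e1, inv_pow, inv_pow]
  have n0 := pow_ne_zero a (hx 0)
  have n1 := pow_ne_zero b (hx 1)
  field_simp

end expand

section descend

variable {K : Type*} [Field K] [Algebra ℂ K]

/-- Descent of a polynomial relation from `K` to `ℂ`. -/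
lemma descend {p q : ℕ} (g : MvPolynomial (Fin 2) K) (hg : g ≠ 0) (h0 : g.degreeOf 0 ≤ p)
    (h1 : g.degreeOf 1 ≤ q) :
    ∃ c : MvPolynomial (Fin 2) ℂ, c ≠ 0 ∧ c.degreeOf 0 ≤ p ∧ c.degreeOf 1 ≤ q ∧
      ∀ z : Fin 2 → ℂ, eval (fun i => algebraMap ℂ K (z i)) g = 0 → eval z c = 0 := by
  classical
  obtain ⟨m, hm⟩ : ∃ m, coeff m g ≠ 0 := by
    by_contra hcon
    push Not at hcon
    exact hg (by ext m; simpa using hcon m)
  obtain ⟨L, hL⟩ : ∃ L : Module.Dual ℂ K, L (coeff m g) ≠ 0 := by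
    by_contra hcon
    push Not at hcon
    exact hm ((Module.forall_dual_apply_eq_zero_iff ℂ _).mp hcon)
  refine ⟨∑ n ∈ g.support, monomial n (L (coeff n g)), ?_, ?_, ?_, ?_⟩
  · intro h
    have h2 := congrArg (coeff m) h
    rw [coeff_sum] at h2
    simp only [coeff_monomial, coeff_zero] at h2
    rw [Finset.sum_ite_eq', if_pos (mem_support_iff.mpr hm)] at h2
    exact hL h2
  · rw [degreeOf_le_iff]
    intro n hn
    rw [mem_support_iff, coeff_sum] at hn
    simp only [coeff_monomial] at hn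
    rw [Finset.sum_ite_eq'] at hn
    split_ifs at hn with h
    · exact (degreeOf_le_iff.mp h0) n h
    · exact absurd rfl hn
  · rw [degreeOf_le_iff]
    intro n hn
    rw [mem_support_iff, coeff_sum] at hn
    simp only [coeff_monomial] at hn
    rw [Finset.sum_ite_eq'] at hn
    split_ifs at hn with h
    · exact (degreeOf_le_iff.mp h1) n h
    · exact absurd rfl hn
  · intro z hz
    have h2 := congrArg L hz
    rw [map_zero, eval_eq', map_sum] at h2
    rw [map_sum, ← h2]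
    refine Finset.sum_congr rfl fun n _ => ?_
    rw [eval_monomial, Finsupp.prod_fintype _ _ (by simp)]
    have h3 : ∀ x : K, x * ∏ i, (algebraMap ℂ K (z i)) ^ n i = (∏ i, z i ^ n i) • x := by
      intro x
      rw [Algebra.smul_def, mul_comm, map_prod]
      simp only [map_pow]
    rw [h3, map_smul, smul_eq_mul, mul_comm]

/-- Descent of a polynomial vanishing at the projected points. -/
lemma descend_proj {p q : ℕ} (σ : Fin 2 → K) (f : MvPolynomial (Fin 2) K) (hf : f ≠ 0)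
    (h0 : f.degreeOf 0 ≤ p) (h1 : f.degreeOf 1 ≤ q) :
    ∃ c : MvPolynomial (Fin 2) ℂ, c ≠ 0 ∧ c.degreeOf 0 ≤ p ∧ c.degreeOf 1 ≤ q ∧
      ∀ z : Fin 2 → ℂ, (∀ i, algebraMap ℂ K (z i) - σ i ≠ 0) →
        eval (fun i => (algebraMap ℂ K (z i) - σ i)⁻¹) f = 0 → eval z c = 0 := by
  obtain ⟨c, hc0, hc1, hc2, hc3⟩ := descend (trev p q σ f) (trev_ne_zero hf h0 h1 σ)
    (trev_degree p q σ f).1 (trev_degree p q σ f).2
  refine ⟨c, hc0, hc1, hc2, ?_⟩
  intro z hz hzf
  apply hc3
  rw [eval_trev σ h0 h1 _ hz, hzf, mul_zero]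

end descend

end Pool.Agent.Geproci
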