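import Mathlib

set_option autoImplicit false

open MvPolynomial

namespace Pool.Agent.Geproci

/-- Exponents of total degree at most `d` in two variables. -/
def TT (d : ℕ) : Set (Fin 2 →₀ ℕ) := {n | n 0 + n 1 ≤ d}

/-- Exponents in the box `[0,p] × [0,q]`. -/
def BB (p q : ℕ) : Set (Fin 2 →₀ ℕ) := {n | n 0 ≤ p ∧ n 1 ≤ q}

/-- Exponents as pairs. -/
noncomputable def expEquiv : (Fin 2 →₀ ℕ) ≃ ℕ × ℕ :=
  (Finsupp.equivFunOnFinite).trans (finTwoArrowEquiv ℕ)

@[simp] lemma expEquiv_apply (n : Fin 2 →₀ ℕ) : expEquiv n = (n 0, n 1) := by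
  simp [expEquiv, finTwoArrowEquiv]

/-- polynomials of total degree at most `d`. -/
noncomputable def V (k : Type*) [Field k] (d : ℕ) : Submodule k (MvPolynomial (Fin 2) k) :=
  restrictSupport k (TT d)

/-- polynomials of bidegree at most `(p,q)`. -/
noncomputable def W (k : Type*) [Field k] (p q : ℕ) : Submodule k (MvPolynomial (Fin 2) k) :=
  restrictSupport k (BB p q)

lemma finite_BB (p q : ℕ) : (BB p q).Finite := by
  have h : Set.Finite (expEquiv ⁻¹' ((Set.Iic p) ×ˢ (Set.Iic q))) :=
    ((Set.finite_Iic p).prod (Set.finite_Iic q)).preimage expEquiv.injective.injOn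
  refine h.subset ?_
  intro n hn
  simpa [BB] using hn

lemma finite_TT (d : ℕ) : (TT d).Finite := by
  refine (finite_BB d d).subset ?_
  intro n hn
  simp only [TT, BB, Set.mem_ofPred_eq] at hn ⊢
  omega

lemma ncard_BB (p q : ℕ) : (BB p q).ncard = (p + 1) * (q + 1) := by
  have h : expEquiv '' (BB p q) = ((Finset.Iic p ×ˢ Finset.Iic q : Finset (ℕ × ℕ)) : Set (ℕ × ℕ)) := by
    ext ⟨a, b⟩
    constructor
    · rintro ⟨n, hn, hne⟩
      simp only [expEquiv_apply, Prod.mk.injEq] at hne
      simp only [BB, Set.mem_ofPred_eq] at hn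
      simp only [Finset.coe_product, Finset.coe_Iic, Set.mem_prod, Set.mem_Iic]
      omega
    · intro h
      refine ⟨expEquiv.symm (a, b), ?_, by simp⟩
      have h2 := expEquiv_apply (expEquiv.symm (a, b))
      simp only [Equiv.apply_symm_apply, Prod.mk.injEq] at h2
      simp only [Finset.coe_product, Finset.coe_Iic, Set.mem_prod, Set.mem_Iic] at h
      simp only [BB, Set.mem_ofPred_eq, ← h2.1, ← h2.2]
      exact h
  rw [← Set.ncard_image_of_injective (BB p q) expEquiv.injective, h, Set.ncard_coe_finset]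
  simp [Finset.card_product]

lemma ncard_TT (d : ℕ) : 2 * (TT d).ncard = (d + 1) * (d + 2) := by
  induction d with
  | zero =>
    have : TT 0 = {0} := by
      ext n
      simp only [TT, Set.mem_ofPred_eq, Set.mem_singleton_iff]
      constructor
      · intro h
        ext i
        fin_cases i <;> simp <;> omega
      · rintro rfl; simp
    rw [this]
    simp
  | succ d ih =>
    have hsplit : TT (d + 1) = TT d ∪ {n | n 0 + n 1 = d + 1} := by
      ext n
      simp only [TT, Set.mem_ofPred_eq, Set.mem_union]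
      omega
    have hdisj : Disjoint (TT d) {n : Fin 2 →₀ ℕ | n 0 + n 1 = d + 1} := by
      rw [Set.disjoint_left]
      intro n hn hn'
      simp only [TT, Set.mem_ofPred_eq] at hn hn'
      omega
    have h : expEquiv '' {n : Fin 2 →₀ ℕ | n 0 + n 1 = d + 1}
        = ((Finset.HasAntidiagonal.antidiagonal (d + 1) : Finset (ℕ × ℕ)) : Set (ℕ × ℕ)) := by
      ext ⟨a, b⟩
      constructor
      · rintro ⟨n, hn, hne⟩
        simp only [expEquiv_apply, Prod.mk.injEq] at hne
        simp only [Set.mem_ofPred_eq] at hn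
        simp only [Finset.mem_coe, Finset.HasAntidiagonal.mem_antidiagonal]
        omega
      · intro h
        refine ⟨expEquiv.symm (a, b), ?_, by simp⟩
        have h2 := expEquiv_apply (expEquiv.symm (a, b))
        simp only [Equiv.apply_symm_apply, Prod.mk.injEq] at h2
        simp only [Finset.mem_coe, Finset.HasAntidiagonal.mem_antidiagonal] at h
        simp only [Set.mem_ofPred_eq, ← h2.1, ← h2.2]
        exact h
    have hfin : ({n : Fin 2 →₀ ℕ | n 0 + n 1 = d + 1}).Finite := by
      refine (finite_TT (d + 1)).subset ?_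
      intro n hn
      simp only [TT, Set.mem_ofPred_eq] at hn ⊢
      omega
    have hcard : ({n : Fin 2 →₀ ℕ | n 0 + n 1 = d + 1}).ncard = d + 2 := by
      rw [← Set.ncard_image_of_injective _ expEquiv.injective, h, Set.ncard_coe_finset]
      simp [Finset.Nat.card_antidiagonal]
    rw [hsplit, Set.ncard_union_eq hdisj (finite_TT d) hfin, hcard]
    nlinarith

section
variable {k : Type*} [Field k]

instance instFiniteV (d : ℕ) : Module.Finite k (V k d) := by
  have := (finite_TT d).to_subtype
  exact Module.Finite.of_basis (basisRestrictSupport k (TT d))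

instance instFiniteW (p q : ℕ) : Module.Finite k (W k p q) := by
  have := (finite_BB p q).to_subtype
  exact Module.Finite.of_basis (basisRestrictSupport k (BB p q))

lemma finrank_W (p q : ℕ) : Module.finrank k (W k p q) = (p + 1) * (q + 1) := by
  have := (finite_BB p q).fintype
  rw [W, Module.finrank_eq_card_basis (basisRestrictSupport k (BB p q)), ← ncard_BB,
    Set.ncard_eq_toFinset_card', Set.toFinset_card]

lemma finrank_V (d : ℕ) : 2 * Module.finrank k (V k d) = (d + 1) * (d + 2) := by
  have := (finite_TT d).fintype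
  rw [V, Module.finrank_eq_card_basis (basisRestrictSupport k (TT d)), ← ncard_TT,
    Set.ncard_eq_toFinset_card', Set.toFinset_card]

lemma fin2_sum (n : Fin 2 →₀ ℕ) : (n.sum fun _ e => e) = n 0 + n 1 := by
  rw [Finsupp.sum_fintype _ _ (by simp)]
  simp [Fin.sum_univ_two]

lemma mem_V {d : ℕ} {p : MvPolynomial (Fin 2) k} : p ∈ V k d ↔ p.totalDegree ≤ d := by
  rw [← mem_restrictTotalDegree]
  have : (TT d) = {n : Fin 2 →₀ ℕ | (n.sum fun _ e => e) ≤ d} := by
    ext n
    simp [TT, fin2_sum]
  rw [V, restrictTotalDegree, this]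

lemma mem_W {p q : ℕ} {f : MvPolynomial (Fin 2) k} :
    f ∈ W k p q ↔ f.degreeOf 0 ≤ p ∧ f.degreeOf 1 ≤ q := by
  rw [W, mem_restrictSupport_iff, degreeOf_le_iff, degreeOf_le_iff]
  constructor
  · intro h
    exact ⟨fun m hm => (h hm).1, fun m hm => (h hm).2⟩
  · rintro ⟨h1, h2⟩ m hm
    exact ⟨h1 m hm, h2 m hm⟩

end

end Pool.Agent.Geproci
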