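import Mathlib

set_option autoImplicit false

open scoped LinearAlgebra.Projectivization

namespace Pool.Agent.Geproci

/-- the conclusion: a grid. -/
def IsGrid (Z : Finset (ℙ ℂ (Fin 4 → ℂ))) : Prop :=
  ∃ a b : ℕ, ∃ L : Fin a → Submodule ℂ (Fin 4 → ℂ),
      ∃ M : Fin b → Submodule ℂ (Fin 4 → ℂ),
        (∀ i, Module.finrank ℂ (L i) = 2) ∧
        (∀ j, Module.finrank ℂ (M j) = 2) ∧
        (∀ i i', i ≠ i' → L i ⊓ L i' = ⊥) ∧
        (∀ j j', j ≠ j' → M j ⊓ M j' = ⊥) ∧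
        (∀ i j, Module.finrank ℂ (↥(L i ⊓ M j)) = 1) ∧
        ∀ z : ℙ ℂ (Fin 4 → ℂ), z ∈ Z ↔ ∃ i j, z.submodule = L i ⊓ M j

lemma submodule_ne_bot (z : ℙ ℂ (Fin 4 → ℂ)) : z.submodule ≠ ⊥ := by
  intro h
  have h1 := z.finrank_submodule
  rw [h, finrank_bot] at h1
  exact absurd h1 (by norm_num)

lemma inf_bot_of_ne {z w : ℙ ℂ (Fin 4 → ℂ)} (h : z ≠ w) : z.submodule ⊓ w.submodule = ⊥ := by
  by_contra hcon
  apply h
  apply Projectivization.submodule_injective
  have hpos : 0 < Module.finrank ℂ (↥(z.submodule ⊓ w.submodule)) := by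
    rw [Module.finrank_pos_iff]
    exact Submodule.nontrivial_iff_ne_bot.mpr hcon
  have h1 : z.submodule ⊓ w.submodule = z.submodule := by
    apply Submodule.eq_of_le_of_finrank_le inf_le_left
    rw [z.finrank_submodule]
    exact hpos
  have h2 : z.submodule ⊓ w.submodule = w.submodule := by
    apply Submodule.eq_of_le_of_finrank_le inf_le_right
    rw [w.finrank_submodule]
    exact hpos
  rw [← h1, h2]

lemma finrank_sup_eq {V W : Submodule ℂ (Fin 4 → ℂ)} (h : V ⊓ W = ⊥) :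
    Module.finrank ℂ (↥(V ⊔ W)) = Module.finrank ℂ V + Module.finrank ℂ W := by
  have h1 := Submodule.finrank_sup_add_finrank_inf_eq V W
  rw [h, finrank_bot, add_zero] at h1
  exact h1

theorem two_lines (Z : Finset (ℙ ℂ (Fin 4 → ℂ))) (L1 L2 : Submodule ℂ (Fin 4 → ℂ))
    (h1 : Module.finrank ℂ L1 = 2) (h2 : Module.finrank ℂ L2 = 2) (hd : L1 ⊓ L2 = ⊥)
    (Z1 Z2 : Finset (ℙ ℂ (Fin 4 → ℂ))) (hZ : ∀ z, z ∈ Z ↔ z ∈ Z1 ∨ z ∈ Z2)
    (hZ1 : ∀ z ∈ Z1, z.submodule ≤ L1) (hZ2 : ∀ z ∈ Z2, z.submodule ≤ L2)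
    (hc : Z1.card = Z2.card) : IsGrid Z := by
  let e1 : Fin Z1.card ≃ Z1 := Z1.equivFin.symm
  let e2 : Fin Z1.card ≃ Z2 := (finCongr hc).trans Z2.equivFin.symm
  have k1 : ∀ j, (e1 j).1.submodule ≤ L1 := fun j => hZ1 _ (e1 j).2
  have k2 : ∀ j, (e2 j).1.submodule ≤ L2 := fun j => hZ2 _ (e2 j).2
  let M : Fin Z1.card → Submodule ℂ (Fin 4 → ℂ) := fun j =>
    (e1 j).1.submodule ⊔ (e2 j).1.submodule
  have i1 : ∀ j, L1 ⊓ M j = (e1 j).1.submodule := by
    intro j
    rw [inf_comm, sup_inf_assoc_of_le _ (k1 j)]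
    have : (e2 j).1.submodule ⊓ L1 = ⊥ := by
      rw [eq_bot_iff, ← hd, inf_comm]
      exact inf_le_inf_left _ (k2 j)
    rw [this, sup_bot_eq]
  have i2 : ∀ j, L2 ⊓ M j = (e2 j).1.submodule := by
    intro j
    simp only [M]
    rw [inf_comm, sup_comm, sup_inf_assoc_of_le _ (k2 j)]
    have : (e1 j).1.submodule ⊓ L2 = ⊥ := by
      rw [eq_bot_iff, ← hd]
      exact inf_le_inf_right _ (k1 j)
    rw [this, sup_bot_eq]
  refine ⟨2, Z1.card, ![L1, L2], M, ?_, ?_, ?_, ?_, ?_, ?_⟩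
  · intro i
    fin_cases i
    · exact h1
    · exact h2
  · intro j
    rw [finrank_sup_eq, Projectivization.finrank_submodule, Projectivization.finrank_submodule]
    rw [eq_bot_iff, ← hd]
    exact inf_le_inf (k1 j) (k2 j)
  · intro i i' hii
    fin_cases i <;> fin_cases i' <;> first | exact absurd rfl hii | exact hd | exact (inf_comm L2 L1).trans hd
  · intro j j' hjj
    rw [eq_bot_iff]
    intro v hv
    obtain ⟨hv1, hv2⟩ := Submodule.mem_inf.mp hv
    obtain ⟨p, hp, r, hr, rfl⟩ := Submodule.mem_sup.mp hv1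
    obtain ⟨p', hp', r', hr', he⟩ := Submodule.mem_sup.mp hv2
    have hpp : p - p' = r' - r := by
      have : p' + r' - p' - r = p + r - p' - r := by rw [he]
      rw [add_sub_cancel_left] at this
      rw [this]
      abel
    have h3 : p - p' ∈ L1 ⊓ L2 :=
      Submodule.mem_inf.mpr ⟨L1.sub_mem (k1 j hp) (k1 j' hp'),
        by rw [hpp]; exact L2.sub_mem (k2 j' hr') (k2 j hr)⟩
    rw [hd, Submodule.mem_bot] at h3
    have h4 : p = p' := sub_eq_zero.mp h3
    have h5 : r' = r := by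
      rw [h3] at hpp
      exact sub_eq_zero.mp hpp.symm
    have h6 : p ∈ (e1 j).1.submodule ⊓ (e1 j').1.submodule :=
      Submodule.mem_inf.mpr ⟨hp, h4 ▸ hp'⟩
    have h7 : r ∈ (e2 j).1.submodule ⊓ (e2 j').1.submodule :=
      Submodule.mem_inf.mpr ⟨hr, h5 ▸ hr'⟩
    rw [inf_bot_of_ne (fun hcon => hjj (e1.injective (Subtype.ext hcon))),
      Submodule.mem_bot] at h6
    rw [inf_bot_of_ne (fun hcon => hjj (e2.injective (Subtype.ext hcon))),
      Submodule.mem_bot] at h7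
    rw [h6, h7, add_zero]
    exact Submodule.zero_mem _
  · intro i j
    fin_cases i
    · change Module.finrank ℂ (↥(L1 ⊓ M j)) = 1
      rw [i1, Projectivization.finrank_submodule]
    · change Module.finrank ℂ (↥(L2 ⊓ M j)) = 1
      rw [i2, Projectivization.finrank_submodule]
  · intro z
    rw [hZ]
    constructor
    · rintro (hz | hz)
      · refine ⟨0, e1.symm ⟨z, hz⟩, ?_⟩
        change z.submodule = L1 ⊓ _
        rw [i1, Equiv.apply_symm_apply]
      · refine ⟨1, e2.symm ⟨z, hz⟩, ?_⟩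
        change z.submodule = L2 ⊓ _
        rw [i2, Equiv.apply_symm_apply]
    · rintro ⟨i, j, hij⟩
      fin_cases i
      · change z.submodule = L1 ⊓ _ at hij
        rw [i1] at hij
        left
        rw [Projectivization.submodule_injective hij]
        exact (e1 j).2
      · change z.submodule = L2 ⊓ _ at hij
        rw [i2] at hij
        right
        rw [Projectivization.submodule_injective hij]
        exact (e2 j).2

theorem four_points (Z : Finset (ℙ ℂ (Fin 4 → ℂ))) (hs : (⨆ z ∈ Z, z.submodule) = ⊤)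
    (hc : Z.card = 4) : IsGrid Z := by
  classical
  let e : Fin 4 ≃ Z := (finCongr hc.symm).trans Z.equivFin.symm
  let S : Fin 4 → Submodule ℂ (Fin 4 → ℂ) := fun i => (e i).1.submodule
  have hS : ∀ i, Module.finrank ℂ (S i) = 1 := fun i => (e i).1.finrank_submodule
  have hne : ∀ i j, i ≠ j → (e i).1 ≠ (e j).1 := fun i j hij hcon =>
    hij (e.injective (Subtype.ext hcon))
  have h01 := finrank_sup_eq (inf_bot_of_ne (hne 0 1 (by decide)))
  have h23 := finrank_sup_eq (inf_bot_of_ne (hne 2 3 (by decide)))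
  have htop : (S 0 ⊔ S 1) ⊔ (S 2 ⊔ S 3) = ⊤ := by
    rw [eq_top_iff, ← hs]
    apply iSup₂_le
    intro z hz
    have h1 : z = (e (e.symm ⟨z, hz⟩)).1 := by rw [Equiv.apply_symm_apply]
    rw [h1]
    generalize e.symm ⟨z, hz⟩ = i
    have h2 : S i ≤ (S 0 ⊔ S 1) ⊔ (S 2 ⊔ S 3) := by
      fin_cases i
      · exact le_sup_left.trans le_sup_left
      · exact le_sup_right.trans le_sup_left
      · exact le_sup_left.trans le_sup_right
      · exact le_sup_right.trans le_sup_right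
    exact h2
  have hd : (S 0 ⊔ S 1) ⊓ (S 2 ⊔ S 3) = ⊥ := by
    have h1 := Submodule.finrank_sup_add_finrank_inf_eq (S 0 ⊔ S 1) (S 2 ⊔ S 3)
    rw [htop, finrank_top, Module.finrank_fin_fun] at h1
    have h2 : Module.finrank ℂ (↥(S 0 ⊔ S 1)) = 2 := by rw [h01, hS 0, hS 1]
    have h3 : Module.finrank ℂ (↥(S 2 ⊔ S 3)) = 2 := by rw [h23, hS 2, hS 3]
    rw [h2, h3] at h1
    exact Submodule.finrank_eq_zero.mp (by omega)
  have hcard : ∀ i j : Fin 4, i ≠ j → ({(e i).1, (e j).1} : Finset (ℙ ℂ (Fin 4 → ℂ))).card = 2 :=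
    fun i j hij => Finset.card_pair (hne i j hij)
  apply two_lines Z (S 0 ⊔ S 1) (S 2 ⊔ S 3) (by rw [h01, hS 0, hS 1]) (by rw [h23, hS 2, hS 3]) hd
    {(e 0).1, (e 1).1} {(e 2).1, (e 3).1}
  · intro z
    constructor
    · intro hz
      have h1 : z = (e (e.symm ⟨z, hz⟩)).1 := by rw [Equiv.apply_symm_apply]
      rw [h1]
      generalize e.symm ⟨z, hz⟩ = i
      fin_cases i <;> simp
    · rintro (hz | hz)
      · rw [Finset.mem_insert, Finset.mem_singleton] at hz
        rcases hz with rfl | rfl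
        · exact (e 0).2
        · exact (e 1).2
      · rw [Finset.mem_insert, Finset.mem_singleton] at hz
        rcases hz with rfl | rfl
        · exact (e 2).2
        · exact (e 3).2
  · intro z hz
    rw [Finset.mem_insert, Finset.mem_singleton] at hz
    rcases hz with rfl | rfl
    · exact le_sup_left
    · exact le_sup_right
  · intro z hz
    rw [Finset.mem_insert, Finset.mem_singleton] at hz
    rcases hz with rfl | rfl
    · exact le_sup_left
    · exact le_sup_right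
  · rw [hcard 0 1 (by decide), hcard 2 3 (by decide)]

/-- lines of the first ruling. -/
def rulL (x : ℂ) : (Fin 2 → ℂ) →ₗ[ℂ] (Fin 4 → ℂ) where
  toFun s := ![s 0, x * s 0, s 1, x * s 1]
  map_add' s t := by
    funext i
    fin_cases i <;> simp <;> ring
  map_smul' c s := by
    funext i
    fin_cases i <;> simp <;> ring

/-- lines of the second ruling. -/
def rulM (y : ℂ) : (Fin 2 → ℂ) →ₗ[ℂ] (Fin 4 → ℂ) where
  toFun s := ![s 0, s 1, y * s 0, y * s 1]
  map_add' s t := by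
    funext i
    fin_cases i <;> simp <;> ring
  map_smul' c s := by
    funext i
    fin_cases i <;> simp <;> ring

lemma rulL_inj (x : ℂ) : Function.Injective (rulL x) := by
  intro s t h
  have h0 := congrFun h 0
  have h2 := congrFun h 2
  simp [rulL] at h0 h2
  funext i
  fin_cases i
  · exact h0
  · exact h2

lemma rulM_inj (x : ℂ) : Function.Injective (rulM x) := by
  intro s t h
  have h0 := congrFun h 0
  have h2 := congrFun h 1
  simp [rulM] at h0 h2
  funext i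
  fin_cases i
  · exact h0
  · exact h2

lemma mem_range_rulL (x : ℂ) (v : Fin 4 → ℂ) :
    v ∈ LinearMap.range (rulL x) ↔ v 1 = x * v 0 ∧ v 3 = x * v 2 := by
  constructor
  · rintro ⟨s, rfl⟩
    simp [rulL]
  · rintro ⟨h1, h2⟩
    refine ⟨![v 0, v 2], ?_⟩
    funext i
    fin_cases i <;> simp [rulL, h1, h2]

lemma mem_range_rulM (y : ℂ) (v : Fin 4 → ℂ) :
    v ∈ LinearMap.range (rulM y) ↔ v 2 = y * v 0 ∧ v 3 = y * v 1 := by
  constructor
  · rintro ⟨s, rfl⟩
    simp [rulM]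
  · rintro ⟨h1, h2⟩
    refine ⟨![v 0, v 1], ?_⟩
    funext i
    fin_cases i <;> simp [rulM, h1, h2]

variable (E : (Fin 4 → ℂ) ≃ₗ[ℂ] (Fin 4 → ℂ))

/-- transported lines. -/
def LE (x : ℂ) : Submodule ℂ (Fin 4 → ℂ) := LinearMap.range (E.toLinearMap ∘ₗ rulL x)

/-- transported lines. -/
def ME (y : ℂ) : Submodule ℂ (Fin 4 → ℂ) := LinearMap.range (E.toLinearMap ∘ₗ rulM y)

lemma mem_LE (x : ℂ) (v : Fin 4 → ℂ) :
    v ∈ LE E x ↔ E.symm v 1 = x * E.symm v 0 ∧ E.symm v 3 = x * E.symm v 2 := by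
  rw [← mem_range_rulL]
  constructor
  · rintro ⟨s, rfl⟩
    exact ⟨s, by simp⟩
  · rintro ⟨s, hs⟩
    exact ⟨s, by simp [hs]⟩

lemma mem_ME (y : ℂ) (v : Fin 4 → ℂ) :
    v ∈ ME E y ↔ E.symm v 2 = y * E.symm v 0 ∧ E.symm v 3 = y * E.symm v 1 := by
  rw [← mem_range_rulM]
  constructor
  · rintro ⟨s, rfl⟩
    exact ⟨s, by simp⟩
  · rintro ⟨s, hs⟩
    exact ⟨s, by simp [hs]⟩

lemma finrank_LE (x : ℂ) : Module.finrank ℂ (LE E x) = 2 := by
  rw [LE, LinearMap.finrank_range_of_inj, Module.finrank_fin_fun]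
  exact E.injective.comp (rulL_inj x)

lemma finrank_ME (y : ℂ) : Module.finrank ℂ (ME E y) = 2 := by
  rw [ME, LinearMap.finrank_range_of_inj, Module.finrank_fin_fun]
  exact E.injective.comp (rulM_inj y)

lemma eq_zero_of_symm {v : Fin 4 → ℂ} (h : ∀ i, E.symm v i = 0) : v = 0 := by
  have : E.symm v = 0 := funext h
  simpa using this

lemma LE_inf {x x' : ℂ} (h : x ≠ x') : LE E x ⊓ LE E x' = ⊥ := by
  rw [eq_bot_iff]
  intro v hv
  obtain ⟨h1, h2⟩ := Submodule.mem_inf.mp hv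
  rw [mem_LE] at h1 h2
  have hx : x - x' ≠ 0 := sub_ne_zero.mpr h
  have k0 : E.symm v 0 = 0 := by
    have : (x - x') * E.symm v 0 = 0 := by
      rw [sub_mul, ← h1.1, ← h2.1, sub_self]
    exact (mul_eq_zero.mp this).resolve_left hx
  have k2 : E.symm v 2 = 0 := by
    have : (x - x') * E.symm v 2 = 0 := by
      rw [sub_mul, ← h1.2, ← h2.2, sub_self]
    exact (mul_eq_zero.mp this).resolve_left hx
  rw [Submodule.mem_bot]
  apply eq_zero_of_symm E
  intro i
  fin_cases i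
  · exact k0
  · exact h1.1.trans (by rw [k0, mul_zero])
  · exact k2
  · exact h1.2.trans (by rw [k2, mul_zero])

lemma ME_inf {x x' : ℂ} (h : x ≠ x') : ME E x ⊓ ME E x' = ⊥ := by
  rw [eq_bot_iff]
  intro v hv
  obtain ⟨h1, h2⟩ := Submodule.mem_inf.mp hv
  rw [mem_ME] at h1 h2
  have hx : x - x' ≠ 0 := sub_ne_zero.mpr h
  have k0 : E.symm v 0 = 0 := by
    have : (x - x') * E.symm v 0 = 0 := by
      rw [sub_mul, ← h1.1, ← h2.1, sub_self]
    exact (mul_eq_zero.mp this).resolve_left hx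
  have k2 : E.symm v 1 = 0 := by
    have : (x - x') * E.symm v 1 = 0 := by
      rw [sub_mul, ← h1.2, ← h2.2, sub_self]
    exact (mul_eq_zero.mp this).resolve_left hx
  rw [Submodule.mem_bot]
  apply eq_zero_of_symm E
  intro i
  fin_cases i
  · exact k0
  · exact k2
  · exact h1.1.trans (by rw [k0, mul_zero])
  · exact h1.2.trans (by rw [k2, mul_zero])

lemma LE_inf_ME (x y : ℂ) :
    LE E x ⊓ ME E y = Submodule.span ℂ {E ![1, x, y, x * y]} := by
  apply le_antisymm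
  · intro v hv
    obtain ⟨h1, h2⟩ := Submodule.mem_inf.mp hv
    rw [mem_LE] at h1
    rw [mem_ME] at h2
    rw [Submodule.mem_span_singleton]
    refine ⟨E.symm v 0, ?_⟩
    rw [← map_smul]
    apply E.symm.injective
    rw [LinearEquiv.symm_apply_apply]
    funext i
    fin_cases i
    · simp
    · simp [h1.1, mul_comm]
    · simp [h2.1, mul_comm]
    · simp [h1.2, h2.1]; ring
  · rw [Submodule.span_singleton_le_iff_mem, Submodule.mem_inf, mem_LE, mem_ME]
    simp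
    ring

lemma finrank_LE_inf_ME (x y : ℂ) : Module.finrank ℂ (↥(LE E x ⊓ ME E y)) = 1 := by
  rw [LE_inf_ME]
  apply finrank_span_singleton
  intro h
  have h1 : (![1, x, y, x * y] : Fin 4 → ℂ) = 0 := by simpa using h
  have h2 := congrFun h1 0
  simp at h2

theorem grid_of_prod (Z : Finset (ℙ ℂ (Fin 4 → ℂ))) (aff : ℙ ℂ (Fin 4 → ℂ) → Fin 2 → ℂ)
    (haff : ∀ z ∈ Z, z.submodule = Submodule.span ℂ {E ![1, aff z 0, aff z 1, aff z 0 * aff z 1]})
    (A B : Finset ℂ) (hAB : ∀ w : Fin 2 → ℂ, (∃ z ∈ Z, aff z = w) ↔ w 0 ∈ A ∧ w 1 ∈ B) :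
    IsGrid Z := by
  let e1 : Fin A.card ≃ A := A.equivFin.symm
  let e2 : Fin B.card ≃ B := B.equivFin.symm
  refine ⟨A.card, B.card, fun i => LE E (e1 i).1, fun j => ME E (e2 j).1, fun i => finrank_LE E _,
    fun j => finrank_ME E _, ?_, ?_, ?_, ?_⟩
  · intro i i' hii
    exact LE_inf E (fun hcon => hii (e1.injective (Subtype.ext hcon)))
  · intro i i' hii
    exact ME_inf E (fun hcon => hii (e2.injective (Subtype.ext hcon)))
  · intro i j
    exact finrank_LE_inf_ME E _ _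
  · intro z
    constructor
    · intro hz
      obtain ⟨h1, h2⟩ := (hAB (aff z)).mp ⟨z, hz, rfl⟩
      refine ⟨e1.symm ⟨_, h1⟩, e2.symm ⟨_, h2⟩, ?_⟩
      rw [LE_inf_ME, Equiv.apply_symm_apply, Equiv.apply_symm_apply]
      exact haff z hz
    · rintro ⟨i, j, hij⟩
      rw [LE_inf_ME] at hij
      obtain ⟨z', hz', h1⟩ := (hAB ![(e1 i).1, (e2 j).1]).mpr ⟨(e1 i).2, (e2 j).2⟩
      have h2 := haff z' hz'
      rw [h1] at h2
      simp only [Matrix.cons_val_zero, Matrix.cons_val_one] at h2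
      rw [← hij] at h2
      rw [← Projectivization.submodule_injective h2]
      exact hz'

theorem grid_of_two (Z : Finset (ℙ ℂ (Fin 4 → ℂ))) (aff : ℙ ℂ (Fin 4 → ℂ) → Fin 2 → ℂ)
    (haff : ∀ z ∈ Z, z.submodule = Submodule.span ℂ {E ![1, aff z 0, aff z 1, aff z 0 * aff z 1]})
    (i : Fin 2) (x y : ℂ) (hxy : x ≠ y) (hZ : ∀ z ∈ Z, aff z i = x ∨ aff z i = y)
    (Z1 Z2 : Finset (ℙ ℂ (Fin 4 → ℂ))) (hZ1 : ∀ z, z ∈ Z1 ↔ z ∈ Z ∧ aff z i = x)
    (hZ2 : ∀ z, z ∈ Z2 ↔ z ∈ Z ∧ aff z i = y) (hc : Z1.card = Z2.card) :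
    IsGrid Z := by
  have hZ' : ∀ z, z ∈ Z ↔ z ∈ Z1 ∨ z ∈ Z2 := by
    intro z
    rw [hZ1, hZ2]
    constructor
    · intro hz
      rcases hZ z hz with h | h
      · exact Or.inl ⟨hz, h⟩
      · exact Or.inr ⟨hz, h⟩
    · rintro (⟨h, -⟩ | ⟨h, -⟩) <;> exact h
  fin_cases i
  · apply two_lines Z (LE E x) (LE E y) (finrank_LE E x) (finrank_LE E y) (LE_inf E hxy) Z1 Z2 hZ'
    · intro z hz
      obtain ⟨h1, h2⟩ := (hZ1 z).mp hz
      rw [haff z h1, Submodule.span_singleton_le_iff_mem, mem_LE]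
      simp only [LinearEquiv.symm_apply_apply]
      simp at h2 ⊢
      rw [h2]
      simp
    · intro z hz
      obtain ⟨h1, h2⟩ := (hZ2 z).mp hz
      rw [haff z h1, Submodule.span_singleton_le_iff_mem, mem_LE]
      simp only [LinearEquiv.symm_apply_apply]
      simp at h2 ⊢
      rw [h2]
      simp
    · exact hc
  · apply two_lines Z (ME E x) (ME E y) (finrank_ME E x) (finrank_ME E y) (ME_inf E hxy) Z1 Z2 hZ'
    · intro z hz
      obtain ⟨h1, h2⟩ := (hZ1 z).mp hz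
      rw [haff z h1, Submodule.span_singleton_le_iff_mem, mem_ME]
      simp only [LinearEquiv.symm_apply_apply]
      simp at h2 ⊢
      rw [h2]
      refine ⟨rfl, mul_comm _ _⟩
    · intro z hz
      obtain ⟨h1, h2⟩ := (hZ2 z).mp hz
      rw [haff z h1, Submodule.span_singleton_le_iff_mem, mem_ME]
      simp only [LinearEquiv.symm_apply_apply]
      simp at h2 ⊢
      rw [h2]
      refine ⟨rfl, mul_comm _ _⟩
    · exact hc

end Pool.Agent.Geproci
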