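import Pool.Agent.Lib_MP_9828eb_ag.Dense
import Pool.Agent.Lib_MP_9828eb_ag.Coord
import Pool.Agent.Lib_MP_9828eb_ag.Geom

set_option autoImplicit false

open MvPolynomial
open scoped LinearAlgebra.Projectivization

namespace Pool.Agent.Geproci

/-- substitution of a linear map -/
noncomputable def lsub (T : (Fin 4 → ℂ) →ₗ[ℂ] (Fin 4 → ℂ)) :
    MvPolynomial (Fin 4) ℂ →ₐ[ℂ] MvPolynomial (Fin 4) ℂ :=
  aeval (fun i => ∑ j, C (T (Pi.single j 1) i) * X j)

lemma lin_apply (T : (Fin 4 → ℂ) →ₗ[ℂ] (Fin 4 → ℂ)) (v : Fin 4 → ℂ) (i : Fin 4) :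
    T v i = ∑ j, T (Pi.single j 1) i * v j := by
  conv_lhs => rw [pi_eq_sum_univ' v]
  rw [map_sum, Finset.sum_apply]
  apply Finset.sum_congr rfl
  intro j _
  rw [map_smul, Pi.smul_apply, smul_eq_mul, mul_comm]

lemma eval_lsub (T : (Fin 4 → ℂ) →ₗ[ℂ] (Fin 4 → ℂ)) (v : Fin 4 → ℂ)
    (f : MvPolynomial (Fin 4) ℂ) : eval v (lsub T f) = eval (T v) f := by
  rw [lsub, eval_aeval_comp]
  have h : (fun i => eval v (∑ j, C (T (Pi.single j 1) i) * X j)) = T v := by
    funext i
    rw [lin_apply T v i, map_sum]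
    simp
  rw [h]

theorem isGrid_main (Z : Finset (ℙ ℂ (Fin 4 → ℂ)))
    (hs : (⨆ z ∈ Z, z.submodule) = ⊤)
    (hq : ∃ q : MvPolynomial (Fin 4) ℂ, q.IsHomogeneous 2 ∧
      (∀ v : Fin 4 → ℂ, (∀ i : Fin 4, eval v (pderiv i q) = 0) → v = 0) ∧
      ∀ z ∈ Z, eval z.rep q = 0)
    (hh : ∃ h : MvPolynomial (Fin 4) ℂ, h ≠ 0 ∧
      ∀ p : Fin 4 → ℂ, p ≠ 0 → eval p h ≠ 0 →
        ∃ F G : MvPolynomial (Fin 4) ℂ, ∀ f : MvPolynomial (Fin 4) ℂ,
          f ∈ Ideal.span {F, G} ↔
            ∀ z ∈ Z, ∀ s t : ℂ, eval (s • p + t • z.rep) f = 0) : IsGrid Z := by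
  classical
  obtain ⟨q, hq1, hq2, hq3⟩ := hq
  obtain ⟨h, hh0, hh1⟩ := hh
  obtain ⟨E, hE, hE0⟩ := exists_coord_affine q hq1 hq2 (Z.image Projectivization.rep) (by
    intro v hv
    obtain ⟨z, -, rfl⟩ := Finset.mem_image.mp hv
    exact z.rep_nonzero)
  have hc0 : ∀ z ∈ Z, E.symm z.rep 0 ≠ 0 := fun z hz =>
    hE0 _ (Finset.mem_image_of_mem _ hz)
  let aff : ℙ ℂ (Fin 4 → ℂ) → Fin 2 → ℂ := fun z =>
    ![E.symm z.rep 1 / E.symm z.rep 0, E.symm z.rep 2 / E.symm z.rep 0]
  have haff0 : ∀ z, aff z 0 = E.symm z.rep 1 / E.symm z.rep 0 := fun z => rfl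
  have haff1 : ∀ z, aff z 1 = E.symm z.rep 2 / E.symm z.rep 0 := fun z => rfl
  have hrep : ∀ z ∈ Z, E.symm z.rep = (E.symm z.rep 0) • zz (aff z) := by
    intro z hz
    have h1 := hc0 z hz
    have h2 : E.symm z.rep 0 * E.symm z.rep 3 - E.symm z.rep 1 * E.symm z.rep 2 = 0 := by
      rw [← hE, LinearEquiv.apply_symm_apply]
      exact hq3 z hz
    funext i
    fin_cases i
    · simp [zz]
    · simp [zz, haff0]; field_simp
    · simp [zz, haff1]; field_simp
    · simp [zz, haff0, haff1]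
      field_simp
      linear_combination h2
  have haff : ∀ z ∈ Z, z.submodule =
      Submodule.span ℂ {E ![1, aff z 0, aff z 1, aff z 0 * aff z 1]} := by
    intro z hz
    have h1 : z.rep = E.symm z.rep 0 • E (zz (aff z)) := by
      rw [← map_smul, ← hrep z hz, LinearEquiv.apply_symm_apply]
    rw [Projectivization.submodule_eq, h1]
    exact Submodule.span_singleton_smul_eq (IsUnit.mk0 _ (hc0 z hz)) _
  have hinj : Set.InjOn aff Z := by
    intro z hz w hw hzw
    apply Projectivization.submodule_injective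
    rw [haff z hz, haff w hw, hzw]
  have hZne : Z.Nonempty := by
    rw [Finset.nonempty_iff_ne_empty]
    rintro rfl
    simp at hs
  -- spanning in affine coordinates
  have hnd : ∀ c : MvPolynomial (Fin 2) ℂ, c ≠ 0 → c.degreeOf 0 ≤ 1 → c.degreeOf 1 ≤ 1 →
      ∃ z ∈ Z.image aff, eval z c ≠ 0 := by
    intro c hc h0 h1
    by_contra hcon
    push Not at hcon
    apply hc
    let l : (Fin 4 → ℂ) →ₗ[ℂ] ℂ :=
      cf 0 c 0 0 • LinearMap.proj 0 + cf 0 c 1 0 • LinearMap.proj 1 +
        cf 0 c 0 1 • LinearMap.proj 2 + cf 0 c 1 1 • LinearMap.proj 3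
    have hl : ∀ v, l v = cf 0 c 0 0 * v 0 + cf 0 c 1 0 * v 1 + cf 0 c 0 1 * v 2 +
        cf 0 c 1 1 * v 3 := fun v => by simp [l]
    have hlz : ∀ w : Fin 2 → ℂ, l (zz w) = eval w c := by
      intro w
      rw [hl, eval_expand h0 h1, Finset.sum_range_succ, Finset.sum_range_one,
        Finset.sum_range_succ, Finset.sum_range_one, Finset.sum_range_succ, Finset.sum_range_one]
      simp [zz]
      ring
    have hker : (⨆ z ∈ Z, z.submodule) ≤ LinearMap.ker (l ∘ₗ E.symm.toLinearMap) := by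
      apply iSup₂_le
      intro z hz
      rw [haff z hz, Submodule.span_singleton_le_iff_mem, LinearMap.mem_ker]
      have h3 : (l ∘ₗ E.symm.toLinearMap) (E ![1, aff z 0, aff z 1, aff z 0 * aff z 1]) =
          l (zz (aff z)) := by
        simp [zz]
      rw [h3, hlz]
      exact hcon _ (Finset.mem_image_of_mem _ hz)
    rw [hs] at hker
    have hl0 : ∀ v, l v = 0 := by
      intro v
      have h3 : E v ∈ LinearMap.ker (l ∘ₗ E.symm.toLinearMap) := hker Submodule.mem_top
      rw [LinearMap.mem_ker] at h3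
      simpa using h3
    have c0 := hl0 (Pi.single 0 1)
    have c1 := hl0 (Pi.single 1 1)
    have c2 := hl0 (Pi.single 2 1)
    have c3 := hl0 (Pi.single 3 1)
    rw [hl] at c0 c1 c2 c3
    simp at c0 c1 c2 c3
    rw [expand_box h0 h1, Finset.sum_range_succ, Finset.sum_range_one,
        Finset.sum_range_succ, Finset.sum_range_one, Finset.sum_range_succ, Finset.sum_range_one,
        c0, c1, c2, c3]
    simp
  -- a good scalar
  let g : ℂ → Fin 4 → MvPolynomial (Fin 3) ℂ := fun lam i =>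
    C lam * ∑ j, C (E (Pi.single j 1) i) * (![1, X 0, X 1, X 0 * X 1 + X 2] : Fin 4 → _) j
  have hg : ∀ lam π, (fun i => eval π (g lam i)) = lam • E (PP π) := by
    intro lam π
    funext i
    have h3 := lin_apply E.toLinearMap (PP π) i
    simp only [LinearEquiv.coe_coe] at h3
    rw [Pi.smul_apply, h3, smul_eq_mul]
    simp only [g, map_mul, eval_C, map_sum]
    congr 1
    apply Finset.sum_congr rfl
    intro j _
    congr 1
    fin_cases j <;> simp [PP]
  obtain ⟨lam, hlam, hH⟩ : ∃ lam : ℂ, lam ≠ 0 ∧ aeval (g lam) h ≠ 0 := by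
    let lf : MvPolynomial (Fin 4) ℂ := lsub E.symm.toLinearMap (X 0)
    have hlf : ∀ v, eval v lf = E.symm v 0 := by
      intro v
      rw [eval_lsub, eval_X]
      rfl
    have hlf0 : lf ≠ 0 := by
      intro hcon
      have h3 := hlf (E (Pi.single 0 1))
      rw [hcon, map_zero, LinearEquiv.symm_apply_apply] at h3
      simp at h3
    obtain ⟨v, hv⟩ := exists_eval_ne_zero (mul_ne_zero hh0 hlf0)
    rw [map_mul, hlf] at hv
    obtain ⟨hv1, hv2⟩ := mul_ne_zero_iff.mp hv
    refine ⟨E.symm v 0, hv2, fun hcon => hv1 ?_⟩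
    let π : Fin 3 → ℂ := ![E.symm v 1 / E.symm v 0, E.symm v 2 / E.symm v 0,
      E.symm v 3 / E.symm v 0 - (E.symm v 1 / E.symm v 0) * (E.symm v 2 / E.symm v 0)]
    have h3 := congrArg (eval π) hcon
    rw [eval_aeval_comp, hg, map_zero] at h3
    have h4 : E.symm v 0 • E (PP π) = v := by
      rw [← map_smul]
      apply E.symm.injective
      rw [LinearEquiv.symm_apply_apply]
      funext i
      fin_cases i
      · simp [PP]
      · simp [PP, π]; field_simp
      · simp [PP, π]; field_simp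
      · simp [PP, π]; field_simp
    rw [h4] at h3
    exact h3
  have hcip : ∀ π, eval π (aeval (g lam) h) ≠ 0 → CIP (Z.image aff) π := by
    intro π hπ
    rw [eval_aeval_comp, hg] at hπ
    have hp0 : lam • E (PP π) ≠ 0 := by
      intro hcon
      rw [smul_eq_zero] at hcon
      rcases hcon with hcon | hcon
      · exact hlam hcon
      · have h3 : PP π = 0 := by simpa using hcon
        have h4 := congrFun h3 0
        simp [PP] at h4
    obtain ⟨F, G, hFG⟩ := hh1 _ hp0 hπ
    refine ⟨lsub E.toLinearMap F, lsub E.toLinearMap G, fun f => ?_⟩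
    have i1 : ∀ f, lsub E.symm.toLinearMap (lsub E.toLinearMap f) = f := by
      intro f
      apply MvPolynomial.funext
      intro v
      rw [eval_lsub, eval_lsub]
      simp
    have i2 : ∀ f, lsub E.toLinearMap (lsub E.symm.toLinearMap f) = f := by
      intro f
      apply MvPolynomial.funext
      intro v
      rw [eval_lsub, eval_lsub]
      simp
    have h1 : f ∈ Ideal.span {lsub E.toLinearMap F, lsub E.toLinearMap G} ↔
        lsub E.symm.toLinearMap f ∈ Ideal.span {F, G} := by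
      rw [Ideal.mem_span_pair, Ideal.mem_span_pair]
      constructor
      · rintro ⟨a, b, rfl⟩
        refine ⟨lsub E.symm.toLinearMap a, lsub E.symm.toLinearMap b, ?_⟩
        rw [map_add, map_mul, map_mul, i1, i1]
      · rintro ⟨a, b, hab⟩
        refine ⟨lsub E.toLinearMap a, lsub E.toLinearMap b, ?_⟩
        rw [← map_mul, ← map_mul, ← map_add, hab, i2]
    rw [h1, hFG]
    have h2 : ∀ z ∈ Z, ∀ s t : ℂ,
        eval (s • lam • E (PP π) + t • z.rep) (lsub E.symm.toLinearMap f) =
        eval ((s * lam) • PP π + (t * E.symm z.rep 0) • zz (aff z)) f := by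
      intro z hz s t
      rw [eval_lsub]
      congr 2
      simp only [LinearEquiv.coe_coe]
      rw [map_add, map_smul, map_smul, LinearEquiv.symm_apply_apply, map_smul, ← smul_smul,
        ← smul_smul, ← hrep z hz]
    constructor
    · intro h3 w hw α β
      obtain ⟨z, hz, rfl⟩ := Finset.mem_image.mp hw
      have h4 := h3 z hz (α / lam) (β / E.symm z.rep 0)
      rw [h2 z hz, div_mul_cancel₀ _ hlam, div_mul_cancel₀ _ (hc0 z hz)] at h4
      exact h4
    · intro h3 z hz s t
      rw [h2 z hz]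
      exact h3 _ (Finset.mem_image_of_mem _ hz) _ _
  rcases concl_of_dense (Z.image aff) (hZne.image _) (aeval (g lam) h) hH hcip hnd with
    ⟨A, B, hAB⟩ | ⟨i, x, y, hxy, hZxy, hcard⟩ | h4
  · apply grid_of_prod E Z aff haff A B
    intro w
    rw [← hAB, Finset.mem_image]
  · apply grid_of_two E Z aff haff i x y hxy
      (fun z hz => hZxy _ (Finset.mem_image_of_mem _ hz))
      (Z.filter (fun z => aff z i = x)) (Z.filter (fun z => aff z i = y))
      (fun z => Finset.mem_filter) (fun z => Finset.mem_filter)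
    have hf : ∀ x : ℂ, (fib (Z.image aff) i x).card = (Z.filter (fun z => aff z i = x)).card := by
      intro x
      have h5 : fib (Z.image aff) i x = (Z.filter (fun z => aff z i = x)).image aff := by
        ext w
        rw [mem_fib, Finset.mem_image, Finset.mem_image]
        constructor
        · rintro ⟨⟨z, hz, rfl⟩, hx⟩
          exact ⟨z, Finset.mem_filter.mpr ⟨hz, hx⟩, rfl⟩
        · rintro ⟨z, hz, rfl⟩
          obtain ⟨hz1, hz2⟩ := Finset.mem_filter.mp hz
          exact ⟨⟨z, hz1, rfl⟩, hz2⟩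
      rw [h5]
      apply Finset.card_image_of_injOn
      intro z hz w hw hzw
      exact hinj (Finset.mem_filter.mp hz).1 (Finset.mem_filter.mp hw).1 hzw
    rw [← hf, ← hf, hcard]
  · exact four_points Z hs ((Finset.card_image_of_injOn hinj).symm.trans h4)

end Pool.Agent.Geproci
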