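import Pool.Agent.Lib_MP_9828eb_ag.Deriv

set_option autoImplicit false

open MvPolynomial

namespace Pool.Agent.Geproci

variable {K : Type*} [Field K]

/-- a polynomial of degree at most one. -/
lemma linear_form (i : Fin 2) (u : MvPolynomial (Fin 2) K) (hu : u.totalDegree ≤ 1) :
    u = C (cf i u 1 0) * X i + C (cf i u 0 1) * X (i + 1) + C (cf i u 0 0) := by
  apply cf_ext i
  intro a b
  have hC : ∀ (c : K) (a b : ℕ), cf i (C c) a b = if a = 0 ∧ b = 0 then c else 0 := by
    intro c a b
    classical
    rw [cf, coeff_C]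
    by_cases h : a = 0 ∧ b = 0
    · obtain ⟨rfl, rfl⟩ := h
      rw [if_pos, if_pos ⟨rfl, rfl⟩]
      simp [ex]
    · rw [if_neg, if_neg h]
      intro h2
      apply h
      have e1 := congrArg (fun n : Fin 2 →₀ ℕ => n i) h2
      have e2 := congrArg (fun n : Fin 2 →₀ ℕ => n (i + 1)) h2
      simp at e1 e2
      exact ⟨e1.symm, e2.symm⟩
  have h1 : C (cf i u 1 0) * X i = X i * C (cf i u 1 0) := mul_comm _ _
  have h2 : C (cf i u 0 1) * X (i + 1) = X (i + 1) * C (cf i u 0 1) := mul_comm _ _
  rw [h1, h2, cf_add, cf_add]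
  rcases a with _ | a
  · rcases b with _ | b
    · simp [hC]
    · rcases b with _ | b
      · simp [hC]
      · rw [cf_eq_zero_of_lt i hu (by omega)]
        simp [hC]
  · rcases b with _ | b
    · rcases a with _ | a
      · simp [hC]
      · rw [cf_eq_zero_of_lt i hu (by omega)]
        simp [hC]
    · rw [cf_eq_zero_of_lt i hu (by omega)]
      simp [hC]

variable [CharZero K] [Algebra ℂ K] (δ : Fin 2 → Derivation ℂ K K)

/-- If `f` divides `D_i f`, the top part is a monomial and the degree in `X_i` is controlled. -/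
lemma fixed_one (i : Fin 2) (f u : MvPolynomial (Fin 2) K) (hf : f ≠ 0)
    (hu : u.totalDegree ≤ 1) (h : Dop δ i f = u * f) :
    ∃ p : ℕ, p ≤ f.totalDegree ∧ cf i f p (f.totalDegree - p) ≠ 0 ∧
      (∀ a b, a + b = f.totalDegree → a ≠ p → cf i f a b = 0) ∧
      (∀ a b, p < a → cf i f a b = 0) ∧ cf i u 1 0 = p := by
  have hlin := linear_form i u hu
  set α := cf i u 1 0 with hαdef
  set β := cf i u 0 1 with hβdef
  set γ := cf i u 0 0 with hγdef
  rw [hlin] at h
  set n := f.totalDegree with hn
  have hz : ∀ a b, n < a + b → cf i f a b = 0 := (totalDegree_le_iff i).mp (le_refl _)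
  -- the coefficient relations
  have hexp : (C α * X i + C β * X (i + 1) + C γ) * f =
      C α * (X i * f) + C β * (X (i + 1) * f) + C γ * f := by ring
  have hrel0 : ∀ b, β * cf i f 0 b + γ * cf i f 0 (b + 1) = δ i (cf i f 0 (b + 1)) := by
    intro b
    have h1 := congrArg (fun g => cf i g 0 (b + 1)) h
    simp only [hexp, cf_add, cf_C_mul, cf_X_mul_zero, cf_X'_mul_succ, cf_Dop_zero] at h1
    rw [h1]; ring
  have hrel1 : ∀ a, α * cf i f a 0 + γ * cf i f (a + 1) 0 =
      δ i (cf i f (a + 1) 0) + (a : K) * cf i f a 0 := by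
    intro a
    have h1 := congrArg (fun g => cf i g (a + 1) 0) h
    simp only [hexp, cf_add, cf_C_mul, cf_X_mul_succ, cf_X'_mul_zero, cf_Dop_succ] at h1
    rw [h1]; ring
  have hrel2 : ∀ a b, α * cf i f a (b + 1) + β * cf i f (a + 1) b + γ * cf i f (a + 1) (b + 1) =
      δ i (cf i f (a + 1) (b + 1)) + (a : K) * cf i f a (b + 1) := by
    intro a b
    have h1 := congrArg (fun g => cf i g (a + 1) (b + 1)) h
    simp only [hexp, cf_add, cf_C_mul, cf_X_mul_succ, cf_X'_mul_succ, cf_Dop_succ] at h1
    rw [h1]
  -- some top coefficient is nonzero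
  have hex : ∃ p q, p + q = n ∧ cf i f p q ≠ 0 := by
    by_contra hcon
    push Not at hcon
    have h0 : homogeneousComponent n f = 0 := by
      apply cf_ext i
      intro a b
      rw [cf_hc, cf_zero]
      split_ifs with hab
      · exact hcon a b hab
      · rfl
    exact top_ne_zero hf h0
  -- β = 0
  have hβ : β = 0 := by
    by_contra hβ
    have hall : ∀ a b, a + b = n → cf i f a b = 0 := by
      intro a
      induction a with
      | zero =>
        intro b hb
        have h1 := hrel0 b
        rw [hz 0 (b + 1) (by omega), map_zero, mul_zero, add_zero] at h1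
        exact (mul_eq_zero.mp h1).resolve_left hβ
      | succ a ih =>
        intro b hb
        have h1 := hrel2 a b
        rw [hz (a + 1) (b + 1) (by omega), ih (b + 1) (by omega), map_zero] at h1
        simp only [mul_zero, zero_add, add_zero] at h1
        exact (mul_eq_zero.mp h1).resolve_left hβ
    obtain ⟨p, q, hpq, hne⟩ := hex
    exact hne (hall p q hpq)
  obtain ⟨p, q, hpq, hne⟩ := hex
  -- the relation at the top
  have htop : ∀ a b, a + b = n → (α - a) * cf i f a b = 0 := by
    intro a b hab
    rcases b with _ | b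
    · have h1 := hrel1 a
      rw [hz (a + 1) 0 (by omega), map_zero] at h1
      linear_combination h1
    · have h1 := hrel2 a b
      rw [hz (a + 1) (b + 1) (by omega), map_zero, hβ] at h1
      linear_combination h1
  have hα : α = p := by
    have h1 := (mul_eq_zero.mp (htop p q hpq)).resolve_right hne
    exact sub_eq_zero.mp h1
  refine ⟨p, by omega, ?_, ?_, ?_, hα⟩
  · have : n - p = q := by omega
    rw [this]; exact hne
  · intro a b hab hap
    have h1 := htop a b hab
    refine (mul_eq_zero.mp h1).resolve_left ?_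
    rw [hα, sub_eq_zero]
    exact_mod_cast hap.symm
  · -- downward induction
    have key : ∀ m a b, n < a + m → p < a → cf i f a b = 0 := by
      intro m
      induction m with
      | zero =>
        intro a b h1 h2
        exact hz a b (by omega)
      | succ m ih =>
        intro a b h1 h2
        have h3 := ih (a + 1) b (by omega) (by omega)
        have hap : (α - a) ≠ 0 := by
          rw [hα, sub_ne_zero]
          exact_mod_cast h2.ne
        rcases b with _ | b
        · have h4 := hrel1 a
          rw [h3, map_zero] at h4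
          have h5 : (α - a) * cf i f a 0 = 0 := by linear_combination h4
          exact (mul_eq_zero.mp h5).resolve_left hap
        · have h4 := hrel2 a b
          rw [h3, map_zero, hβ] at h4
          have h5 : (α - a) * cf i f a (b + 1) = 0 := by linear_combination h4
          exact (mul_eq_zero.mp h5).resolve_left hap
    intro a b h1
    exact key (n + 1) a b (by omega) h1

/-- If `f` divides both `D_0 f` and `D_1 f`, it has bidegree `(p,q)` with `p+q` its degree,
and its top part is `X_0^p X_1^q` up to a scalar. -/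
lemma fixed_two (f u0 u1 : MvPolynomial (Fin 2) K) (hf : f ≠ 0)
    (hu0 : u0.totalDegree ≤ 1) (hu1 : u1.totalDegree ≤ 1)
    (h0 : Dop δ 0 f = u0 * f) (h1 : Dop δ 1 f = u1 * f) :
    ∃ p q, p + q = f.totalDegree ∧ f.degreeOf 0 ≤ p ∧ f.degreeOf 1 ≤ q ∧
      cf 0 f p q ≠ 0 ∧ (∀ a b, a + b = f.totalDegree → a ≠ p → cf 0 f a b = 0) := by
  obtain ⟨p, hp1, hp2, hp3, hp4, -⟩ := fixed_one δ 0 f u0 hf hu0 h0
  obtain ⟨q, hq1, hq2, hq3, hq4, -⟩ := fixed_one δ 1 f u1 hf hu1 h1
  have hsw : ∀ a b, cf 1 f a b = cf 0 f b a := fun a b => cf_swap 0 f a b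
  have hpq : f.totalDegree - q = p := by
    by_contra hne
    apply hq2
    rw [hsw]
    exact hp3 _ _ (by omega) hne
  have hpq2 : p + q = f.totalDegree := by omega
  refine ⟨p, q, hpq2, ?_, ?_, ?_, hp3⟩
  · rw [degreeOf_le_iff_cf 0]; exact hp4
  · rw [degreeOf_le_iff_cf 1]; exact hq4
  · have : f.totalDegree - p = q := by omega
    rwa [this] at hp2

/-- If `D_i f = 0` then `f` does not involve `X_i`. -/
lemma fixed_zero (i : Fin 2) (f : MvPolynomial (Fin 2) K) (hf : f ≠ 0) (h : Dop δ i f = 0) :
    f.degreeOf i = 0 := by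
  obtain ⟨p, hp1, hp2, hp3, hp4, hp5⟩ := fixed_one δ i f 0 hf (by simp) (by rw [h, zero_mul])
  have hp0 : p = 0 := by
    rw [cf_zero] at hp5
    exact_mod_cast hp5.symm
  have : f.degreeOf i ≤ 0 := by
    rw [degreeOf_le_iff_cf i, ← hp0]
    exact hp4
  omega

end Pool.Agent.Geproci
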