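import Pool.Agent.Lib_MP_9828eb_ag.Transfer

set_option autoImplicit false

open MvPolynomial

namespace Pool.Agent.Geproci

variable {L : Type*} [Field L] {I : Type*} [Fintype I]

lemma finrank_V_le (d : ℕ) (pt : I → Fin 2 → L) :
    Module.finrank L (V L d) ≤ Fintype.card I +
      Module.finrank L (LinearMap.ker (evq (V L d) pt)) := by
  have h1 := LinearMap.finrank_range_add_finrank_ker (evq (V L d) pt)
  have h2 : Module.finrank L (LinearMap.range (evq (V L d) pt)) ≤ Fintype.card I := by
    refine (Submodule.finrank_le _).trans ?_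
    rw [Module.finrank_fintype_fun_eq_card]
  omega

lemma finrank_ker_le_of_le (T : Submodule L (MvPolynomial (Fin 2) L)) (pt : I → Fin 2 → L)
    (W : Submodule L (MvPolynomial (Fin 2) L)) [Module.Finite L W]
    (h : ∀ g ∈ T, (∀ z, eval (pt z) g = 0) → g ∈ W) :
    Module.finrank L (LinearMap.ker (evq T pt)) ≤ Module.finrank L W := by
  have h1 : (LinearMap.ker (evq T pt)).map T.subtype ≤ W := by
    rintro _ ⟨f, hf, rfl⟩
    exact h f.1 f.2 (mem_ker_evq.mp hf)
  have h2 := Submodule.finrank_mono h1
  rwa [Submodule.finrank_map_subtype_eq] at h2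

/-- An ideal of finitely many points is not contained in a principal ideal with degree control. -/
lemma not_principal [Nonempty I] (pt : I → Fin 2 → L) (C' : MvPolynomial (Fin 2) L) (c : ℕ)
    (hc : C'.totalDegree ≤ c) (hC : ∀ z, eval (pt z) C' = 0)
    (h : ∀ (d : ℕ) (g : MvPolynomial (Fin 2) L), g.totalDegree ≤ d → (∀ z, eval (pt z) g = 0) →
      ∃ v : MvPolynomial (Fin 2) L, g = v * C' ∧ (v = 0 ∨ v.totalDegree + c ≤ d)) : False := by
  set N := Fintype.card I with hN
  rcases Nat.eq_zero_or_pos c with h0 | hpos
  · -- `C'` is constant, hence zero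
    have hC0 : C' = 0 := by
      have h1 : C'.totalDegree = 0 := by omega
      rw [totalDegree_eq_zero_iff_eq_C] at h1
      obtain ⟨z⟩ := ‹Nonempty I›
      have h2 := hC z
      rw [h1, eval_C] at h2
      rw [h1, h2, C_0]
    have h1 := finrank_ker_le_of_le (V L N) pt ⊥ (by
      intro g hg hgz
      obtain ⟨v, hv, -⟩ := h N g (mem_V.mp hg) hgz
      rw [hv, hC0, mul_zero]
      exact Submodule.zero_mem _)
    rw [finrank_bot] at h1
    have h2 := finrank_V_le N pt
    have h3 := finrank_V (k := L) N
    nlinarith
  · let μ : V L N →ₗ[L] MvPolynomial (Fin 2) L :=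
      { toFun := fun v => v.1 * C'
        map_add' := fun x y => by simp [add_mul]
        map_smul' := fun c x => by simp }
    have h1 := finrank_ker_le_of_le (V L (N + c)) pt (LinearMap.range μ) (by
      intro g hg hgz
      obtain ⟨v, hv, hv2⟩ := h (N + c) g (mem_V.mp hg) hgz
      have hvV : v ∈ V L N := by
        rcases hv2 with h4 | h4
        · rw [h4]; exact Submodule.zero_mem _
        · rw [mem_V]; omega
      exact ⟨⟨v, hvV⟩, hv.symm⟩)
    have h2 : Module.finrank L (LinearMap.range μ) ≤ Module.finrank L (V L N) :=
      LinearMap.finrank_range_le μ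
    have h3 := finrank_V_le (N + c) pt
    have h4 := finrank_V (k := L) N
    have h5 := finrank_V (k := L) (N + c)
    obtain ⟨e, he⟩ : ∃ e, c = e + 1 := ⟨c - 1, by omega⟩
    rw [he] at h1 h3 h5
    rw [← hN] at h3
    nlinarith

/-- Numerical consequences of the complete intersection property. -/
theorem star [Nonempty I] (pt : I → Fin 2 → L) (a b : ℕ) (hab : a ≤ b)
    (A B : MvPolynomial (Fin 2) L) (hA : A.totalDegree ≤ a) (hB : B.totalDegree ≤ b)
    (hAz : ∀ z, eval (pt z) A = 0) (hBz : ∀ z, eval (pt z) B = 0)
    (h : ∀ (d : ℕ) (g : MvPolynomial (Fin 2) L), g.totalDegree ≤ d → (∀ z, eval (pt z) g = 0) →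
      ∃ u v : MvPolynomial (Fin 2) L, g = u * A + v * B ∧ (u = 0 ∨ u.totalDegree + a ≤ d) ∧
        (v = 0 ∨ v.totalDegree + b ≤ d)) :
    1 ≤ a ∧ a * b ≤ Fintype.card I ∧
    Module.finrank L (LinearMap.range (evq (V L a) pt)) + 1 ≤ Module.finrank L (V L a) ∧
    Module.finrank L (LinearMap.range (evq (V L b) pt)) + Module.finrank L (V L (b - a)) + 1 ≤
      Module.finrank L (V L b) := by
  have hA0 : A ≠ 0 := by
    intro h0
    apply not_principal pt B b hB hBz
    intro d g hg hgz
    obtain ⟨u, v, huv, -, hv⟩ := h d g hg hgz
    exact ⟨v, by rw [huv, h0]; ring, hv⟩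
  have ha1 : 1 ≤ a := by
    by_contra hlt
    have h1 : A.totalDegree = 0 := by omega
    rw [totalDegree_eq_zero_iff_eq_C] at h1
    obtain ⟨z⟩ := ‹Nonempty I›
    have h2 := hAz z
    rw [h1, eval_C] at h2
    apply hA0
    rw [h1, h2, C_0]
  have hBA : ∀ u : MvPolynomial (Fin 2) L, u.totalDegree ≤ b - a → B ≠ u * A := by
    intro w hw hBw
    apply not_principal pt A a hA hAz
    intro d g hg hgz
    obtain ⟨u, v, huv, hu, hv⟩ := h d g hg hgz
    refine ⟨u + v * w, by rw [huv, hBw]; ring, ?_⟩
    by_cases hz : u + v * w = 0
    · exact Or.inl hz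
    right
    rcases hu with hu | hu
    · rcases hv with hv | hv
      · exfalso; apply hz; rw [hu, hv]; ring
      · rw [hu, zero_add]
        have := totalDegree_mul v w
        omega
    · rcases hv with hv | hv
      · rw [hv, zero_mul, add_zero]; exact hu
      · have h1 := totalDegree_mul v w
        have h2 := totalDegree_add u (v * w)
        have h3 : (u + v * w).totalDegree + a ≤ max u.totalDegree (v * w).totalDegree + a := by
          omega
        rcases max_cases u.totalDegree (v * w).totalDegree with h4 | h4
        · omega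
        · omega
  refine ⟨ha1, ?_, ?_, ?_⟩
  · -- a * b ≤ N
    have h1 := finrank_ker_le_of_le (V L (a + b)) pt
      (LinearMap.range (kosz (V L b) (V L a) A B)) (by
        intro g hg hgz
        obtain ⟨u, v, huv, hu, hv⟩ := h (a + b) g (mem_V.mp hg) hgz
        have hu' : u ∈ V L b := by
          rcases hu with h4 | h4
          · rw [h4]; exact Submodule.zero_mem _
          · rw [mem_V]; omega
        have hv' : v ∈ V L a := by
          rcases hv with h4 | h4
          · rw [h4]; exact Submodule.zero_mem _
          · rw [mem_V]; omega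
        exact ⟨(⟨u, hu'⟩, ⟨v, hv'⟩), huv.symm⟩)
    have h2 := LinearMap.finrank_range_add_finrank_ker (kosz (V L b) (V L a) A B)
    rw [Module.finrank_prod] at h2
    have h3 : 1 ≤ Module.finrank L (LinearMap.ker (kosz (V L b) (V L a) A B)) := by
      rw [Submodule.one_le_finrank_iff, Submodule.ne_bot_iff]
      refine ⟨(⟨B, mem_V.mpr hB⟩, ⟨-A, mem_V.mpr (by rw [totalDegree_neg]; exact hA)⟩), ?_, ?_⟩
      · rw [LinearMap.mem_ker]
        change B * A + -A * B = 0
        ring
      · intro h0
        have h4 := congrArg (fun x => x.2.1) h0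
        simp only [Prod.snd_zero, ZeroMemClass.coe_zero] at h4
        exact hA0 (neg_eq_zero.mp h4)
    have h4 := finrank_V_le (a + b) pt
    have e1 := finrank_V (k := L) a
    have e2 := finrank_V (k := L) b
    have e3 := finrank_V (k := L) (a + b)
    nlinarith
  · have h1 := LinearMap.finrank_range_add_finrank_ker (evq (V L a) pt)
    have h2 : 1 ≤ Module.finrank L (LinearMap.ker (evq (V L a) pt)) := by
      rw [Submodule.one_le_finrank_iff, Submodule.ne_bot_iff]
      refine ⟨⟨A, mem_V.mpr hA⟩, mem_ker_evq.mpr hAz, ?_⟩
      intro h0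
      apply hA0
      have h4 := congrArg (fun x => x.1) h0
      simpa using h4
    omega
  · have h1 := LinearMap.finrank_range_add_finrank_ker (evq (V L b) pt)
    have h2 : Module.finrank L (V L (b - a)) + 1 ≤
        Module.finrank L (LinearMap.ker (evq (V L b) pt)) := by
      have hinj : Function.Injective (kosz (V L (b - a)) (V L 0) A B) := by
        rw [← LinearMap.ker_eq_bot, LinearMap.ker_eq_bot']
        rintro ⟨u, v⟩ huv
        have huv' : u.1 * A + v.1 * B = 0 := huv
        have hv : v.1.totalDegree = 0 := by
          have := mem_V.mp v.2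
          omega
        rw [totalDegree_eq_zero_iff_eq_C] at hv
        by_cases hc : coeff 0 v.1 = 0
        · rw [hc, C_0] at hv
          have hu : u.1 = 0 := by
            rw [hv, zero_mul, add_zero] at huv'
            exact (mul_eq_zero.mp huv').resolve_right hA0
          exact Prod.ext (Subtype.ext hu) (Subtype.ext hv)
        · exfalso
          apply hBA (C (-(coeff 0 v.1)⁻¹) * u.1)
          · refine (totalDegree_mul _ _).trans ?_
            rw [totalDegree_C, zero_add]
            exact mem_V.mp u.2
          · have h5 : C (coeff 0 v.1) * B = -(u.1 * A) := by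
              rw [← hv]
              linear_combination huv'
            have h6 : B = C (coeff 0 v.1)⁻¹ * (C (coeff 0 v.1) * B) := by
              rw [← mul_assoc, ← C_mul, inv_mul_cancel₀ hc, C_1, one_mul]
            rw [h6, h5, C_neg]
            ring
      have h3 := LinearMap.finrank_range_of_inj hinj
      rw [Module.finrank_prod] at h3
      have h4 : Module.finrank L (V L 0) = 1 := by
        have := finrank_V (k := L) 0
        omega
      have h5 : LinearMap.range (kosz (V L (b - a)) (V L 0) A B) ≤
          (LinearMap.ker (evq (V L b) pt)).map (V L b).subtype := by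
        rintro _ ⟨⟨u, v⟩, rfl⟩
        have hu := mem_V.mp u.2
        have hv := mem_V.mp v.2
        have hmem : u.1 * A + v.1 * B ∈ V L b := by
          apply Submodule.add_mem
          · rw [mem_V]
            refine (totalDegree_mul _ _).trans ?_
            omega
          · rw [mem_V]
            refine (totalDegree_mul _ _).trans ?_
            omega
        refine ⟨⟨_, hmem⟩, ?_, rfl⟩
        rw [SetLike.mem_coe, mem_ker_evq]
        intro z
        simp [hAz z, hBz z]
      have h6 := Submodule.finrank_mono h5
      rw [Submodule.finrank_map_subtype_eq] at h6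
      omega
    omega

end Pool.Agent.Geproci
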