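import Pool.Agent.Lib_MP_9828eb_ag.Descend

set_option autoImplicit false

open MvPolynomial

namespace Pool.Agent.Geproci

variable {K : Type*} [Field K] [Algebra ℂ K]

/-- the projected point, in affine coordinates. -/
noncomputable def pr (σ : Fin 2 → K) (z : Fin 2 → ℂ) : Fin 2 → K :=
  fun i => (algebraMap ℂ K (z i) - σ i)⁻¹

variable (δ : Fin 2 → Derivation ℂ K K) (σ : Fin 2 → K)

/-- `(σ 0, σ 1)` are the coordinates for the two derivations. -/
def Coord (δ : Fin 2 → Derivation ℂ K K) (σ : Fin 2 → K) : Prop :=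
  ∀ i j, δ i (σ j) = if i = j then 1 else 0

variable {δ σ}

lemma sub_ne (h : Coord δ σ) (z : Fin 2 → ℂ) (i : Fin 2) : algebraMap ℂ K (z i) - σ i ≠ 0 := by
  intro h0
  have h1 := congrArg (δ i) h0
  rw [map_sub, map_zero, Derivation.map_algebraMap, h i i, if_pos rfl, zero_sub] at h1
  exact one_ne_zero (neg_eq_zero.mp h1)

lemma pr_ne_zero (h : Coord δ σ) (z : Fin 2 → ℂ) (i : Fin 2) : pr σ z i ≠ 0 :=
  inv_ne_zero (sub_ne h z i)

lemma pr_inj_coord {i : Fin 2} {z w : Fin 2 → ℂ}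
    (hzw : pr σ z i = pr σ w i) : z i = w i := by
  have h1 := inv_injective hzw
  have h2 : algebraMap ℂ K (z i) = algebraMap ℂ K (w i) := by linear_combination h1
  exact (algebraMap ℂ K).injective h2

lemma pr_injective : Function.Injective (pr σ) := by
  intro z w hzw
  funext i
  exact pr_inj_coord (congrFun hzw i)

lemma deriv_pr_self (h : Coord δ σ) (z : Fin 2 → ℂ) (i : Fin 2) :
    δ i (pr σ z i) = pr σ z i ^ 2 := by
  rw [pr, Derivation.leibniz_inv, map_sub, Derivation.map_algebraMap, h i i, if_pos rfl]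
  simp

lemma deriv_pr_other (h : Coord δ σ) (z : Fin 2 → ℂ) (i : Fin 2) :
    δ i (pr σ z (i + 1)) = 0 := by
  rw [pr, Derivation.leibniz_inv, map_sub, Derivation.map_algebraMap, h i (i + 1),
    if_neg (fin2_ne' i)]
  simp

lemma eval_Dop_pr (h : Coord δ σ) (i : Fin 2) (f : MvPolynomial (Fin 2) K) (z : Fin 2 → ℂ)
    (hf : eval (pr σ z) f = 0) : eval (pr σ z) (Dop δ i f) = 0 := by
  rw [eval_Dop δ i f (pr σ z) (deriv_pr_self h z i) (deriv_pr_other h z i), hf, map_zero]

open Classical in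
/-- the points of `Z` whose projection lies on the curve `f`. -/
noncomputable def zs (σ : Fin 2 → K) (Z : Finset (Fin 2 → ℂ)) (f : MvPolynomial (Fin 2) K) :
    Finset (Fin 2 → ℂ) :=
  Z.filter (fun z => eval (pr σ z) f = 0)

lemma mem_zs {Z : Finset (Fin 2 → ℂ)} {f : MvPolynomial (Fin 2) K} {z : Fin 2 → ℂ} :
    z ∈ zs σ Z f ↔ z ∈ Z ∧ eval (pr σ z) f = 0 := by
  classical
  rw [zs, Finset.mem_filter]

/-- Bezout bound for the points of a set of complex points. -/
lemma bezout_pr (Y : Finset (Fin 2 → ℂ)) (f g : MvPolynomial (Fin 2) K) (hf0 : f ≠ 0)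
    (hg0 : g ≠ 0) (hrel : IsRelPrime f g) (hf : ∀ z ∈ Y, eval (pr σ z) f = 0)
    (hg : ∀ z ∈ Y, eval (pr σ z) g = 0) : Y.card ≤ f.totalDegree * g.totalDegree := by
  classical
  rw [← Finset.card_image_of_injective Y (pr_injective (σ := σ))]
  apply bezout f g hf0 hg0 hrel
  · intro z hz
    obtain ⟨y, hy, rfl⟩ := Finset.mem_image.mp hz
    exact hf y hy
  · intro z hz
    obtain ⟨y, hy, rfl⟩ := Finset.mem_image.mp hz
    exact hg y hy

/-- Hypothesis: curves of bidegree `(p,q)` contain at most `(p+q) b` points of `Z`. -/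
def BiBound (Z : Finset (Fin 2 → ℂ)) (b : ℕ) : Prop :=
  ∀ (p q : ℕ) (c : MvPolynomial (Fin 2) ℂ) (Y : Finset (Fin 2 → ℂ)), c ≠ 0 → c.degreeOf 0 ≤ p →
    c.degreeOf 1 ≤ q → Y ⊆ Z → (∀ z ∈ Y, eval z c = 0) → Y.card ≤ (p + q) * b

lemma zs_irreducible [CharZero K] (h : Coord δ σ) (Z : Finset (Fin 2 → ℂ)) (b : ℕ)
    (hbi : BiBound Z b)
    (f : MvPolynomial (Fin 2) K) (hf : Irreducible f) (hdeg : f.totalDegree + 1 ≤ b) :
    (zs σ Z f).card ≤ f.totalDegree * b := by
  by_contra hcon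
  push Not at hcon
  have hf0 : f ≠ 0 := hf.ne_zero
  have hdvd : ∀ i : Fin 2, ∃ u : MvPolynomial (Fin 2) K, u.totalDegree ≤ 1 ∧
      Dop δ i f = u * f := by
    intro i
    have hd : f ∣ Dop δ i f := by
      by_contra hnd
      have hrel : IsRelPrime f (Dop δ i f) := hf.isRelPrime_iff_not_dvd.mpr hnd
      have hD0 : Dop δ i f ≠ 0 := by
        intro h0
        exact hnd (h0 ▸ dvd_zero f)
      have hb := bezout_pr (σ := σ) (zs σ Z f) f (Dop δ i f) hf0 hD0 hrel
        (fun z hz => (mem_zs.mp hz).2) (fun z hz => eval_Dop_pr h i f z (mem_zs.mp hz).2)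
      have h2 := totalDegree_Dop δ i (le_refl f.totalDegree)
      have h3 : f.totalDegree * (Dop δ i f).totalDegree ≤ f.totalDegree * b :=
        Nat.mul_le_mul_left _ (h2.trans hdeg)
      omega
    obtain ⟨u, hu⟩ := hd
    by_cases hu0 : u = 0
    · exact ⟨0, by simp, by rw [hu, hu0]; ring⟩
    · refine ⟨u, ?_, by rw [hu]; ring⟩
      have h2 := totalDegree_Dop δ i (le_refl f.totalDegree)
      rw [hu, totalDegree_mul_of_isDomain hf0 hu0] at h2
      omega
  obtain ⟨u0, hu0, e0⟩ := hdvd 0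
  obtain ⟨u1, hu1, e1⟩ := hdvd 1
  obtain ⟨p, q, hpq, hp, hq, -, -⟩ := fixed_two δ f u0 u1 hf0 hu0 hu1 e0 e1
  obtain ⟨c, hc0, hc1, hc2, hc3⟩ := descend_proj σ f hf0 hp hq
  have := hbi p q c (zs σ Z f) hc0 hc1 hc2 (fun z hz => (mem_zs.mp hz).1)
    (fun z hz => hc3 z (sub_ne h z) (mem_zs.mp hz).2)
  rw [hpq] at this
  omega

lemma zs_mul_le (Z : Finset (Fin 2 → ℂ)) (f g : MvPolynomial (Fin 2) K) :
    (zs σ Z (f * g)).card ≤ (zs σ Z f).card + (zs σ Z g).card := by
  classical
  refine (Finset.card_le_card ?_).trans (Finset.card_union_le _ _)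
  intro z hz
  rw [mem_zs, map_mul, mul_eq_zero] at hz
  rw [Finset.mem_union, mem_zs, mem_zs]
  tauto

lemma zs_bound [CharZero K] (h : Coord δ σ) (Z : Finset (Fin 2 → ℂ)) (b : ℕ)
    (hbi : BiBound Z b)
    (f : MvPolynomial (Fin 2) K) (hf : f ≠ 0) (hdeg : f.totalDegree + 1 ≤ b) :
    (zs σ Z f).card ≤ f.totalDegree * b := by
  classical
  revert hf hdeg
  induction f using WfDvdMonoid.induction_on_irreducible with
  | zero => intro hf; exact absurd rfl hf
  | unit u hu =>
    intro _ _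
    have : zs σ Z u = ∅ := by
      rw [Finset.eq_empty_iff_forall_notMem]
      intro z hz
      have h1 : IsUnit (eval (pr σ z) u) := hu.map _
      rw [(mem_zs.mp hz).2] at h1
      exact not_isUnit_zero h1
    rw [this]; simp
  | mul a i ha hi ih =>
    intro hne hdeg
    rw [totalDegree_mul_of_isDomain hi.ne_zero ha] at hdeg ⊢
    have h1 := ih ha (by omega)
    have h2 := zs_irreducible h Z b hbi i hi (by omega)
    have h3 := zs_mul_le (σ := σ) Z i a
    rw [add_mul]
    omega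

/-- a polynomial of total degree zero which is nonzero is a unit. -/
lemma isUnit_of_deg_zero {f : MvPolynomial (Fin 2) K} (hf : f ≠ 0) (h0 : f.totalDegree = 0) :
    IsUnit f := by
  rw [totalDegree_eq_zero_iff_eq_C] at h0
  rw [h0]
  apply IsUnit.map
  rw [isUnit_iff_ne_zero]
  intro h
  apply hf
  rw [h0, h, C_0]

/-- First step: the projection from the generic point of the quadric is a complete
intersection. -/
theorem step1 [CharZero K] (h : Coord δ σ) (Z : Finset (Fin 2 → ℂ)) (a b : ℕ) (ha : 1 ≤ a)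
    (hab : a ≤ b) (hN : a * b ≤ Z.card)
    (hF : ∃ F : MvPolynomial (Fin 2) K, F ≠ 0 ∧ F.totalDegree ≤ a ∧
      ∀ z ∈ Z, eval (pr σ z) F = 0)
    (hG : ∀ F : MvPolynomial (Fin 2) K, F ≠ 0 → F.totalDegree = a →
      (∀ z ∈ Z, eval (pr σ z) F = 0) → ∃ G : MvPolynomial (Fin 2) K, G.totalDegree ≤ b ∧
        (∀ z ∈ Z, eval (pr σ z) G = 0) ∧ ¬ F ∣ G)
    (hbi : BiBound Z b) :
    ∃ F G : MvPolynomial (Fin 2) K, F ≠ 0 ∧ G ≠ 0 ∧ F.totalDegree = a ∧ G.totalDegree = b ∧
      IsRelPrime F G ∧ (∀ z ∈ Z, eval (pr σ z) F = 0) ∧ (∀ z ∈ Z, eval (pr σ z) G = 0) ∧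
      Z.card = a * b := by
  obtain ⟨F, hF0, hFa, hFZ⟩ := hF
  have hzsF : zs σ Z F = Z := by
    ext z
    rw [mem_zs]
    exact ⟨fun h => h.1, fun h => ⟨h, hFZ z h⟩⟩
  have hFdeg : F.totalDegree = a := by
    by_contra hne
    have hlt : F.totalDegree + 1 ≤ a := by omega
    have h1 := zs_bound h Z b hbi F hF0 (by omega)
    rw [hzsF] at h1
    have h2 : (F.totalDegree + 1) * b ≤ a * b := Nat.mul_le_mul_right _ hlt
    have h3 : (F.totalDegree + 1) * b = F.totalDegree * b + b := by ring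
    omega
  obtain ⟨G, hGb, hGZ, hFG⟩ := hG F hF0 hFdeg hFZ
  have hG0 : G ≠ 0 := by rintro rfl; exact hFG (dvd_zero F)
  obtain ⟨F', G', κ, hrel, hκF, hκG⟩ := UniqueFactorizationMonoid.exists_reduced_factors F hF0 G
  have hκ0 : κ ≠ 0 := by rintro rfl; rw [zero_mul] at hκF; exact hF0 hκF.symm
  have hF'0 : F' ≠ 0 := by rintro rfl; rw [mul_zero] at hκF; exact hF0 hκF.symm
  have hG'0 : G' ≠ 0 := by rintro rfl; rw [mul_zero] at hκG; exact hG0 hκG.symm
  have dF : κ.totalDegree + F'.totalDegree = a := by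
    rw [← hFdeg, ← hκF, totalDegree_mul_of_isDomain hκ0 hF'0]
  have dG : κ.totalDegree + G'.totalDegree ≤ b := by
    rw [← totalDegree_mul_of_isDomain hκ0 hG'0, hκG]; exact hGb
  have hF'pos : F'.totalDegree ≠ 0 := by
    intro h0
    have hu := isUnit_of_deg_zero hF'0 h0
    apply hFG
    rw [← hκF]
    exact (hu.mul_right_dvd).mpr ⟨G', hκG.symm⟩
  have hκdeg : κ.totalDegree = 0 := by
    by_contra hκne
    have h1 := zs_bound h Z b hbi κ hκ0 (by omega)
    classical
    have h2 : Z.card ≤ (zs σ Z κ).card + (Z.filter (fun z => z ∉ zs σ Z κ)).card := by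
      rw [← Finset.card_union_of_disjoint]
      · apply Finset.card_le_card
        intro z hz
        rw [Finset.mem_union, Finset.mem_filter]
        by_cases h : z ∈ zs σ Z κ
        · exact Or.inl h
        · exact Or.inr ⟨hz, h⟩
      · rw [Finset.disjoint_left]
        intro z hz hz'
        exact (Finset.mem_filter.mp hz').2 hz
    have h3 : (Z.filter (fun z => z ∉ zs σ Z κ)).card ≤ F'.totalDegree * G'.totalDegree := by
      apply bezout_pr (σ := σ) _ F' G' hF'0 hG'0 hrel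
      · intro z hz
        rw [Finset.mem_filter, mem_zs] at hz
        have h4 := hFZ z hz.1
        rw [← hκF, map_mul, mul_eq_zero] at h4
        rcases h4 with h4 | h4
        · exact absurd ⟨hz.1, h4⟩ hz.2
        · exact h4
      · intro z hz
        rw [Finset.mem_filter, mem_zs] at hz
        have h4 := hGZ z hz.1
        rw [← hκG, map_mul, mul_eq_zero] at h4
        rcases h4 with h4 | h4
        · exact absurd ⟨hz.1, h4⟩ hz.2
        · exact h4
    set k := κ.totalDegree with hk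
    set m := F'.totalDegree with hm
    set n := G'.totalDegree with hn
    have h5 : Z.card ≤ k * b + m * (b - k) := by
      have : m * n ≤ m * (b - k) := Nat.mul_le_mul_left _ (by omega)
      omega
    obtain ⟨c, hc⟩ : ∃ c, b = k + c := ⟨b - k, by omega⟩
    rw [← dF, hc] at hN
    rw [hc] at h5
    have h6 : k + c - k = c := by omega
    rw [h6] at h5
    have hm1 : 1 ≤ m := by omega
    have hk1 : 1 ≤ k := by omega
    nlinarith [Nat.mul_le_mul hm1 hk1]
  have hκu := isUnit_of_deg_zero hκ0 hκdeg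
  have hrel' : IsRelPrime F G := by
    rw [← hκF, ← hκG]
    intro d hd1 hd2
    apply hrel
    · exact (hκu.dvd_mul_left).mp hd1
    · exact (hκu.dvd_mul_left).mp hd2
  have hb := bezout_pr (σ := σ) Z F G hF0 hG0 hrel' hFZ hGZ
  rw [hFdeg] at hb
  have hGdeg : G.totalDegree = b := by
    by_contra hne
    have h1 : G.totalDegree + 1 ≤ b := by omega
    have h2 : a * (G.totalDegree + 1) ≤ a * b := Nat.mul_le_mul_left _ h1
    have h3 : a * (G.totalDegree + 1) = a * G.totalDegree + a := by ring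
    omega
  rw [hGdeg] at hb
  exact ⟨F, G, hF0, hG0, hFdeg, hGdeg, hrel', hFZ, hGZ, le_antisymm hb hN⟩

end Pool.Agent.Geproci
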