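import Pool.Agent.Lib_MP_9828eb_ag.Step1

set_option autoImplicit false

open MvPolynomial

namespace Pool.Agent.Geproci

variable {K : Type*} [Field K]

/-- Euler relation in a symmetric form. -/
lemma euler (i : Fin 2) {g : MvPolynomial (Fin 2) K} {n : ℕ} (hg : g.IsHomogeneous n) :
    X (i + 1) * (X i ^ 2 * pderiv i g) + X i * (X (i + 1) ^ 2 * pderiv (i + 1) g) =
      C (n : K) * (X i * X (i + 1)) * g := by
  have h := hg.sum_X_mul_pderiv
  rw [sum_fin2 i, nsmul_eq_mul] at h
  have h2 : (C (n : K) : MvPolynomial (Fin 2) K) = (n : MvPolynomial (Fin 2) K) := by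
    simp
  rw [h2]
  linear_combination (X i * X (i + 1)) * h

lemma X_dvd_of_cf (i : Fin 2) {f : MvPolynomial (Fin 2) K} (h : ∀ b, cf i f 0 b = 0) :
    X i ∣ f := by
  rw [f.as_sum]
  apply Finset.dvd_sum
  intro m hm
  rw [X_dvd_monomial]
  right
  intro h0
  have h1 := h (m (i + 1))
  rw [cf, ← h0, ← ex_eq] at h1
  exact (mem_support_iff.mp hm) h1

lemma cf_mul_monomial (i : Fin 2) (r : MvPolynomial (Fin 2) K) (P Q : ℕ) (c : K) (x y : ℕ) :
    cf i (r * monomial (ex i P Q) c) x y =
      if P ≤ x ∧ Q ≤ y then cf i r (x - P) (y - Q) * c else 0 := by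
  classical
  rw [cf, coeff_mul_monomial']
  have h1 : ex i P Q ≤ ex i x y ↔ P ≤ x ∧ Q ≤ y := by
    constructor
    · intro h
      have e1 := h i
      have e2 := h (i + 1)
      simp only [ex_self, ex_other] at e1 e2
      exact ⟨e1, e2⟩
    · rintro ⟨h1, h2⟩ j
      rcases fin2_cases i j with h | h
      · subst h; simpa using h1
      · subst h; simpa using h2
  have h2 : ex i x y - ex i P Q = ex i (x - P) (y - Q) := by
    ext j
    rcases fin2_cases i j with h | h
    · subst h; simp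
    · subst h; simp
  by_cases h : P ≤ x ∧ Q ≤ y
  · rw [if_pos (h1.mpr h), if_pos h, h2, cf]
  · rw [if_neg (fun h' => h (h1.mp h')), if_neg h]

lemma cf_monomial (i : Fin 2) (P Q : ℕ) (c : K) (x y : ℕ) :
    cf i (monomial (ex i P Q) c) x y = if P = x ∧ Q = y then c else 0 := by
  classical
  rw [cf, coeff_monomial]
  have h1 : ex i P Q = ex i x y ↔ P = x ∧ Q = y := by
    constructor
    · intro h
      have e1 := congrArg (fun n : Fin 2 →₀ ℕ => n i) h
      have e2 := congrArg (fun n : Fin 2 →₀ ℕ => n (i + 1)) h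
      simp only [ex_self, ex_other] at e1 e2
      exact ⟨e1, e2⟩
    · rintro ⟨rfl, rfl⟩; rfl
  by_cases h : P = x ∧ Q = y
  · rw [if_pos (h1.mpr h), if_pos h]
  · rw [if_neg (fun h' => h (h1.mp h')), if_neg h]

lemma cf_top (i : Fin 2) (f : MvPolynomial (Fin 2) K) (x y : ℕ) :
    cf i (top f) x y = if x + y = f.totalDegree then cf i f x y else 0 := by
  rw [top, cf_hc]

lemma deg_mul_le_of {f u : MvPolynomial (Fin 2) K} {d e : ℕ} (hf : f ≠ 0)
    (h : (u * f).totalDegree ≤ d) (hd : d = e + f.totalDegree) : u.totalDegree ≤ e := by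
  by_cases hu : u = 0
  · rw [hu]; simp
  · rw [totalDegree_mul_of_isDomain hu hf] at h
    omega

lemma eq_zero_of_dvd_of_lt {f g : MvPolynomial (Fin 2) K} (h : f ∣ g)
    (hlt : g.totalDegree < f.totalDegree) : g = 0 := by
  by_contra hg
  obtain ⟨s, rfl⟩ := h
  have hs : s ≠ 0 := by rintro rfl; simp at hg
  have hf : f ≠ 0 := by rintro rfl; simp at hg
  rw [totalDegree_mul_of_isDomain hf hs] at hlt
  omega

variable [Algebra ℂ K]

/-- The projected set is a complete intersection of two curves of degrees `a`, `b`. -/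
structure CIData (σ : Fin 2 → K) (Z : Finset (Fin 2 → ℂ)) (a b : ℕ)
    (F G : MvPolynomial (Fin 2) K) : Prop where
  F0 : F ≠ 0
  G0 : G ≠ 0
  Fdeg : F.totalDegree = a
  Gdeg : G.totalDegree = b
  rel : IsRelPrime F G
  FZ : ∀ z ∈ Z, eval (pr σ z) F = 0
  GZ : ∀ z ∈ Z, eval (pr σ z) G = 0
  card : Z.card = a * b

variable {σ : Fin 2 → K} {Z : Finset (Fin 2 → ℂ)} {a b : ℕ} {F G : MvPolynomial (Fin 2) K}

lemma CIData.rep (H : CIData σ Z a b F G) (h : MvPolynomial (Fin 2) K)
    (hh : ∀ z ∈ Z, eval (pr σ z) h = 0) (d : ℕ) (hd : h.totalDegree ≤ d) :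
    ∃ u v, h = u * F + v * G ∧ (u * F).totalDegree ≤ d ∧ (v * G).totalDegree ≤ d := by
  classical
  apply ci_rep F G H.F0 H.G0 H.rel (Z.image (pr σ))
  · intro z hz
    obtain ⟨y, hy, rfl⟩ := Finset.mem_image.mp hz
    exact H.FZ y hy
  · intro z hz
    obtain ⟨y, hy, rfl⟩ := Finset.mem_image.mp hz
    exact H.GZ y hy
  · rw [Finset.card_image_of_injective Z (pr_injective (σ := σ)), H.card, H.Fdeg, H.Gdeg]
  · intro z hz
    obtain ⟨y, hy, rfl⟩ := Finset.mem_image.mp hz
    exact hh y hy
  · exact hd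

lemma CIData.top_rel (H : CIData σ Z a b F G) : IsRelPrime (top F) (top G) := by
  classical
  apply ci_top F G H.F0 H.G0 H.rel (Z.image (pr σ))
  · intro z hz
    obtain ⟨y, hy, rfl⟩ := Finset.mem_image.mp hz
    exact H.FZ y hy
  · intro z hz
    obtain ⟨y, hy, rfl⟩ := Finset.mem_image.mp hz
    exact H.GZ y hy
  · rw [Finset.card_image_of_injective Z (pr_injective (σ := σ)), H.card, H.Fdeg, H.Gdeg]

lemma CIData.symm (H : CIData σ Z a b F G) : CIData σ Z b a G F :=
  ⟨H.G0, H.F0, H.Gdeg, H.Fdeg, H.rel.symm, H.GZ, H.FZ, by rw [H.card, mul_comm]⟩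

lemma CIData.top_degF (H : CIData σ Z a b F G) : (top F).totalDegree = a := by
  rw [(top_homog F).totalDegree (top_ne_zero H.F0), H.Fdeg]

lemma CIData.top_homF (H : CIData σ Z a b F G) : (top F).IsHomogeneous a := by
  have := top_homog F
  rwa [H.Fdeg] at this

variable [CharZero K] {δ : Fin 2 → Derivation ℂ K K}

/-- Equation satisfied by the top part of `G`. -/
lemma CIData.eqG (H : CIData σ Z a b F G) (hc : Coord δ σ) (hab : a ≤ b) (i : Fin 2) :
    ∃ r w : MvPolynomial (Fin 2) K, r.totalDegree ≤ b + 1 - a ∧ w.totalDegree ≤ 1 ∧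
      X i ^ 2 * pderiv i (top G) = r * top F + w * top G := by
  obtain ⟨e, he⟩ : ∃ e, b + 1 = e + a := ⟨b + 1 - a, by omega⟩
  have hD := totalDegree_Dop δ i H.Gdeg.le
  obtain ⟨u, v, huv, hu, hv⟩ := H.rep (Dop δ i G)
    (fun z hz => eval_Dop_pr hc i G z (H.GZ z hz)) (b + 1) hD
  have hu' : u.totalDegree ≤ e := deg_mul_le_of H.F0 hu (by rw [H.Fdeg]; exact he)
  have hv' : v.totalDegree ≤ 1 := deg_mul_le_of H.G0 hv (by rw [H.Gdeg]; omega)
  refine ⟨homogeneousComponent e u, homogeneousComponent 1 v,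
    (homogeneousComponent_isHomogeneous e u).totalDegree_le.trans (by omega),
    (homogeneousComponent_isHomogeneous 1 v).totalDegree_le, ?_⟩
  have h1 := congrArg (homogeneousComponent (b + 1)) huv
  rw [hc_Dop δ i H.Gdeg.le, map_add] at h1
  have h2 : homogeneousComponent (b + 1) (u * F) = homogeneousComponent e u * top F := by
    rw [he, top, H.Fdeg]
    exact hc_mul hu' H.Fdeg.le
  have h3 : homogeneousComponent (b + 1) (v * G) = homogeneousComponent 1 v * top G := by
    rw [add_comm b 1, top, H.Gdeg]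
    exact hc_mul hv' H.Gdeg.le
  rw [h2, h3] at h1
  rw [← h1, top, H.Gdeg]

/-- The key relation for the coefficients of the top part of `G`. -/
lemma CIData.relG (H : CIData σ Z a b F G) (hc : Coord δ σ) (hab : a ≤ b) (ha : 3 ≤ a) (i : Fin 2)
    (P Q : ℕ) (c : K) (htop : top F = monomial (ex i P Q) c) :
    ∃ α : K, ∀ x y, (x < P ∨ y < Q) → ((x : K) - α) * cf i (top G) x y = 0 := by
  obtain ⟨r, w, -, hw, hE⟩ := H.eqG hc hab i
  obtain ⟨r', w', -, hw', hE'⟩ := H.eqG hc hab (i + 1)
  have hGt : (top G).IsHomogeneous b := H.symm.top_homF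
  have hEu := euler i hGt
  set Λ := C (b : K) * (X i * X (i + 1)) - X (i + 1) * w - X i * w' with hΛ
  have hrel : Λ * top G = (X (i + 1) * r + X i * r') * top F := by
    rw [hE, hE'] at hEu
    rw [hΛ]
    linear_combination -hEu
  have hdvd : top F ∣ Λ := by
    apply H.top_rel.dvd_of_dvd_mul_right
    exact ⟨X (i + 1) * r + X i * r', by rw [hrel]; ring⟩
  have hΛdeg : Λ.totalDegree ≤ 2 := by
    rw [hΛ]
    refine (totalDegree_sub _ _).trans (max_le ((totalDegree_sub _ _).trans (max_le ?_ ?_)) ?_)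
    · refine (totalDegree_mul _ _).trans ?_
      rw [totalDegree_C]
      have := totalDegree_mul (X i : MvPolynomial (Fin 2) K) (X (i + 1))
      rw [totalDegree_X, totalDegree_X] at this
      omega
    · refine (totalDegree_mul _ _).trans ?_
      rw [totalDegree_X]
      omega
    · refine (totalDegree_mul _ _).trans ?_
      rw [totalDegree_X]
      omega
  have hΛ0 : Λ = 0 := by
    apply eq_zero_of_dvd_of_lt hdvd
    rw [H.top_degF]
    omega
  have hR0 : X (i + 1) * r + X i * r' = 0 := by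
    rw [hΛ0, zero_mul] at hrel
    exact (mul_eq_zero.mp hrel.symm).resolve_right (top_ne_zero H.F0)
  have hr0 : ∀ y, cf i r 0 y = 0 := by
    intro y
    have h1 := congrArg (fun g => cf i g 0 (y + 1)) hR0
    simpa using h1
  have hw0 : ∀ y, cf i w 0 y = 0 := by
    intro y
    have h1 := congrArg (fun g => cf i g 0 (y + 1)) hΛ0
    simp only [hΛ, cf_sub, cf_C_mul, cf_X_mul_zero, cf_X'_mul_succ, cf_zero, mul_zero] at h1
    linear_combination -h1
  have hwlin := linear_form i w hw
  rw [hw0 1, hw0 0] at hwlin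
  set α := cf i w 1 0 with hα
  refine ⟨α, ?_⟩
  intro x y hxy
  have h1 := congrArg (fun g => cf i g (x + 1) y) hE
  have h2 : w * top G = C α * (X i * top G) := by
    rw [hwlin]
    simp only [C_0]
    ring
  simp only [cf_add, cf_X_sq_mul_pderiv_succ, h2, cf_C_mul, cf_X_mul_succ] at h1
  have h3 : cf i (r * top F) (x + 1) y = 0 := by
    rw [htop, cf_mul_monomial]
    split_ifs with h
    · rcases hxy with hx | hy
      · have : x + 1 - P = 0 := by omega
        rw [this, hr0, zero_mul]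
      · omega
    · rfl
  rw [h3] at h1
  linear_combination h1

/-- For `b > a ≥ 2`, the curve `F` is invariant. -/
lemma CIData.invF (H : CIData σ Z a b F G) (hc : Coord δ σ) (hab : a < b) (ha : 2 ≤ a) (i : Fin 2) :
    ∃ u : MvPolynomial (Fin 2) K, u.totalDegree ≤ 1 ∧ Dop δ i F = u * F := by
  have key : ∀ j : Fin 2, ∃ (u : MvPolynomial (Fin 2) K) (c : K), u.totalDegree ≤ 1 ∧
      Dop δ j F = u * F + C c * G ∧ (c ≠ 0 → b = a + 1) := by
    intro j
    obtain ⟨u, v, huv, hu, hv⟩ := H.rep (Dop δ j F)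
      (fun z hz => eval_Dop_pr hc j F z (H.FZ z hz)) (a + 1) (totalDegree_Dop δ j H.Fdeg.le)
    have hu' : u.totalDegree ≤ 1 := deg_mul_le_of H.F0 hu (by rw [H.Fdeg]; omega)
    by_cases hv0 : v = 0
    · exact ⟨u, 0, hu', by rw [huv, hv0, C_0], fun h => absurd rfl h⟩
    · rw [totalDegree_mul_of_isDomain hv0 H.G0, H.Gdeg] at hv
      have hvd : v.totalDegree = 0 := by omega
      rw [totalDegree_eq_zero_iff_eq_C] at hvd
      refine ⟨u, coeff 0 v, hu', by rw [huv, ← hvd], fun _ => by omega⟩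
  obtain ⟨u, c, hu, he, hcb⟩ := key i
  obtain ⟨u', c', hu', he', hcb'⟩ := key (i + 1)
  have hc0 : c = 0 := by
    by_contra hcne
    have hb := hcb hcne
    -- top parts
    have t1 : ∀ (j : Fin 2) (u : MvPolynomial (Fin 2) K) (c : K), u.totalDegree ≤ 1 →
        Dop δ j F = u * F + C c * G →
        X j ^ 2 * pderiv j (top F) = homogeneousComponent 1 u * top F + C c * top G := by
      intro j u c hu he
      have h1 := congrArg (homogeneousComponent (a + 1)) he
      rw [hc_Dop δ j H.Fdeg.le, map_add] at h1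
      have h2 : homogeneousComponent (a + 1) (u * F) = homogeneousComponent 1 u * top F := by
        rw [add_comm a 1, top, H.Fdeg]
        exact hc_mul hu H.Fdeg.le
      have h3 : homogeneousComponent (a + 1) (C c * G) = C c * top G := by
        rw [homogeneousComponent_C_mul, top, H.Gdeg, hb]
      rw [h2, h3] at h1
      rw [← h1, top, H.Fdeg]
    have e1 := t1 i u c hu he
    have e2 := t1 (i + 1) u' c' hu' he'
    have hEu := euler i H.top_homF
    rw [e1, e2] at hEu
    set ℓ : MvPolynomial (Fin 2) K := C c * X (i + 1) + C c' * X i with hℓ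
    have hdvd : top F ∣ ℓ * top G := by
      refine ⟨C (a : K) * (X i * X (i + 1)) - X (i + 1) * homogeneousComponent 1 u -
        X i * homogeneousComponent 1 u', ?_⟩
      rw [hℓ]
      linear_combination hEu
    have hdvd2 : top F ∣ ℓ := H.top_rel.dvd_of_dvd_mul_right hdvd
    have hℓ0 : ℓ = 0 := by
      apply eq_zero_of_dvd_of_lt hdvd2
      rw [H.top_degF]
      have : ℓ.totalDegree ≤ 1 := by
        rw [hℓ]
        refine (totalDegree_add _ _).trans (max_le ?_ ?_)
        · refine (totalDegree_mul _ _).trans ?_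
          rw [totalDegree_C, totalDegree_X]
        · refine (totalDegree_mul _ _).trans ?_
          rw [totalDegree_C, totalDegree_X]
      omega
    have h3 := congrArg (fun g => cf i g 0 1) hℓ0
    have h4 : ℓ = C c * (X (i + 1) * 1) + C c' * (X i * 1) := by rw [hℓ]; ring
    have h5 : cf i (1 : MvPolynomial (Fin 2) K) 0 0 = 1 := by
      rw [cf]
      have : ex i 0 0 = 0 := by simp [ex]
      rw [this]
      simp
    simp only [h4, cf_add, cf_C_mul, cf_X_mul_zero, cf_X'_mul_succ, h5, cf_zero] at h3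
    apply hcne
    linear_combination h3
  refine ⟨u, hu, ?_⟩
  rw [he, hc0, C_0]
  ring

end Pool.Agent.Geproci
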