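import Pool.Agent.Lib_MP_9828eb_ag.Step2

set_option autoImplicit false

open MvPolynomial

namespace Pool.Agent.Geproci

section general
variable {K : Type*} [Field K]

/-- expansion of a polynomial of bounded total degree, for either order of the variables. -/
lemma expand_total (i : Fin 2) {d : ℕ} {f : MvPolynomial (Fin 2) K} (hf : f.totalDegree ≤ d) :
    f = ∑ a ∈ Finset.range (d + 1), ∑ b ∈ Finset.range (d + 1),
      monomial (ex i a b) (cf i f a b) := by
  classical
  apply cf_ext i
  intro a b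
  rw [cf, cf, coeff_sum]
  simp only [coeff_sum, coeff_monomial]
  have hinj : ∀ x y : ℕ, (ex i x y = ex i a b) ↔ (x = a ∧ y = b) := by
    intro x y
    constructor
    · intro h
      have e1 := congrArg (fun n : Fin 2 →₀ ℕ => n i) h
      have e2 := congrArg (fun n : Fin 2 →₀ ℕ => n (i + 1)) h
      simp only [ex_self, ex_other] at e1 e2
      exact ⟨e1, e2⟩
    · rintro ⟨rfl, rfl⟩; rfl
  simp only [hinj]
  by_cases ha : a < d + 1
  · rw [Finset.sum_eq_single_of_mem a (Finset.mem_range.mpr ha)]
    · by_cases hb : b < d + 1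
      · rw [Finset.sum_eq_single_of_mem b (Finset.mem_range.mpr hb)]
        · simp [cf]
        · intro x _ hx
          rw [if_neg]
          rintro ⟨_, h⟩
          exact hx h
      · rw [Finset.sum_eq_zero]
        · exact cf_eq_zero_of_lt i hf (by omega)
        · intro x hx
          rw [if_neg]
          rintro ⟨_, h⟩
          rw [Finset.mem_range] at hx
          omega
    · intro x _ hx
      apply Finset.sum_eq_zero
      intro y _
      rw [if_neg]
      rintro ⟨h, _⟩
      exact hx h
  · rw [Finset.sum_eq_zero]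
    · exact cf_eq_zero_of_lt i hf (by omega)
    · intro x hx
      apply Finset.sum_eq_zero
      intro y _
      rw [if_neg]
      rintro ⟨h, _⟩
      rw [Finset.mem_range] at hx
      omega

/-- specialisation of one variable, as a univariate polynomial. -/
noncomputable def uni (i : Fin 2) (t : K) (f : MvPolynomial (Fin 2) K) : Polynomial K :=
  aeval (fun j => if j = i then Polynomial.C t else Polynomial.X) f

lemma eval_uni (i : Fin 2) (t r : K) (f : MvPolynomial (Fin 2) K) :
    (uni i t f).eval r = eval (fun j => if j = i then t else r) f := by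
  rw [uni]
  induction f using MvPolynomial.induction_on with
  | C a => simp [algebraMap_eq, Polynomial.algebraMap_apply]
  | add p q hp hq => simp [hp, hq]
  | mul_X p j hp =>
    rw [map_mul, Polynomial.eval_mul, hp, map_mul, aeval_X, eval_X]
    congr 1
    split_ifs <;> simp

lemma coeff_uni (i : Fin 2) (t : K) {f : MvPolynomial (Fin 2) K} {d : ℕ} (hf : f.totalDegree ≤ d)
    (k : ℕ) (hk : k ≤ d) :
    (uni i t f).coeff k = ∑ a ∈ Finset.range (d + 1), cf i f a k * t ^ a := by
  rw [uni]
  conv_lhs => rw [expand_total i hf]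
  rw [map_sum, Polynomial.finsetSum_coeff]
  refine Finset.sum_congr rfl fun a _ => ?_
  rw [map_sum, Polynomial.finsetSum_coeff, Finset.sum_eq_single_of_mem k
    (Finset.mem_range.mpr (by omega))]
  · rw [aeval_monomial, Finsupp.prod_fintype _ _ (by simp), prod_fin2 i, ex_self, ex_other,
      if_pos rfl, if_neg (fin2_ne i), Polynomial.algebraMap_apply, ← Polynomial.C_pow,
      ← mul_assoc, ← Polynomial.C_mul, Polynomial.coeff_C_mul_X_pow, if_pos rfl]
    rfl
  · intro b _ hb
    rw [aeval_monomial, Finsupp.prod_fintype _ _ (by simp), prod_fin2 i, ex_self, ex_other,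
      if_pos rfl, if_neg (fin2_ne i), Polynomial.algebraMap_apply, ← Polynomial.C_pow,
      ← mul_assoc, ← Polynomial.C_mul, Polynomial.coeff_C_mul_X_pow, if_neg hb.symm]

lemma natDegree_uni (i : Fin 2) (t : K) {f : MvPolynomial (Fin 2) K} {d : ℕ}
    (hf : f.totalDegree ≤ d) : (uni i t f).natDegree ≤ d := by
  rw [uni]
  conv_lhs => rw [expand_total i hf]
  rw [map_sum]
  refine Polynomial.natDegree_sum_le_of_forall_le _ _ fun a _ => ?_
  rw [map_sum]
  refine Polynomial.natDegree_sum_le_of_forall_le _ _ fun b hb => ?_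
  rw [Finset.mem_range] at hb
  rw [aeval_monomial, Finsupp.prod_fintype _ _ (by simp), prod_fin2 i, ex_self, ex_other,
      if_pos rfl, if_neg (fin2_ne i), Polynomial.algebraMap_apply, ← Polynomial.C_pow,
      ← mul_assoc, ← Polynomial.C_mul]
  refine (Polynomial.natDegree_C_mul_X_pow_le _ _).trans ?_
  omega

end general

variable {K : Type*} [Field K] [Algebra ℂ K]
variable {σ : Fin 2 → K} {Z : Finset (Fin 2 → ℂ)} {a b : ℕ} {F G : MvPolynomial (Fin 2) K}

/-- If `F` does not involve `X_{i+1}`, the points of `Z` have few `i`-coordinates. -/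
lemma card_image_le (i : Fin 2) (hF0 : F ≠ 0) (hF : F.degreeOf (i + 1) = 0)
    (hFZ : ∀ z ∈ Z, eval (pr σ z) F = 0) :
    (Z.image (fun z => z i)).card ≤ F.totalDegree := by
  classical
  set A := Z.image (fun z => z i) with hA
  let pt : ℂ → (Fin 2 → K) := fun x j => if j = i then (algebraMap ℂ K x - σ i)⁻¹ else 0
  have hpt : Function.Injective pt := by
    intro x y hxy
    have h1 := congrFun hxy i
    simp only [pt, if_true] at h1
    have h2 := inv_injective h1
    have h3 : algebraMap ℂ K x = algebraMap ℂ K y := by linear_combination h2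
    exact (algebraMap ℂ K).injective h3
  rw [← Finset.card_image_of_injective A hpt]
  have hX : ¬ (X (i + 1) : MvPolynomial (Fin 2) K) ∣ F := by
    rintro ⟨s, hs⟩
    have hs0 : s ≠ 0 := by rintro rfl; rw [mul_zero] at hs; exact hF0 hs
    rw [hs, degreeOf_mul_eq (X_ne_zero _) hs0, degreeOf_X_self] at hF
    omega
  have hrel : IsRelPrime F (X (i + 1)) :=
    (((X_prime (R := K) (i := i + 1)).irreducible.isRelPrime_iff_not_dvd).mpr hX).symm
  have hb := bezout F (X (i + 1)) hF0 (X_ne_zero _) hrel (A.image pt)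
    (by
      intro z hz
      obtain ⟨x, hx, rfl⟩ := Finset.mem_image.mp hz
      obtain ⟨w, hw, rfl⟩ := Finset.mem_image.mp hx
      have h1 := hFZ w hw
      rw [eval_eq'] at h1 ⊢
      rw [← h1]
      refine Finset.sum_congr rfl fun m hm => ?_
      have hm0 : m (i + 1) = 0 := by
        have := (degreeOf_le_iff.mp hF.le) m hm
        omega
      rw [prod_fin2 i, prod_fin2 i, hm0, pow_zero, pow_zero]
      simp [pt, pr])
    (by
      intro z hz
      obtain ⟨x, hx, rfl⟩ := Finset.mem_image.mp hz
      simp [pt, fin2_ne i])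
  rw [totalDegree_X, mul_one] at hb
  exact hb

/-- a ruling line, as a polynomial. -/
lemma irreducible_line (i : Fin 2) (t : K) :
    Irreducible (X i - C t : MvPolynomial (Fin 2) K) ∧
      (X i - C t : MvPolynomial (Fin 2) K).totalDegree ≤ 1 := by
  have hdeg : (X i - C t : MvPolynomial (Fin 2) K).totalDegree ≤ 1 := by
    refine (totalDegree_sub _ _).trans ?_
    rw [totalDegree_X, totalDegree_C]
    simp
  have hnu : ∀ u : MvPolynomial (Fin 2) K, IsUnit u → eval (fun _ => t) u ≠ 0 := by
    intro u hu h0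
    have h1 : IsUnit (eval (fun _ => t) u) := hu.map _
    rw [h0] at h1
    exact not_isUnit_zero h1
  refine ⟨⟨?_, ?_⟩, hdeg⟩
  · intro h
    exact hnu _ h (by simp)
  · intro p q hpq
    have hne : (X i - C t : MvPolynomial (Fin 2) K) ≠ 0 := by
      intro h0
      have h1 := congrArg (eval (fun _ => t + 1)) h0
      simp at h1
    have hp : p ≠ 0 := by rintro rfl; rw [zero_mul] at hpq; exact hne hpq
    have hq : q ≠ 0 := by rintro rfl; rw [mul_zero] at hpq; exact hne hpq
    rw [hpq, totalDegree_mul_of_isDomain hp hq] at hdeg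
    by_cases h : p.totalDegree = 0
    · exact Or.inl (isUnit_of_deg_zero hp h)
    · exact Or.inr (isUnit_of_deg_zero hq (by omega))

open Classical in
/-- fibre over a coordinate. -/
noncomputable def fib (Z : Finset (Fin 2 → ℂ)) (i : Fin 2) (x : ℂ) : Finset (Fin 2 → ℂ) :=
  Z.filter (fun z => z i = x)

lemma mem_fib {i : Fin 2} {x : ℂ} {z : Fin 2 → ℂ} : z ∈ fib Z i x ↔ z ∈ Z ∧ z i = x := by
  classical
  rw [fib, Finset.mem_filter]

lemma CIData.fib_le (H : CIData σ Z a b F G) (hab : a ≤ b) (i : Fin 2) (x : ℂ) :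
    (fib Z i x).card ≤ b := by
  set t : K := (algebraMap ℂ K x - σ i)⁻¹ with ht
  obtain ⟨hirr, hdeg⟩ := irreducible_line (K := K) i t
  have hline : ∀ z ∈ fib Z i x, eval (pr σ z) (X i - C t) = 0 := by
    intro z hz
    have := (mem_fib.mp hz).2
    simp [pr, this, ht]
  by_cases hG : (X i - C t) ∣ G
  · have hF : ¬ (X i - C t) ∣ F := by
      intro hF
      exact hirr.not_isUnit (H.rel hF hG)
    have hb := bezout_pr (σ := σ) (fib Z i x) _ F hirr.ne_zero H.F0
      (hirr.isRelPrime_iff_not_dvd.mpr hF) hline (fun z hz => H.FZ z (mem_fib.mp hz).1)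
    rw [H.Fdeg] at hb
    have : (X i - C t : MvPolynomial (Fin 2) K).totalDegree * a ≤ 1 * a :=
      Nat.mul_le_mul_right _ hdeg
    omega
  · have hb := bezout_pr (σ := σ) (fib Z i x) _ G hirr.ne_zero H.G0
      (hirr.isRelPrime_iff_not_dvd.mpr hG) hline (fun z hz => H.GZ z (mem_fib.mp hz).1)
    rw [H.Gdeg] at hb
    have : (X i - C t : MvPolynomial (Fin 2) K).totalDegree * b ≤ 1 * b :=
      Nat.mul_le_mul_right _ hdeg
    omega

/-- counting: exactly `a` coordinates, each fibre having exactly `b` points. -/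
lemma CIData.fib_card (H : CIData σ Z a b F G) (hab : a ≤ b) (ha : 1 ≤ a) (i : Fin 2)
    (hA : (Z.image (fun z => z i)).card ≤ a) :
    (Z.image (fun z => z i)).card = a ∧ ∀ x ∈ Z.image (fun z => z i), (fib Z i x).card = b := by
  classical
  have hsum : Z.card = ∑ x ∈ Z.image (fun z => z i), (fib Z i x).card := by
    rw [Finset.card_eq_sum_card_image (fun z => z i) Z]
    refine Finset.sum_congr rfl fun x _ => ?_
    rw [fib]
  have hle : ∀ x ∈ Z.image (fun z => z i), (fib Z i x).card ≤ b := fun x _ => H.fib_le hab i x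
  have hb1 : 1 ≤ b := ha.trans hab
  constructor
  · by_contra hne
    have hlt : (Z.image (fun z => z i)).card + 1 ≤ a := by omega
    have h1 : ∑ x ∈ Z.image (fun z => z i), (fib Z i x).card ≤
        (Z.image (fun z => z i)).card * b := by
      have := Finset.sum_le_card_nsmul _ _ _ hle
      simpa using this
    have h2 : ((Z.image (fun z => z i)).card + 1) * b ≤ a * b := Nat.mul_le_mul_right _ hlt
    rw [← hsum, H.card] at h1
    have h3 : ((Z.image (fun z => z i)).card + 1) * b = (Z.image (fun z => z i)).card * b + b := by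
      ring
    omega
  · intro x hx
    by_contra hne
    have hlt : (fib Z i x).card < b := lt_of_le_of_ne (hle x hx) hne
    have h1 : ∑ x ∈ Z.image (fun z => z i), (fib Z i x).card <
        ∑ x ∈ Z.image (fun z => z i), b :=
      Finset.sum_lt_sum hle ⟨x, hx, hlt⟩
    rw [← hsum, H.card, Finset.sum_const, smul_eq_mul] at h1
    have h2 : (Z.image (fun z => z i)).card * b ≤ a * b := Nat.mul_le_mul_right _ hA
    omega

/-- The sum of the inverse coordinates on each fibre is constant. -/
lemma CIData.sum_const (H : CIData σ Z a b F G) (hb : 2 ≤ b) (i : Fin 2)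
    (hg0 : cf i G 0 b ≠ 0) (hg1 : cf i G 1 (b - 1) = 0) (x : ℂ)
    (hx : (fib Z i x).card = b) :
    ∑ z ∈ fib Z i x, pr σ z (i + 1) = -(cf i G 0 (b - 1)) / cf i G 0 b := by
  classical
  set t : K := (algebraMap ℂ K x - σ i)⁻¹ with ht
  have hpr : ∀ z ∈ fib Z i x, (fun j => if j = i then t else pr σ z (i + 1)) = pr σ z := by
    intro z hz
    funext j
    rcases fin2_cases i j with h | h
    · subst h
      have := (mem_fib.mp hz).2
      simp [pr, this, ht]
    · subst h
      rw [if_neg (fin2_ne i)]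
  have hc0 : (uni i t G).coeff b = cf i G 0 b := by
    rw [coeff_uni i t H.Gdeg.le b (le_refl b), Finset.sum_eq_single_of_mem 0
      (Finset.mem_range.mpr (by omega))]
    · rw [pow_zero, mul_one]
    · intro m _ hm
      rw [cf_eq_zero_of_lt i H.Gdeg.le (by omega), zero_mul]
  have hc1 : (uni i t G).coeff (b - 1) = cf i G 0 (b - 1) := by
    rw [coeff_uni i t H.Gdeg.le (b - 1) (by omega), Finset.sum_eq_single_of_mem 0
      (Finset.mem_range.mpr (by omega))]
    · rw [pow_zero, mul_one]
    · intro m _ hm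
      by_cases hm1 : m = 1
      · rw [hm1, hg1, zero_mul]
      · rw [cf_eq_zero_of_lt i H.Gdeg.le (by omega), zero_mul]
  set Pr : Polynomial K := ∏ z ∈ fib Z i x, (Polynomial.X - Polynomial.C (pr σ z (i + 1))) with hPr
  have hPrd : Pr.natDegree = b := by
    rw [hPr, Polynomial.natDegree_prod_of_monic _ _ (fun z _ => Polynomial.monic_X_sub_C _)]
    simp [hx]
  have hPrm : Pr.Monic := Polynomial.monic_prod_of_monic _ _ (fun z _ => Polynomial.monic_X_sub_C _)
  have hPrc : Pr.coeff b = 1 := by
    rw [← hPrd]; exact hPrm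
  have hPr1 : Pr.coeff (b - 1) = -∑ z ∈ fib Z i x, pr σ z (i + 1) := by
    have := Polynomial.prod_X_sub_C_coeff_card_pred (fib Z i x) (fun z => pr σ z (i + 1))
      (by rw [hx]; omega)
    rw [hx] at this
    exact this
  have hzero : uni i t G - Polynomial.C (cf i G 0 b) * Pr = 0 := by
    apply Polynomial.eq_zero_of_natDegree_lt_card_of_eval_eq_zero' _
      ((fib Z i x).image (fun z => pr σ z (i + 1)))
    · intro r hr
      obtain ⟨z, hz, rfl⟩ := Finset.mem_image.mp hr
      rw [Polynomial.eval_sub, Polynomial.eval_mul, eval_uni, hpr z hz,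
        H.GZ z (mem_fib.mp hz).1, hPr, Polynomial.eval_prod, Finset.prod_eq_zero hz]
      · ring
      · simp
    · rw [Finset.card_image_of_injOn, hx]
      · have h1 : (uni i t G - Polynomial.C (cf i G 0 b) * Pr).natDegree ≤ b := by
          refine (Polynomial.natDegree_sub_le _ _).trans (max_le (natDegree_uni i t H.Gdeg.le) ?_)
          refine (Polynomial.natDegree_C_mul_le _ _).trans hPrd.le
        have h2 : (uni i t G - Polynomial.C (cf i G 0 b) * Pr).coeff b = 0 := by
          rw [Polynomial.coeff_sub, Polynomial.coeff_C_mul, hc0, hPrc]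
          ring
        rcases Nat.lt_or_ge (uni i t G - Polynomial.C (cf i G 0 b) * Pr).natDegree b with h3 | h3
        · exact h3
        · exfalso
          have h4 : (uni i t G - Polynomial.C (cf i G 0 b) * Pr).natDegree = b := le_antisymm h1 h3
          have h5 : (uni i t G - Polynomial.C (cf i G 0 b) * Pr).leadingCoeff = 0 := by
            rw [Polynomial.leadingCoeff, h4, h2]
          rw [Polynomial.leadingCoeff_eq_zero] at h5
          rw [h5, Polynomial.natDegree_zero] at h4
          omega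
      · intro z hz w hw hzw
        have h1 := pr_inj_coord hzw
        funext j
        rcases fin2_cases i j with h | h
        · subst h
          rw [(mem_fib.mp hz).2, (mem_fib.mp hw).2]
        · subst h; exact h1
  have h6 := congrArg (fun P => Polynomial.coeff P (b - 1)) hzero
  simp only [Polynomial.coeff_sub, Polynomial.coeff_C_mul, Polynomial.coeff_zero, hc1, hPr1] at h6
  field_simp
  linear_combination h6

variable [CharZero K] {δ : Fin 2 → Derivation ℂ K K}

/-- equality of the first power sums implies equality of all power sums. -/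
lemma pow_sums (hc : Coord δ σ) (j : Fin 2) (Y Y' : Finset (Fin 2 → ℂ))
    (h1 : ∑ z ∈ Y, pr σ z j = ∑ z ∈ Y', pr σ z j) (m : ℕ) :
    ∑ z ∈ Y, pr σ z j ^ (m + 1) = ∑ z ∈ Y', pr σ z j ^ (m + 1) := by
  induction m with
  | zero => simpa using h1
  | succ m ih =>
    have hd : ∀ W : Finset (Fin 2 → ℂ), δ j (∑ z ∈ W, pr σ z j ^ (m + 1)) =
        ((m + 1 : ℕ) : K) * ∑ z ∈ W, pr σ z j ^ (m + 1 + 1) := by
      intro W
      rw [map_sum, Finset.mul_sum]
      refine Finset.sum_congr rfl fun z _ => ?_
      rw [Derivation.leibniz_pow, deriv_pr_self hc z j, nsmul_eq_mul, smul_eq_mul,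
        Nat.add_sub_cancel]
      ring
    have h2 := congrArg (δ j) ih
    rw [hd, hd] at h2
    have hne : ((m + 1 : ℕ) : K) ≠ 0 := by exact_mod_cast Nat.succ_ne_zero m
    exact mul_left_cancel₀ hne h2

/-- equal power sums imply equal sets of coordinates. -/
lemma coords_eq (hc : Coord δ σ) (j : Fin 2) (Y Y' : Finset (Fin 2 → ℂ))
    (hinj : ∀ z ∈ Y, ∀ w ∈ Y, z j = w j → z = w)
    (h1 : ∑ z ∈ Y, pr σ z j = ∑ z ∈ Y', pr σ z j) (z : Fin 2 → ℂ) (hz : z ∈ Y) :
    ∃ w ∈ Y', w j = z j := by
  classical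
  by_contra hcon
  push Not at hcon
  set R : Finset K := ((Y ∪ Y').image (fun w => pr σ w j)).erase (pr σ z j) with hR
  set Q : Polynomial K := ∏ r ∈ R, (Polynomial.X - Polynomial.C r) with hQ
  have hpow : ∀ W : Finset (Fin 2 → ℂ), ∑ w ∈ W, pr σ w j * Q.eval (pr σ w j) =
      ∑ n ∈ Finset.range (Q.natDegree + 1), Q.coeff n * ∑ w ∈ W, pr σ w j ^ (n + 1) := by
    intro W
    simp_rw [Finset.mul_sum]
    rw [Finset.sum_comm]
    refine Finset.sum_congr rfl fun w _ => ?_
    rw [Polynomial.eval_eq_sum_range, Finset.mul_sum]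
    refine Finset.sum_congr rfl fun n _ => ?_
    ring
  have heq : ∑ w ∈ Y, pr σ w j * Q.eval (pr σ w j) = ∑ w ∈ Y', pr σ w j * Q.eval (pr σ w j) := by
    rw [hpow, hpow]
    refine Finset.sum_congr rfl fun n _ => ?_
    rw [pow_sums hc j Y Y' h1 n]
  have hQroot : ∀ w ∈ Y ∪ Y', w j ≠ z j → Q.eval (pr σ w j) = 0 := by
    intro w hw hwz
    rw [hQ, Polynomial.eval_prod]
    apply Finset.prod_eq_zero (i := pr σ w j)
    · rw [hR, Finset.mem_erase]
      refine ⟨fun h => hwz (pr_inj_coord h), Finset.mem_image_of_mem _ hw⟩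
    · simp
  have hL : ∑ w ∈ Y, pr σ w j * Q.eval (pr σ w j) = pr σ z j * Q.eval (pr σ z j) := by
    rw [Finset.sum_eq_single_of_mem z hz]
    intro w hw hwz
    rw [hQroot w (Finset.mem_union_left _ hw) (fun h => hwz (hinj w hw z hz h)), mul_zero]
  have hRr : ∑ w ∈ Y', pr σ w j * Q.eval (pr σ w j) = 0 := by
    apply Finset.sum_eq_zero
    intro w hw
    rw [hQroot w (Finset.mem_union_right _ hw) (hcon w hw), mul_zero]
  rw [hL, hRr] at heq
  rcases mul_eq_zero.mp heq with h | h
  · exact pr_ne_zero hc z j h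
  · rw [hQ, Polynomial.eval_prod, Finset.prod_eq_zero_iff] at h
    obtain ⟨r, hr, hr2⟩ := h
    rw [hR, Finset.mem_erase] at hr
    simp only [Polynomial.eval_sub, Polynomial.eval_X, Polynomial.eval_C] at hr2
    exact hr.1 (sub_eq_zero.mp hr2).symm

/-- The grid conclusion. -/
lemma CIData.grid (H : CIData σ Z a b F G) (hc : Coord δ σ) (hab : a ≤ b) (ha : 1 ≤ a) (hb : 2 ≤ b)
    (i : Fin 2) (hF : F.degreeOf (i + 1) = 0)
    (hg0 : cf i G 0 b ≠ 0) (hg1 : cf i G 1 (b - 1) = 0) :
    ∃ A B : Finset ℂ, ∀ z, z ∈ Z ↔ z 0 ∈ A ∧ z 1 ∈ B := by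
  classical
  have hA := card_image_le i H.F0 hF H.FZ
  rw [H.Fdeg] at hA
  obtain ⟨-, hfib⟩ := H.fib_card hab ha i hA
  have key : ∀ z ∈ Z, ∀ w ∈ Z, ∃ v ∈ Z, v i = z i ∧ v (i + 1) = w (i + 1) := by
    intro z hz w hw
    have hz' := hfib (z i) (Finset.mem_image_of_mem _ hz)
    have hw' := hfib (w i) (Finset.mem_image_of_mem _ hw)
    have e1 := H.sum_const hb i hg0 hg1 (z i) hz'
    have e2 := H.sum_const hb i hg0 hg1 (w i) hw'
    obtain ⟨v, hv, hv2⟩ := coords_eq hc (i + 1) (fib Z i (w i)) (fib Z i (z i))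
      (by
        intro x hx y hy hxy
        funext j
        rcases fin2_cases i j with h | h
        · subst h
          rw [(mem_fib.mp hx).2, (mem_fib.mp hy).2]
        · subst h; exact hxy)
      (by rw [e1, e2]) w (mem_fib.mpr ⟨hw, rfl⟩)
    exact ⟨v, (mem_fib.mp hv).1, (mem_fib.mp hv).2, hv2⟩
  refine ⟨Z.image (fun z => z 0), Z.image (fun z => z 1), ?_⟩
  intro z
  constructor
  · intro hz
    exact ⟨Finset.mem_image_of_mem _ hz, Finset.mem_image_of_mem _ hz⟩
  · rintro ⟨h0, h1⟩
    obtain ⟨u, hu, hu0⟩ := Finset.mem_image.mp h0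
    obtain ⟨w, hw, hw1⟩ := Finset.mem_image.mp h1
    have hex : ∃ v ∈ Z, v 0 = u 0 ∧ v 1 = w 1 := by
      rcases fin2_cases 0 i with h | h
      · subst h
        exact key u hu w hw
      · subst h
        obtain ⟨v, hv, e1, e2⟩ := key w hw u hu
        exact ⟨v, hv, e2, e1⟩
    obtain ⟨v, hv, e1, e2⟩ := hex
    have : v = z := by
      funext j
      fin_cases j
      · exact e1.trans hu0
      · exact e2.trans hw1
    rw [← this]; exact hv

end Pool.Agent.Geproci
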