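import Pool.Agent.Lib_MP_9828eb_ag.Bezout

set_option autoImplicit false

open MvPolynomial

namespace Pool.Agent.Geproci

section minors

variable {K : Type*} [Field K]

lemma exists_indep {V ι : Type*} [AddCommGroup V] [Module K V] [Finite ι] (v : ι → V)
    (k : ℕ) (hk : k ≤ Module.finrank K (Submodule.span K (Set.range v))) :
    ∃ c : Fin k → ι, LinearIndependent K (v ∘ c) := by
  obtain ⟨κ, a, hinj, hspan, hli⟩ := exists_linearIndependent' K v
  have : Finite κ := Finite.of_injective a hinj
  have := Fintype.ofFinite κ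
  have hcard : Module.finrank K (Submodule.span K (Set.range (v ∘ a))) = Fintype.card κ :=
    finrank_span_eq_card hli
  rw [hspan] at hcard
  rw [hcard] at hk
  obtain ⟨f⟩ : Nonempty (Fin k ↪ κ) := by
    apply Function.Embedding.nonempty_of_card_le
    simpa using hk
  exact ⟨a ∘ f, hli.comp f f.injective⟩

lemma exists_minor {m n : Type*} [Fintype m] [Fintype n] (A : Matrix m n K) (k : ℕ)
    (hk : k ≤ A.rank) : ∃ (r : Fin k → m) (c : Fin k → n), (A.submatrix r c).det ≠ 0 := by
  classical
  have hk1 : k ≤ Module.finrank K (Submodule.span K (Set.range A.col)) := by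
    rwa [← Matrix.rank_eq_finrank_span_cols]
  obtain ⟨c, hc⟩ := exists_indep A.col k hk1
  set B : Matrix m (Fin k) K := A.submatrix id c with hB
  have hBr : B.rank = k := by
    rw [Matrix.rank_eq_finrank_span_cols]
    have : B.col = A.col ∘ c := by
      funext j
      rfl
    rw [this, finrank_span_eq_card hc, Fintype.card_fin]
  have hk2 : k ≤ Module.finrank K (Submodule.span K (Set.range B.row)) := by
    rw [← Matrix.rank_eq_finrank_span_row, hBr]
  obtain ⟨r, hr⟩ := exists_indep B.row k hk2
  refine ⟨r, c, ?_⟩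
  have hrows : LinearIndependent K (A.submatrix r c).row := by
    have : (A.submatrix r c).row = B.row ∘ r := by
      funext j
      rfl
    rw [this]; exact hr
  rw [Matrix.linearIndependent_rows_iff_isUnit] at hrows
  intro h0
  rw [Matrix.isUnit_iff_isUnit_det, h0] at hrows
  exact not_isUnit_zero hrows

/-- semicontinuity of the rank: from a Zariski dense set of points to any specialisation. -/
lemma rank_transfer {m n τ : Type*} [Fintype m] [Fintype n]
    (M : Matrix m n (MvPolynomial τ ℂ)) (φ : MvPolynomial τ ℂ →+* K) (U : Set (τ → ℂ))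
    (hU : ∀ g : MvPolynomial τ ℂ, g ≠ 0 → ∃ x ∈ U, eval x g ≠ 0) (k : ℕ)
    (h : ∀ x ∈ U, (M.map (eval x)).rank ≤ k) : (M.map φ).rank ≤ k := by
  classical
  by_contra hcon
  push Not at hcon
  obtain ⟨r, c, hdet⟩ := exists_minor (M.map φ) (k + 1) hcon
  have hd0 : (M.submatrix r c).det ≠ 0 := by
    intro h0
    apply hdet
    have : (M.map φ).submatrix r c = (M.submatrix r c).map φ := rfl
    rw [this]
    have h2 := RingHom.map_det φ (M.submatrix r c)
    rw [RingHom.mapMatrix_apply] at h2
    rw [← h2, h0, map_zero]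
  obtain ⟨x, hx, hx2⟩ := hU _ hd0
  have h1 : ((M.map (eval x)).submatrix r c).det ≠ 0 := by
    have : (M.map (eval x)).submatrix r c = (M.submatrix r c).map (eval x) := rfl
    rw [this]
    have h2 := RingHom.map_det (eval x) (M.submatrix r c)
    rw [RingHom.mapMatrix_apply] at h2
    rw [← h2]
    exact hx2
  have h2 : ((M.map (eval x)).submatrix r c).rank = Fintype.card (Fin (k + 1)) :=
    Matrix.rank_of_det_ne_zero h1
  rw [Fintype.card_fin] at h2
  have h3 := Matrix.rank_submatrix_le (M.map (eval x)) r c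
  have h4 := h x hx
  omega

end minors

section evq

variable {L : Type*} [Field L] {I : Type*}

/-- evaluation at an indexed family of points. -/
noncomputable def evq (T : Submodule L (MvPolynomial (Fin 2) L)) (pt : I → Fin 2 → L) :
    T →ₗ[L] (I → L) where
  toFun f := fun z => eval (pt z) f.1
  map_add' f g := by ext z; simp
  map_smul' c f := by ext z; simp [smul_eval]

lemma mem_ker_evq {T : Submodule L (MvPolynomial (Fin 2) L)} {pt : I → Fin 2 → L} {f : T} :
    f ∈ LinearMap.ker (evq T pt) ↔ ∀ z, eval (pt z) f.1 = 0 := by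
  rw [LinearMap.mem_ker]
  constructor
  · intro h z
    exact congrFun h z
  · intro h
    funext z
    exact h z

noncomputable instance instFintypeTT (d : ℕ) : Fintype (TT d) := (finite_TT d).fintype

/-- the (scaled) evaluation matrix has the same rank as the evaluation map. -/
lemma rank_eq [Fintype I] (d : ℕ) (pt : I → Fin 2 → L) (w : I → L) (hw : ∀ z, w z ≠ 0)
    (M : Matrix I (TT d) L)
    (hM : ∀ z e, M z e = w z * ∏ j, pt z j ^ (e.1 : Fin 2 →₀ ℕ) j) :
    M.rank = Module.finrank L (LinearMap.range (evq (V L d) pt)) := by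
  classical
  set B := basisRestrictSupport L (TT d) with hB
  let E : V L d ≃ₗ[L] (TT d → L) := B.equivFun
  have hE : ∀ (f : V L d) (e : TT d), E f e = coeff e.1 f.1 := by
    intro f e
    rfl
  let D : (I → L) ≃ₗ[L] (I → L) :=
    LinearEquiv.piCongrRight (fun z => LinearEquiv.smulOfNeZero L L (w z) (hw z))
  have hD : ∀ (g : I → L) z, D g z = w z * g z := by
    intro g z
    rfl
  have hcomp : M.mulVecLin ∘ₗ E.toLinearMap = D.toLinearMap ∘ₗ (evq (V L d) pt) := by
    apply LinearMap.ext
    intro f
    funext z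
    change (M.mulVec (E f)) z = D (evq (V L d) pt f) z
    rw [hD]
    change ∑ e, M z e * E f e = w z * eval (pt z) f.1
    rw [eval_eq', Finset.mul_sum]
    have hsub : ∀ m ∈ f.1.support, m ∈ TT d := fun m hm => f.2 hm
    have h1 : ∑ e : TT d, M z e * E f e =
        ∑ e : TT d, (fun m : Fin 2 →₀ ℕ => w z * (coeff m f.1 * ∏ i, pt z i ^ m i)) e.1 := by
      refine Finset.sum_congr rfl fun e _ => ?_
      rw [hM, hE]
      ring
    rw [h1]
    have h2 : ∑ m ∈ (TT d).toFinset, w z * (coeff m f.1 * ∏ i, pt z i ^ m i) =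
        ∑ e : TT d, (fun m : Fin 2 →₀ ℕ => w z * (coeff m f.1 * ∏ i, pt z i ^ m i)) e.1 :=
      Finset.sum_subtype (F := instFintypeTT d) (p := fun m => m ∈ TT d) (TT d).toFinset
        (fun x => Set.mem_toFinset) (fun m : Fin 2 →₀ ℕ => w z * (coeff m f.1 * ∏ i, pt z i ^ m i))
    rw [← h2]
    symm
    apply Finset.sum_subset
    · intro m hm
      rw [Set.mem_toFinset]
      exact hsub m hm
    · intro m _ hm
      rw [notMem_support_iff.mp hm]
      ring
  have h1 : LinearMap.range (M.mulVecLin ∘ₗ E.toLinearMap) = LinearMap.range M.mulVecLin := by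
    rw [LinearMap.range_comp, LinearEquiv.range, Submodule.map_top]
  rw [Matrix.rank, ← h1, hcomp, LinearMap.range_comp]
  exact LinearEquiv.finrank_map_eq D _

end evq

end Pool.Agent.Geproci
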